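import Mathlib

/-! The m-eternal domination game: definitions. -/

namespace Pool.Agent.X137.Eternal

open Finset

/-- A move of the guards: each guard stays or crosses one edge, no two guards end at the same
vertex; `C'` is the new set of occupied vertices. -/
def Move {V : Type} [DecidableEq V] (G : SimpleGraph V) (C C' : Finset V) : Prop :=
  ∃ f : V → V, (∀ v ∈ C, f v = v ∨ G.Adj v (f v)) ∧ Set.InjOn f C ∧ C.image f = C'

/-- `AttackerWins G k C`: from the configuration `C` the attacker has a strategy which wins within at
most `k` attacks: there is an attack `a` such that, for every response `C'` of the defender which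
occupies `a`, the attacker wins from `C'` within at most `k - 1` attacks. (If no response occupies
`a` the attacker wins at once.) -/
def AttackerWins {V : Type} [DecidableEq V] (G : SimpleGraph V) : ℕ → Finset V → Prop
  | 0, _ => False
  | k + 1, C => ∃ a : V, ∀ C' : Finset V, Move G C C' → a ∈ C' → AttackerWins G k C'

/-- `C` is an m-eternal dominating set: the defender can respond to attacks forever, i.e. `C` lies in
a family of configurations in which every attack has a response inside the family. -/
def IsEternal {V : Type} [DecidableEq V] (G : SimpleGraph V) (C : Finset V) : Prop :=
  ∃ S : Set (Finset V), C ∈ S ∧ ∀ D ∈ S, ∀ a : V, ∃ D' ∈ S, Move G D D' ∧ a ∈ D'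

/-- The m-eternal domination number: the least size of an m-eternal dominating set. -/
noncomputable def gamma {V : Type} [DecidableEq V] (G : SimpleGraph V) : ℕ :=
  sInf {k | ∃ C : Finset V, C.card = k ∧ IsEternal G C}

/-- `G` is defeated in `k` attacks: from every configuration with fewer than `gamma G` guards the
attacker wins within at most `k` attacks. -/
def DefeatedIn {V : Type} [DecidableEq V] (G : SimpleGraph V) (k : ℕ) : Prop :=
  ∀ C : Finset V, C.card < gamma G → AttackerWins G k C

end Pool.Agent.X137.Eternal
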