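import Mathlib

/-! Weighted first passage percolation on the integer lattice and the weighted metric `D`. -/

namespace Pool.Agent.X137.WModel

open MeasureTheory ProbabilityTheory Set
open scoped ENNReal Pointwise

/-- The vertex set `ℤ ^ d`. -/
abbrev Vtx (d : ℕ) : Type := Fin d → ℤ

/-- Euclidean space `ℝ ^ d`. -/
abbrev Sp (d : ℕ) : Type := EuclideanSpace ℝ (Fin d)

/-- The nearest-neighbour graph on `ℤ ^ d`: `x` and `y` are adjacent iff `∑ i, |x i - y i| = 1`. -/
def lattice (d : ℕ) : SimpleGraph (Vtx d) where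
  Adj x y := ∑ i, |x i - y i| = 1
  symm := ⟨fun x y h => by
    have : ∑ i, |y i - x i| = ∑ i, |x i - y i| :=
      Finset.sum_congr rfl (fun i _ => abs_sub_comm _ _)
    rw [this]; exact h⟩
  loopless := ⟨fun x h => by simp at h⟩

/-- The lattice point `v` as a point of `ℝ ^ d`. -/
noncomputable def toSp {d : ℕ} (v : Vtx d) : Sp d := WithLp.toLp 2 (fun i => (v i : ℝ))

/-- The midpoint of the (unordered) pair `e` of lattice points. -/
noncomputable def mid {d : ℕ} : Sym2 (Vtx d) → Sp d :=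
  Sym2.lift ⟨fun x y => (1 / 2 : ℝ) • (toSp x + toSp y), fun x y => by
    simp only [add_comm (toSp x) (toSp y)]⟩

/-- The weight function `f z = |z| ^ α * f₀ (z / |z|)`. -/
noncomputable def wfun {d : ℕ} (α : ℝ) (f₀ : Sp d → ℝ) (z : Sp d) : ℝ :=
  ‖z‖ ^ α * f₀ (‖z‖⁻¹ • z)

/-- The passage time `T(0, v)`: the infimum over lattice paths from `0` to `v` of the sum of the
edge times `w e` along the path. -/
noncomputable def passTime {d : ℕ} (w : Sym2 (Vtx d) → ℝ) (v : Vtx d) : ℝ≥0∞ :=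
  ⨅ p : (lattice d).Walk 0 v, (p.edges.map (fun e => ENNReal.ofReal (w e))).sum

/-- The cluster `A_t`: the union of the unit cubes centred at the lattice points `v` with
`T(0, v) ≤ t`. -/
def cluster {d : ℕ} (w : Sym2 (Vtx d) → ℝ) (t : ℝ) : Set (Sp d) :=
  {z | ∃ v : Vtx d, passTime w v ≤ ENNReal.ofReal t ∧ ∀ i, |z i - (v i : ℝ)| ≤ 1 / 2}

/-- The `D`-length of the segment from `p` to `q`: the integral of `1 / f` along the segment with
respect to length measured by the norm `N`. -/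
noncomputable def segCost {d : ℕ} (N : Seminorm ℝ (Sp d)) (f : Sp d → ℝ) (p q : Sp d) : ℝ≥0∞ :=
  ENNReal.ofReal (N (q - p)) *
    ∫⁻ s in Set.Icc (0 : ℝ) 1, (ENNReal.ofReal (f (p + s • (q - p))))⁻¹

/-- The `D`-length of the piecewise linear path through the listed points. -/
noncomputable def pathCost {d : ℕ} (N : Seminorm ℝ (Sp d)) (f : Sp d → ℝ) :
    List (Sp d) → ℝ≥0∞
  | [] => 0
  | [_] => 0
  | p :: q :: l => segCost N f p q + pathCost N f (q :: l)

/-- The distance `D(z, w)`: the infimum of the `D`-lengths of piecewise linear paths from `z` to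
`w`. -/
noncomputable def wdist {d : ℕ} (N : Seminorm ℝ (Sp d)) (f : Sp d → ℝ) (z w : Sp d) : ℝ≥0∞ :=
  ⨅ (l : List (Sp d)) (_ : l.head? = some z) (_ : l.getLast? = some w), pathCost N f l

/-- The closed unit ball of `D` centred at the origin. -/
def wball {d : ℕ} (N : Seminorm ℝ (Sp d)) (f : Sp d → ℝ) : Set (Sp d) := {z | wdist N f 0 z ≤ 1}

/-- `X` is a family of independent edge times for the weighted model: the variables `X e`, `e` an
edge of the lattice, are independent, and `X e` is exponential with rate `f (m e)`, `m e` being the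
midpoint of `e`. -/
structure EdgeTimes {d : ℕ} {Ω : Type} [MeasurableSpace Ω] (P : Measure Ω) (f : Sp d → ℝ)
    (X : Sym2 (Vtx d) → Ω → ℝ) : Prop where
  meas : ∀ e ∈ (lattice d).edgeSet, Measurable (X e)
  law : ∀ e ∈ (lattice d).edgeSet, P.map (X e) = expMeasure (f (mid e))
  indep : iIndepFun (fun e : (lattice d).edgeSet => X e) P

/-- The event `E(χ, t₀)` of the problem, with a set `B` as limit shape: for all times `t ≥ t₀` the
cluster at time `t` lies between `(1 - t ^ (-χ)) t ^ (1 / (1 - α)) B` and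
`(1 + t ^ (-χ)) t ^ (1 / (1 - α)) B`. -/
def goodEvent {d : ℕ} {Ω : Type} (X : Sym2 (Vtx d) → Ω → ℝ) (B : Set (Sp d)) (α χ t₀ : ℝ) :
    Set Ω :=
  {ω | ∀ t : ℝ, t₀ ≤ t →
    ((1 - t ^ (-χ)) * t ^ (1 / (1 - α))) • B ⊆ cluster (fun e => X e ω) t ∧
    cluster (fun e => X e ω) t ⊆ ((1 + t ^ (-χ)) * t ^ (1 / (1 - α))) • B}

/-- Rate `χ` holds: for every `s > 0`, `t₀ ^ s * (1 - P(E(χ, t₀))) → 0` as `t₀ → ∞`. -/
def RateHolds {d : ℕ} {Ω : Type} [MeasurableSpace Ω] (P : MeasureTheory.Measure Ω)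
    (X : Sym2 (Vtx d) → Ω → ℝ) (B : Set (Sp d)) (α χ : ℝ) : Prop :=
  ∀ s : ℝ, 0 < s → Filter.Tendsto
    (fun t₀ : ℝ => t₀ ^ s * (1 - (P (goodEvent X B α χ t₀)).toReal)) Filter.atTop (nhds 0)

end Pool.Agent.X137.WModel
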