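import Mathlib
import Pool.Agent.X137.WDefs

/-! Basic lemmas on weighted first passage percolation on the integer lattice. -/

namespace Pool.Agent.X137.WModel

open MeasureTheory ProbabilityTheory Set
open scoped ENNReal

section basic

variable {d : ℕ}

lemma walkCountable (u v : Vtx d) : Countable ((lattice d).Walk u v) := by
  have : Function.Injective (fun p : (lattice d).Walk u v => p.support) :=
    fun p q h => SimpleGraph.Walk.ext_support h
  exact this.countable

lemma toSp_apply (v : Vtx d) (i : Fin d) : toSp v i = (v i : ℝ) := rfl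

lemma mid_mk (x y : Vtx d) : mid s(x, y) = (1 / 2 : ℝ) • (toSp x + toSp y) := rfl

lemma mid_ne_zero {e : Sym2 (Vtx d)} (he : e ∈ (lattice d).edgeSet) : mid e ≠ 0 := by
  induction e using Sym2.ind with
  | _ x y =>
    rw [SimpleGraph.mem_edgeSet] at he
    have h1 : ∑ i, |x i - y i| = 1 := he
    intro h
    rw [mid_mk] at h
    have h2 : ∀ i, x i = - y i := by
      intro i
      have h3 := congrArg (fun z : Sp d => z i) h
      simp only [PiLp.smul_apply, PiLp.add_apply, toSp_apply, smul_eq_mul, PiLp.zero_apply] at h3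
      have h4 : (x i : ℝ) + y i = 0 := by linarith
      have h5 : x i + y i = 0 := by exact_mod_cast h4
      omega
    have h6 : (2 : ℤ) ∣ ∑ i, |x i - y i| := by
      refine Finset.dvd_sum (fun i _ => ?_)
      rw [h2 i, dvd_abs]
      exact ⟨- y i, by ring⟩
    rw [h1] at h6
    omega

lemma wfun_pos {α : ℝ} {f₀ : Sp d → ℝ} (hpos : ∀ u ∈ Metric.sphere (0 : Sp d) 1, 0 < f₀ u)
    {z : Sp d} (hz : z ≠ 0) : 0 < wfun α f₀ z := by
  unfold wfun
  have h1 : 0 < ‖z‖ := norm_pos_iff.mpr hz
  refine mul_pos (Real.rpow_pos_of_pos h1 _) (hpos _ ?_)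
  rw [mem_sphere_zero_iff_norm, norm_smul, norm_inv, norm_norm]
  exact inv_mul_cancel₀ h1.ne'

/-- Extension of a function on edges to all pairs. -/
noncomputable def extW (x : (lattice d).edgeSet → ℝ) : Sym2 (Vtx d) → ℝ := by
  classical
  exact fun e => if h : e ∈ (lattice d).edgeSet then x ⟨e, h⟩ else 0

lemma measurable_extW (e : Sym2 (Vtx d)) :
    Measurable (fun x : (lattice d).edgeSet → ℝ => extW x e) := by
  classical
  unfold extW
  by_cases h : e ∈ (lattice d).edgeSet
  · simp only [h, dif_pos]
    exact measurable_pi_apply _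
  · simp only [h, dif_neg, not_false_eq_true]
    exact measurable_const

lemma measurable_passTime (v : Vtx d) :
    Measurable (fun x : (lattice d).edgeSet → ℝ => passTime (extW x) v) := by
  have := walkCountable (0 : Vtx d) v
  unfold passTime
  refine Measurable.iInf (fun p => ?_)
  induction p.edges with
  | nil => simp
  | cons e l ih =>
    simp only [List.map_cons, List.sum_cons]
    exact ((measurable_extW e).ennreal_ofReal).add ih

lemma passTime_congr {w w' : Sym2 (Vtx d) → ℝ} (h : ∀ e ∈ (lattice d).edgeSet, w e = w' e)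
    (v : Vtx d) : passTime w v = passTime w' v := by
  unfold passTime
  congr 1
  funext p
  congr 1
  refine List.map_congr_left (fun e he => ?_)
  rw [h e (p.edges_subset_edgeSet he)]

lemma passTime_zero (w : Sym2 (Vtx d) → ℝ) : passTime w 0 = 0 := by
  unfold passTime
  refine le_antisymm (iInf_le_of_le SimpleGraph.Walk.nil ?_) bot_le
  simp

/-- Raising by one all the (nonnegative) times of the edges at the origin raises all passage times
to nonzero vertices by at least one. -/
lemma passTime_shift {w w' : Sym2 (Vtx d) → ℝ} (hmono : ∀ e, w e ≤ w' e)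
    (h0 : ∀ y, (lattice d).Adj 0 y → 0 ≤ w s(0, y) ∧ w' s(0, y) = w s(0, y) + 1)
    {v : Vtx d} (hv : v ≠ 0) : passTime w v + 1 ≤ passTime w' v := by
  unfold passTime
  refine le_iInf (fun p => ?_)
  cases p with
  | nil => exact absurd rfl hv
  | cons hadj q =>
    rename_i y
    refine le_trans (add_le_add_left (iInf_le _ (SimpleGraph.Walk.cons hadj q)) 1) ?_
    simp only [SimpleGraph.Walk.edges_cons, List.map_cons, List.sum_cons]
    obtain ⟨h1, h2⟩ := h0 y hadj
    rw [h2, ENNReal.ofReal_add h1 zero_le_one, ENNReal.ofReal_one]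
    rw [add_right_comm]
    refine add_le_add_right ?_ _
    refine List.sum_le_sum (fun e _ => ENNReal.ofReal_le_ofReal (hmono e))

/-- Independent edge times exist. -/
lemma exists_edgeTimes {f : Sp d → ℝ} (hf : ∀ z, z ≠ 0 → 0 < f z) :
    ∃ (Ω : Type) (_ : MeasurableSpace Ω) (P : Measure Ω) (X : Sym2 (Vtx d) → Ω → ℝ),
      IsProbabilityMeasure P ∧ EdgeTimes P f X := by
  classical
  have hp : ∀ e : (lattice d).edgeSet, IsProbabilityMeasure (expMeasure (f (mid e.1))) :=
    fun e => isProbabilityMeasure_expMeasure (hf _ (mid_ne_zero e.2))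
  obtain ⟨Ω, mΩ, P, X, hm, hlaw, hind, hP⟩ := exists_hasLaw_indepFun
    (fun _ : (lattice d).edgeSet => ℝ) (fun e => expMeasure (f (mid e.1)))
  refine ⟨Ω, mΩ, P, fun e ω => if h : e ∈ (lattice d).edgeSet then X ⟨e, h⟩ ω else 0, hP, ?_⟩
  have hXe : ∀ e (h : e ∈ (lattice d).edgeSet),
      (fun ω => if h : e ∈ (lattice d).edgeSet then X ⟨e, h⟩ ω else 0) = X ⟨e, h⟩ := by
    intro e h
    funext ω
    simp [h]
  refine ⟨fun e he => ?_, fun e he => ?_, ?_⟩
  · show Measurable (fun ω => if h : e ∈ (lattice d).edgeSet then X ⟨e, h⟩ ω else 0)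
    rw [hXe e he]; exact hm _
  · show P.map (fun ω => if h : e ∈ (lattice d).edgeSet then X ⟨e, h⟩ ω else 0) = _
    rw [hXe e he]; exact (hlaw _).map_eq
  · have : (fun (e : (lattice d).edgeSet) (ω : Ω) =>
        if h : e.1 ∈ (lattice d).edgeSet then X ⟨e.1, h⟩ ω else 0) = X := by
      funext e
      exact hXe e.1 e.2
    rw [this]
    exact hind

end basic

end Pool.Agent.X137.WModel
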