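import Mathlib
import Pool.Agent.X137.WModel

/-! The unit ball of the weighted metric is bounded and contains nonzero points. -/

namespace Pool.Agent.X137.WBall

open MeasureTheory Set Filter Topology
open scoped ENNReal
open Pool.Agent.X137.WModel

variable {d : ℕ}

lemma seminorm_continuous (N : Seminorm ℝ (Sp d)) : Continuous N := by
  have h := ConvexOn.continuousOn isOpen_univ N.convexOn
  exact continuousOn_univ.mp h

lemma seminorm_lower (hd : 1 ≤ d) (N : Seminorm ℝ (Sp d)) (hN : ∀ x, N x = 0 → x = 0) :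
    ∃ κ : ℝ, 0 < κ ∧ ∀ x, κ * ‖x‖ ≤ N x := by
  have hne : (Metric.sphere (0 : Sp d) 1).Nonempty := by
    refine ⟨EuclideanSpace.single ⟨0, hd⟩ 1, ?_⟩
    simp
  obtain ⟨u, hu, hmin⟩ := (isCompact_sphere (0 : Sp d) 1).exists_isMinOn hne
    (seminorm_continuous N).continuousOn
  have hu1 : ‖u‖ = 1 := mem_sphere_zero_iff_norm.mp hu
  have hpos : 0 < N u := by
    rcases (apply_nonneg N u).eq_or_lt with h | h
    · have := hN u h.symm
      rw [this] at hu1; simp at hu1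
    · exact h
  refine ⟨N u, hpos, fun x => ?_⟩
  rcases eq_or_ne x 0 with rfl | hx
  · simp
  · have hx' : 0 < ‖x‖ := norm_pos_iff.mpr hx
    have h1 : ‖x‖⁻¹ • x ∈ Metric.sphere (0 : Sp d) 1 := by
      rw [mem_sphere_zero_iff_norm, norm_smul, norm_inv, norm_norm]
      exact inv_mul_cancel₀ hx'.ne'
    have h2 : N u ≤ N (‖x‖⁻¹ • x) := hmin h1
    rw [map_smul_eq_mul, norm_inv, norm_norm] at h2
    calc N u * ‖x‖ ≤ (‖x‖⁻¹ * N x) * ‖x‖ := mul_le_mul_of_nonneg_right h2 hx'.le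
      _ = N x := by field_simp

lemma sphere_upper {f₀ : Sp d → ℝ} {K : NNReal}
    (hlip : LipschitzOnWith K f₀ (Metric.sphere (0 : Sp d) 1)) :
    ∃ m : ℝ, 0 < m ∧ ∀ u ∈ Metric.sphere (0 : Sp d) 1, f₀ u ≤ m := by
  obtain ⟨m, hm⟩ := (isCompact_sphere (0 : Sp d) 1).bddAbove_image hlip.continuousOn
  refine ⟨max m 1, by positivity, fun u hu => ?_⟩
  exact le_trans (hm (Set.mem_image_of_mem _ hu)) (le_max_left _ _)

lemma wfun_le {α m : ℝ} (hα0 : 0 < α) (hα1 : α < 1) {f₀ : Sp d → ℝ} (hm0 : 0 < m)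
    (hm : ∀ u ∈ Metric.sphere (0 : Sp d) 1, f₀ u ≤ m) (z : Sp d) :
    wfun α f₀ z ≤ m * (1 + ‖z‖) := by
  unfold wfun
  rcases eq_or_ne z 0 with rfl | hz
  · rw [norm_zero, Real.zero_rpow hα0.ne']
    simp [hm0.le]
  · have hz' : 0 < ‖z‖ := norm_pos_iff.mpr hz
    have h1 : ‖z‖⁻¹ • z ∈ Metric.sphere (0 : Sp d) 1 := by
      rw [mem_sphere_zero_iff_norm, norm_smul, norm_inv, norm_norm]
      exact inv_mul_cancel₀ hz'.ne'
    have h2 : ‖z‖ ^ α ≤ 1 + ‖z‖ := by
      calc ‖z‖ ^ α ≤ (1 + ‖z‖) ^ α := Real.rpow_le_rpow hz'.le (by linarith) hα0.le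
        _ ≤ (1 + ‖z‖) ^ (1 : ℝ) := Real.rpow_le_rpow_of_exponent_le (by linarith) hα1.le
        _ = 1 + ‖z‖ := Real.rpow_one _
    calc ‖z‖ ^ α * f₀ (‖z‖⁻¹ • z) ≤ ‖z‖ ^ α * m :=
          mul_le_mul_of_nonneg_left (hm _ h1) (Real.rpow_nonneg hz'.le _)
      _ ≤ (1 + ‖z‖) * m := mul_le_mul_of_nonneg_right h2 hm0.le
      _ = m * (1 + ‖z‖) := mul_comm _ _

lemma log_integral (a D : ℝ) (ha : 0 ≤ a) (hD : 0 ≤ D) :
    ∫ s in (0 : ℝ)..1, D / (1 + a + s * D) = Real.log (1 + a + D) - Real.log (1 + a) := by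
  have h := intervalIntegral.integral_eq_sub_of_hasDerivAt (a := (0 : ℝ)) (b := 1)
    (f := fun s => Real.log (1 + a + s * D)) (f' := fun s => D / (1 + a + s * D)) ?_ ?_
  · rw [h]; simp
  · intro s hs
    rw [Set.uIcc_of_le zero_le_one] at hs
    have hpos : 0 < 1 + a + s * D := by have := mul_nonneg hs.1 hD; linarith
    have h1 : HasDerivAt (fun s : ℝ => 1 + a + s * D) D s := by
      simpa using ((hasDerivAt_id s).mul_const D).const_add (1 + a)
    exact h1.log hpos.ne'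
  · apply ContinuousOn.intervalIntegrable
    rw [Set.uIcc_of_le zero_le_one]
    intro s hs
    have hpos : 0 < 1 + a + s * D := by have := mul_nonneg hs.1 hD; linarith
    apply ContinuousAt.continuousWithinAt
    refine ContinuousAt.div continuousAt_const (by fun_prop) hpos.ne'

lemma segCost_lower {N : Seminorm ℝ (Sp d)} {f : Sp d → ℝ} {κ m : ℝ} (hκ : 0 < κ) (hm : 0 < m)
    (hN : ∀ x, κ * ‖x‖ ≤ N x) (hf : ∀ z, f z ≤ m * (1 + ‖z‖)) (p q : Sp d) :
    ENNReal.ofReal ((κ / m) * (Real.log (1 + ‖q‖) - Real.log (1 + ‖p‖))) ≤ segCost N f p q := by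
  set a := ‖p‖ with ha
  set D := ‖q - p‖ with hD
  have ha0 : 0 ≤ a := norm_nonneg _
  have hD0 : 0 ≤ D := norm_nonneg _
  have htri : ‖q‖ ≤ a + D := by
    calc ‖q‖ = ‖p + (q - p)‖ := by congr 1; abel
      _ ≤ _ := norm_add_le _ _
  have h1 : ∫⁻ s in Set.Icc (0 : ℝ) 1, ENNReal.ofReal ((1 / m) * (1 / (1 + a + s * D))) ≤
      ∫⁻ s in Set.Icc (0 : ℝ) 1, (ENNReal.ofReal (f (p + s • (q - p))))⁻¹ := by
    refine setLIntegral_mono' measurableSet_Icc (fun s hs => ?_)
    have hpos : 0 < 1 + a + s * D := by have := mul_nonneg hs.1 hD0; linarith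
    have h2 : f (p + s • (q - p)) ≤ m * (1 + a + s * D) := by
      refine (hf _).trans (mul_le_mul_of_nonneg_left ?_ hm.le)
      have : ‖p + s • (q - p)‖ ≤ a + s * D := by
        refine (norm_add_le _ _).trans ?_
        rw [norm_smul, Real.norm_of_nonneg hs.1]
      linarith
    have h3 : (1 / m) * (1 / (1 + a + s * D)) = (m * (1 + a + s * D))⁻¹ := by
      field_simp
    rw [h3, ENNReal.ofReal_inv_of_pos (by positivity)]
    exact ENNReal.inv_le_inv.mpr (ENNReal.ofReal_le_ofReal h2)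
  have h4 : ENNReal.ofReal (κ * D) ≤ ENNReal.ofReal (N (q - p)) := ENNReal.ofReal_le_ofReal (hN _)
  have hcont : ContinuousOn (fun s : ℝ => (1 / m) * (1 / (1 + a + s * D))) (Set.Icc 0 1) := by
    intro s hs
    have hpos : 0 < 1 + a + s * D := by have := mul_nonneg hs.1 hD0; linarith
    apply ContinuousAt.continuousWithinAt
    exact continuousAt_const.mul (ContinuousAt.div continuousAt_const (by fun_prop) hpos.ne')
  have h5 : ∫⁻ s in Set.Icc (0 : ℝ) 1, ENNReal.ofReal ((1 / m) * (1 / (1 + a + s * D))) =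
      ENNReal.ofReal (∫ s in (0 : ℝ)..1, (1 / m) * (1 / (1 + a + s * D))) := by
    rw [intervalIntegral.integral_of_le zero_le_one, ← integral_Icc_eq_integral_Ioc,
      ofReal_integral_eq_lintegral_ofReal (hcont.integrableOn_Icc)]
    rw [EventuallyLE, ae_restrict_iff' measurableSet_Icc]
    refine Filter.Eventually.of_forall (fun s hs => ?_)
    have hpos : 0 < 1 + a + s * D := by have := mul_nonneg hs.1 hD0; linarith
    simp only [Pi.zero_apply]
    positivity
  have h6 : κ * D * (∫ s in (0 : ℝ)..1, (1 / m) * (1 / (1 + a + s * D))) =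
      (κ / m) * (Real.log (1 + a + D) - Real.log (1 + a)) := by
    rw [← log_integral a D ha0 hD0, ← intervalIntegral.integral_const_mul,
      ← intervalIntegral.integral_const_mul]
    apply intervalIntegral.integral_congr
    intro s _
    simp only
    ring
  calc ENNReal.ofReal ((κ / m) * (Real.log (1 + ‖q‖) - Real.log (1 + a)))
      ≤ ENNReal.ofReal ((κ / m) * (Real.log (1 + a + D) - Real.log (1 + a))) := by
        apply ENNReal.ofReal_le_ofReal
        apply mul_le_mul_of_nonneg_left _ (by positivity)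
        have : Real.log (1 + ‖q‖) ≤ Real.log (1 + a + D) :=
          Real.log_le_log (by positivity) (by linarith)
        linarith
    _ = ENNReal.ofReal (κ * D) *
        ENNReal.ofReal (∫ s in (0 : ℝ)..1, (1 / m) * (1 / (1 + a + s * D))) := by
        rw [← ENNReal.ofReal_mul (by positivity), h6]
    _ ≤ _ := by
        rw [← h5]
        exact mul_le_mul' h4 h1

lemma pathCost_lower {N : Seminorm ℝ (Sp d)} {f : Sp d → ℝ} {κ m : ℝ} (hκ : 0 < κ) (hm : 0 < m)
    (hN : ∀ x, κ * ‖x‖ ≤ N x) (hf : ∀ z, f z ≤ m * (1 + ‖z‖)) :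
    ∀ (l : List (Sp d)) (p q : Sp d), l.head? = some p → l.getLast? = some q →
    ENNReal.ofReal ((κ / m) * (Real.log (1 + ‖q‖) - Real.log (1 + ‖p‖))) ≤ pathCost N f l := by
  intro l
  induction l with
  | nil => intro p q h; simp at h
  | cons x l ih =>
    intro p q hp hq
    simp only [List.head?_cons, Option.some.injEq] at hp
    subst hp
    cases l with
    | nil =>
      simp only [List.getLast?_singleton, Option.some.injEq] at hq
      subst hq
      simp
    | cons y l =>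
      have h1 := ih y q (by simp) (by simpa using hq)
      have h2 := segCost_lower hκ hm hN hf x y
      calc ENNReal.ofReal ((κ / m) * (Real.log (1 + ‖q‖) - Real.log (1 + ‖x‖)))
          = ENNReal.ofReal ((κ / m) * (Real.log (1 + ‖y‖) - Real.log (1 + ‖x‖)) +
            (κ / m) * (Real.log (1 + ‖q‖) - Real.log (1 + ‖y‖))) := by congr 1; ring
        _ ≤ _ := ENNReal.ofReal_add_le
        _ ≤ segCost N f x y + pathCost N f (y :: l) := add_le_add h2 h1

/-- The unit ball is bounded. -/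
lemma wball_bounded (hd : 1 ≤ d) {α : ℝ} (hα0 : 0 < α) (hα1 : α < 1) {f₀ : Sp d → ℝ} {K : NNReal}
    (hlip : LipschitzOnWith K f₀ (Metric.sphere (0 : Sp d) 1))
    (N : Seminorm ℝ (Sp d)) (hN : ∀ x, N x = 0 → x = 0) :
    ∃ R : ℝ, ∀ z ∈ wball N (wfun α f₀), ‖z‖ ≤ R := by
  obtain ⟨κ, hκ, hκN⟩ := seminorm_lower hd N hN
  obtain ⟨m, hm, hmf⟩ := sphere_upper hlip
  refine ⟨Real.exp (2 * (m / κ)), fun z hz => ?_⟩
  have hz1 : wdist N (wfun α f₀) 0 z ≤ 1 := hz
  have h1 : wdist N (wfun α f₀) 0 z < 2 := lt_of_le_of_lt hz1 (by norm_num)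
  unfold wdist at h1
  simp only [iInf_lt_iff] at h1
  obtain ⟨l, hl1, hl2, hl3⟩ := h1
  have h2 := pathCost_lower hκ hm hκN (wfun_le hα0 hα1 hm hmf) l 0 z hl1 hl2
  have h3 := lt_of_le_of_lt h2 hl3
  rw [norm_zero, add_zero, Real.log_one, sub_zero] at h3
  have h4 : (κ / m) * Real.log (1 + ‖z‖) < 2 := by
    by_contra hcon
    push Not at hcon
    have : (2 : ℝ≥0∞) ≤ ENNReal.ofReal ((κ / m) * Real.log (1 + ‖z‖)) := by
      have h2' : ENNReal.ofReal 2 = 2 := by simp
      calc (2 : ℝ≥0∞) = ENNReal.ofReal 2 := h2'.symm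
        _ ≤ _ := ENNReal.ofReal_le_ofReal hcon
    exact absurd h3 (not_lt.mpr this)
  have h5 : Real.log (1 + ‖z‖) < 2 * (m / κ) := by
    have : Real.log (1 + ‖z‖) = (m / κ) * ((κ / m) * Real.log (1 + ‖z‖)) := by field_simp
    rw [this, mul_comm 2]
    exact mul_lt_mul_of_pos_left h4 (by positivity)
  have h6 : 1 + ‖z‖ < Real.exp (2 * (m / κ)) := by
    rw [← Real.log_lt_iff_lt_exp (by positivity)]
    exact h5
  linarith

lemma rpow_lintegral_lt_top {α : ℝ} (hα1 : α < 1) :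
    ∫⁻ s in Set.Icc (0 : ℝ) 1, ENNReal.ofReal (s ^ (-α)) < ⊤ := by
  have h1 : IntervalIntegrable (fun s : ℝ => s ^ (-α)) volume 0 1 :=
    intervalIntegral.intervalIntegrable_rpow' (by linarith)
  rw [intervalIntegrable_iff_integrableOn_Icc_of_le zero_le_one] at h1
  exact h1.lintegral_lt_top

/-- The unit ball contains a nonzero point. -/
lemma wball_nonzero (hd : 1 ≤ d) {α : ℝ} (hα1 : α < 1) {f₀ : Sp d → ℝ}
    (hpos : ∀ u ∈ Metric.sphere (0 : Sp d) 1, 0 < f₀ u) (N : Seminorm ℝ (Sp d)) :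
    ∃ z ∈ wball N (wfun α f₀), z ≠ 0 := by
  set u : Sp d := EuclideanSpace.single ⟨0, hd⟩ 1 with hu
  have hu1 : ‖u‖ = 1 := by simp [hu]
  have hus : u ∈ Metric.sphere (0 : Sp d) 1 := mem_sphere_zero_iff_norm.mpr hu1
  have hf0 := hpos u hus
  set J := ∫⁻ s in Set.Icc (0 : ℝ) 1, ENNReal.ofReal (s ^ (-α)) with hJ
  have hJt : J < ⊤ := rpow_lintegral_lt_top hα1
  -- cost of the segment to `ε u`
  have key : ∀ ε : ℝ, 0 < ε → segCost N (wfun α f₀) 0 (ε • u) ≤
      ENNReal.ofReal (ε ^ (1 - α) * (N u / f₀ u)) * J := by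
    intro ε hε
    have h1 : ∫⁻ s in Set.Icc (0 : ℝ) 1,
        (ENNReal.ofReal (wfun α f₀ (0 + s • (ε • u - 0))))⁻¹ =
        ∫⁻ s in Set.Icc (0 : ℝ) 1, ENNReal.ofReal (ε ^ (-α) / f₀ u) * ENNReal.ofReal (s ^ (-α)) := by
      rw [← restrict_Ioc_eq_restrict_Icc]
      refine setLIntegral_congr_fun measurableSet_Ioc (fun s hs => ?_)
      have hs0 : 0 < s := hs.1
      rw [zero_add, sub_zero, smul_smul]
      have h2 : ‖(s * ε) • u‖ = s * ε := by
        rw [norm_smul, hu1, mul_one, Real.norm_of_nonneg (by positivity)]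
      have h3 : wfun α f₀ ((s * ε) • u) = (s * ε) ^ α * f₀ u := by
        unfold wfun
        rw [h2, smul_smul, inv_mul_cancel₀ (by positivity), one_smul]
      rw [h3, ← ENNReal.ofReal_inv_of_pos (by positivity), ← ENNReal.ofReal_mul (by positivity)]
      congr 1
      rw [Real.mul_rpow hs0.le hε.le, Real.rpow_neg hε.le, Real.rpow_neg hs0.le]
      field_simp
    unfold segCost
    rw [h1, lintegral_const_mul' _ _ ENNReal.ofReal_ne_top, ← mul_assoc]
    refine mul_le_mul_left ?_ J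
    rw [← ENNReal.ofReal_mul (apply_nonneg _ _)]
    apply ENNReal.ofReal_le_ofReal
    apply le_of_eq
    rw [sub_zero, map_smul_eq_mul, Real.norm_of_nonneg hε.le,
      show (1 - α) = 1 + (-α) by ring, Real.rpow_add hε, Real.rpow_one]
    ring
  -- choose ε
  have hlim : Tendsto (fun ε : ℝ => ENNReal.ofReal (ε ^ (1 - α) * (N u / f₀ u)) * J)
      (𝓝[>] 0) (𝓝 (ENNReal.ofReal (0 * (N u / f₀ u)) * J)) := by
    refine ENNReal.Tendsto.mul_const ?_ (Or.inr hJt.ne)
    refine ENNReal.tendsto_ofReal ?_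
    refine Tendsto.mul_const _ ?_
    have : Tendsto (fun ε : ℝ => ε ^ (1 - α)) (𝓝 0) (𝓝 ((0 : ℝ) ^ (1 - α))) :=
      (Real.continuousAt_rpow_const _ _ (Or.inr (by linarith))).tendsto
    rw [Real.zero_rpow (by linarith)] at this
    exact this.mono_left nhdsWithin_le_nhds
  rw [zero_mul, ENNReal.ofReal_zero, zero_mul] at hlim
  have hev : ∀ᶠ ε : ℝ in 𝓝[>] 0, ENNReal.ofReal (ε ^ (1 - α) * (N u / f₀ u)) * J < 1 :=
    hlim.eventually_lt_const (by norm_num)
  obtain ⟨ε, hε1, hε0⟩ := (hev.and self_mem_nhdsWithin).exists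
  have hε0' : 0 < ε := hε0
  refine ⟨ε • u, ?_, ?_⟩
  · show wdist N (wfun α f₀) 0 (ε • u) ≤ 1
    unfold wdist
    refine iInf_le_of_le [0, ε • u] (iInf_le_of_le (by simp) (iInf_le_of_le (by simp) ?_))
    simp only [pathCost, add_zero]
    exact (key ε hε0').trans hε1.le
  · intro h
    have : ‖ε • u‖ = ε := by rw [norm_smul, hu1, mul_one, Real.norm_of_nonneg hε0'.le]
    rw [h, norm_zero] at this
    linarith

end Pool.Agent.X137.WBall
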