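import Mathlib
import Pool.Agent.X137.WDefs
import Pool.Agent.X137.WModel
import Pool.Agent.X137.WBall

/-! General facts on the weighted metric: homogeneity, splitting of segments, local bounds. -/

namespace Pool.Agent.X137.WPath

open MeasureTheory Set Filter Topology
open scoped ENNReal
open Pool.Agent.X137.WModel

variable {d : ℕ}

/-- Affine substitution for lower integrals over `[0, 1]`. -/
lemma lintegral_subst (F : ℝ → ℝ≥0∞) (b : ℝ) {a : ℝ} (ha : 0 < a) :
    ENNReal.ofReal a * ∫⁻ s in Icc (0 : ℝ) 1, F (b + s * a) = ∫⁻ x in Icc b (b + a), F x := by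
  have he : MeasurableEmbedding (fun s : ℝ => b + s * a) :=
    ((Homeomorph.mulRight₀ a ha.ne').trans (Homeomorph.addLeft b)).measurableEmbedding
  have hmap : Measure.map (fun s : ℝ => b + s * a) volume = ENNReal.ofReal a⁻¹ • volume := by
    have h1 : (fun s : ℝ => b + s * a) = (fun x => b + x) ∘ (fun s => s * a) := rfl
    rw [h1, ← Measure.map_map (by fun_prop) (by fun_prop), Real.map_volume_mul_right ha.ne',
      Measure.map_smul, (measurePreserving_add_left volume b).map_eq, abs_of_pos (by positivity)]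
  have h2 : ∫⁻ s in Icc (0 : ℝ) 1, F (b + s * a) = ENNReal.ofReal a⁻¹ *
      ∫⁻ x in Icc b (b + a), F x := by
    have hpre : (fun s : ℝ => b + s * a) ⁻¹' (Icc b (b + a)) = Icc 0 1 := by
      ext s
      simp only [mem_preimage, mem_Icc]
      constructor
      · rintro ⟨h1, h2⟩
        constructor
        · by_contra h
          push Not at h
          nlinarith
        · by_contra h
          push Not at h
          nlinarith
      · rintro ⟨h1, h2⟩
        constructor <;> nlinarith
    calc ∫⁻ s in Icc (0 : ℝ) 1, F (b + s * a)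
        = ∫⁻ s, F (b + s * a) ∂(volume.restrict ((fun s : ℝ => b + s * a) ⁻¹' (Icc b (b + a)))) := by
          rw [hpre]
      _ = ∫⁻ x, F x ∂((volume.restrict ((fun s : ℝ => b + s * a) ⁻¹' (Icc b (b + a)))).map
          (fun s : ℝ => b + s * a)) := (he.lintegral_map _).symm
      _ = ∫⁻ x, F x ∂((Measure.map (fun s : ℝ => b + s * a) volume).restrict (Icc b (b + a))) := by
          rw [he.restrict_map]
      _ = _ := by
          rw [hmap, Measure.restrict_smul, lintegral_smul_measure, smul_eq_mul]
  rw [h2, ← mul_assoc, ← ENNReal.ofReal_mul ha.le, mul_inv_cancel₀ ha.ne', ENNReal.ofReal_one,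
    one_mul]

/-- A sub-segment `[p + b (q - p), p + (b + a) (q - p)]`. -/
lemma segCost_sub (N : Seminorm ℝ (Sp d)) (f : Sp d → ℝ) (p q : Sp d) (b : ℝ) {a : ℝ}
    (ha : 0 ≤ a) :
    segCost N f (p + b • (q - p)) (p + (b + a) • (q - p)) ≤
      ENNReal.ofReal (N (q - p)) *
        ∫⁻ s in Icc b (b + a), (ENNReal.ofReal (f (p + s • (q - p))))⁻¹ := by
  have hdiff : (p + (b + a) • (q - p)) - (p + b • (q - p)) = a • (q - p) := by
    rw [add_smul]; abel
  rcases ha.eq_or_lt with rfl | ha'
  · unfold segCost
    rw [hdiff, zero_smul, map_zero, ENNReal.ofReal_zero, zero_mul]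
    exact bot_le
  · unfold segCost
    rw [hdiff, map_smul_eq_mul, Real.norm_of_nonneg ha, mul_comm a, ENNReal.ofReal_mul
      (apply_nonneg _ _), mul_assoc, ← lintegral_subst _ b ha']
    apply le_of_eq
    congr 3
    funext s
    congr 3
    rw [smul_smul, add_assoc, ← add_smul]

/-- Splitting a segment. -/
lemma segCost_split (N : Seminorm ℝ (Sp d)) (f : Sp d → ℝ) (p q : Sp d) {θ : ℝ} (h0 : 0 ≤ θ)
    (h1 : θ ≤ 1) :
    segCost N f p (p + θ • (q - p)) + segCost N f (p + θ • (q - p)) q ≤ segCost N f p q := by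
  have e1 := segCost_sub N f p q 0 h0
  have e2 := segCost_sub N f p q θ (sub_nonneg.mpr h1)
  simp only [zero_smul, add_zero, zero_add] at e1
  rw [add_sub_cancel θ 1, one_smul, add_sub_cancel p q] at e2
  refine (add_le_add e1 e2).trans ?_
  rw [← mul_add]
  unfold segCost
  refine mul_le_mul_right ?_ _
  have hae : Icc θ 1 =ᵐ[volume] Ioc θ 1 := Ioc_ae_eq_Icc.symm
  rw [setLIntegral_congr hae]
  have hun : Icc (0 : ℝ) θ ∪ Ioc θ 1 = Icc 0 1 := Icc_union_Ioc_eq_Icc h0 h1
  rw [← hun, lintegral_union measurableSet_Ioc]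
  rw [Set.disjoint_left]
  intro x hx hx'
  exact absurd hx.2 (not_le.mpr hx'.1)

/-- Appending a point at the end of a path. -/
lemma pathCost_append (N : Seminorm ℝ (Sp d)) (f : Sp d → ℝ) (q : Sp d) :
    ∀ (l : List (Sp d)) (p : Sp d), l.getLast? = some p →
      pathCost N f (l ++ [q]) = pathCost N f l + segCost N f p q := by
  intro l
  induction l with
  | nil => intro p hp; simp at hp
  | cons x l ih =>
    intro p hp
    cases l with
    | nil =>
      simp only [List.getLast?_singleton, Option.some.injEq] at hp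
      subst hp
      simp [pathCost]
    | cons y l =>
      have h1 := ih p (by simpa using hp)
      simp only [List.cons_append, pathCost] at h1 ⊢
      rw [h1, add_assoc]

lemma wdist_le_path (N : Seminorm ℝ (Sp d)) (f : Sp d → ℝ) {p q : Sp d} {l : List (Sp d)}
    (h1 : l.head? = some p) (h2 : l.getLast? = some q) : wdist N f p q ≤ pathCost N f l :=
  iInf_le_of_le l (iInf_le_of_le h1 (iInf_le_of_le h2 le_rfl))

lemma wdist_le_seg (N : Seminorm ℝ (Sp d)) (f : Sp d → ℝ) (p q : Sp d) :
    wdist N f p q ≤ segCost N f p q := by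
  refine (wdist_le_path N f (l := [p, q]) (by simp) (by simp)).trans ?_
  simp [pathCost]

lemma wdist_triangle_right (N : Seminorm ℝ (Sp d)) (f : Sp d → ℝ) (x p q : Sp d) :
    wdist N f x q ≤ wdist N f x p + segCost N f p q := by
  conv_rhs => unfold wdist
  rw [ENNReal.iInf_add]
  refine le_iInf (fun l => ?_)
  by_cases h1 : l.head? = some x
  · by_cases h2 : l.getLast? = some p
    · simp only [h1, h2, iInf_pos]
      refine (wdist_le_path N f (l := l ++ [q]) ?_ (by simp)).trans
        (pathCost_append N f q l p h2).le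
      cases l with
      | nil => simp at h1
      | cons y l => simpa using h1
    · simp [h1, h2]
  · simp [h1]

lemma wdist_triangle_left (N : Seminorm ℝ (Sp d)) (f : Sp d → ℝ) (p q z : Sp d) :
    wdist N f p z ≤ segCost N f p q + wdist N f q z := by
  conv_rhs => unfold wdist
  rw [ENNReal.add_iInf]
  refine le_iInf (fun l => ?_)
  by_cases h1 : l.head? = some q
  · by_cases h2 : l.getLast? = some z
    · simp only [h1, h2, iInf_pos]
      cases l with
      | nil => simp at h1
      | cons y l =>
        have hy : y = q := by simpa using h1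
        subst hy
        refine (wdist_le_path N f (l := p :: y :: l) (by simp) (by simpa using h2)).trans ?_
        simp [pathCost]
    · simp [h1, h2]
  · simp [h1]

/-- Crossing a level set of a continuous function. -/
lemma crossing (N : Seminorm ℝ (Sp d)) (f : Sp d → ℝ) {g : Sp d → ℝ} (hg : Continuous g) {ρ : ℝ}
    {z : Sp d} (hz : ρ < g z) :
    ∀ (l : List (Sp d)) (p : Sp d), g p ≤ ρ → l.head? = some p → l.getLast? = some z →
      ∃ w, g w = ρ ∧ wdist N f p w + wdist N f w z ≤ pathCost N f l := by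
  intro l
  induction l with
  | nil => intro p _ h; simp at h
  | cons x l ih =>
    intro p hp h1 h2
    simp only [List.head?_cons, Option.some.injEq] at h1
    subst h1
    cases l with
    | nil =>
      simp only [List.getLast?_singleton, Option.some.injEq] at h2
      subst h2
      exact absurd hz (not_lt.mpr hp)
    | cons y l =>
      have h2' : (y :: l).getLast? = some z := by simpa using h2
      by_cases hy : g y ≤ ρ
      · obtain ⟨w, hw1, hw2⟩ := ih y hy (by simp) h2'
        refine ⟨w, hw1, ?_⟩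
        calc wdist N f x w + wdist N f w z
            ≤ (segCost N f x y + wdist N f y w) + wdist N f w z :=
              add_le_add_left (wdist_triangle_left N f x y w) _
          _ = segCost N f x y + (wdist N f y w + wdist N f w z) := add_assoc _ _ _
          _ ≤ segCost N f x y + pathCost N f (y :: l) := add_le_add_right hw2 _
          _ = pathCost N f (x :: y :: l) := by simp [pathCost]
      · push Not at hy
        have hcont : ContinuousOn (fun θ : ℝ => g (x + θ • (y - x))) (Icc 0 1) := by
          apply Continuous.continuousOn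
          exact hg.comp (by fun_prop)
        have hivt := intermediate_value_Icc (zero_le_one (α := ℝ)) hcont
        have hmem : ρ ∈ Icc (g (x + (0 : ℝ) • (y - x))) (g (x + (1 : ℝ) • (y - x))) := by
          simp only [zero_smul, add_zero, one_smul, add_sub_cancel]
          exact ⟨hp, hy.le⟩
        obtain ⟨θ, hθ, hθ'⟩ := hivt hmem
        refine ⟨x + θ • (y - x), hθ', ?_⟩
        have h3 := segCost_split N f x y hθ.1 hθ.2
        calc wdist N f x (x + θ • (y - x)) + wdist N f (x + θ • (y - x)) z
            ≤ segCost N f x (x + θ • (y - x)) +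
              (segCost N f (x + θ • (y - x)) y + wdist N f y z) :=
              add_le_add (wdist_le_seg N f _ _) (wdist_triangle_left N f _ y z)
          _ = (segCost N f x (x + θ • (y - x)) + segCost N f (x + θ • (y - x)) y) +
              wdist N f y z := (add_assoc _ _ _).symm
          _ ≤ segCost N f x y + pathCost N f (y :: l) :=
              add_le_add h3 (wdist_le_path N f (by simp) h2')
          _ = pathCost N f (x :: y :: l) := by simp [pathCost]

lemma wfun_smul {α : ℝ} {f₀ : Sp d → ℝ} {r : ℝ} (hr : 0 < r) (x : Sp d) :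
    wfun α f₀ (r • x) = r ^ α * wfun α f₀ x := by
  unfold wfun
  rw [norm_smul, Real.norm_of_nonneg hr.le, Real.mul_rpow hr.le (norm_nonneg _), smul_smul,
    mul_inv, mul_comm r⁻¹, mul_assoc ‖x‖⁻¹, inv_mul_cancel₀ hr.ne', mul_one, mul_assoc]

lemma segCost_smul (N : Seminorm ℝ (Sp d)) {α : ℝ} {f₀ : Sp d → ℝ} {r : ℝ} (hr : 0 < r)
    (p q : Sp d) : segCost N (wfun α f₀) (r • p) (r • q) =
      ENNReal.ofReal (r ^ (1 - α)) * segCost N (wfun α f₀) p q := by
  unfold segCost
  have h1 : ∀ s : ℝ, (ENNReal.ofReal (wfun α f₀ (r • p + s • (r • q - r • p))))⁻¹ =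
      ENNReal.ofReal (r ^ (-α)) * (ENNReal.ofReal (wfun α f₀ (p + s • (q - p))))⁻¹ := by
    intro s
    have h2 : r • p + s • (r • q - r • p) = r • (p + s • (q - p)) := by
      rw [← smul_sub, smul_comm s r, ← smul_add]
    rw [h2, wfun_smul hr, ENNReal.ofReal_mul (by positivity), ENNReal.mul_inv
      (Or.inl (by simpa using Real.rpow_pos_of_pos hr α)) (Or.inl ENNReal.ofReal_ne_top),
      ← ENNReal.ofReal_inv_of_pos (Real.rpow_pos_of_pos hr α), Real.rpow_neg hr.le]
  simp only [h1]
  rw [lintegral_const_mul' _ _ ENNReal.ofReal_ne_top, ← smul_sub, map_smul_eq_mul,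
    Real.norm_of_nonneg hr.le, ENNReal.ofReal_mul hr.le, show (1 - α) = 1 + (-α) by ring,
    Real.rpow_add hr, Real.rpow_one, ENNReal.ofReal_mul hr.le]
  ring

lemma pathCost_smul (N : Seminorm ℝ (Sp d)) {α : ℝ} {f₀ : Sp d → ℝ} {r : ℝ} (hr : 0 < r) :
    ∀ l : List (Sp d), pathCost N (wfun α f₀) (l.map (fun x => r • x)) =
      ENNReal.ofReal (r ^ (1 - α)) * pathCost N (wfun α f₀) l := by
  intro l
  induction l with
  | nil => simp [pathCost]
  | cons x l ih =>
    cases l with
    | nil => simp [pathCost]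
    | cons y l =>
      simp only [List.map_cons, pathCost] at ih ⊢
      rw [ih, segCost_smul N hr, mul_add]

/-- Homogeneity of the distance to the origin. -/
lemma wdist_smul_le (N : Seminorm ℝ (Sp d)) {α : ℝ} {f₀ : Sp d → ℝ} {r : ℝ} (hr : 0 < r)
    (z : Sp d) : wdist N (wfun α f₀) 0 (r • z) ≤
      ENNReal.ofReal (r ^ (1 - α)) * wdist N (wfun α f₀) 0 z := by
  have hc0 : ENNReal.ofReal (r ^ (1 - α)) ≠ 0 := by
    simpa using Real.rpow_pos_of_pos hr (1 - α)
  have hct : ENNReal.ofReal (r ^ (1 - α)) ≠ ⊤ := ENNReal.ofReal_ne_top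
  conv_rhs => unfold wdist
  rw [ENNReal.mul_iInf_of_ne hc0 hct]
  refine le_iInf (fun l => ?_)
  by_cases h1 : l.head? = some 0
  · by_cases h2 : l.getLast? = some z
    · simp only [h1, h2, iInf_pos]
      rw [← pathCost_smul N hr]
      refine wdist_le_path N _ ?_ ?_
      · rw [List.head?_map, h1]; simp
      · rw [List.getLast?_map, h2]; simp
    · simp [h1, h2, ENNReal.mul_top hc0]
  · simp [h1, ENNReal.mul_top hc0]

/-- Local upper bound on the weight gives a lower bound on costs of paths ending at the centre. -/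
lemma segCost_local {N : Seminorm ℝ (Sp d)} {f : Sp d → ℝ} {z₀ : Sp d} {c F' : ℝ} (hF' : 0 < F')
    (hf : ∀ x, N (z₀ - x) < c → f x ≤ F') (p q : Sp d) :
    ENNReal.ofReal ((max 0 (c - N (z₀ - q)) - max 0 (c - N (z₀ - p))) / F') ≤
      segCost N f p q := by
  set A := max 0 (c - N (z₀ - q)) with hA
  set B := max 0 (c - N (z₀ - p)) with hB
  set L := N (q - p) with hL
  rcases le_or_gt A B with hAB | hAB
  · rw [ENNReal.ofReal_of_nonpos (div_nonpos_of_nonpos_of_nonneg (by linarith) hF'.le)]
    exact bot_le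
  have hB0 : 0 ≤ B := le_max_left _ _
  have hA0 : 0 < A := lt_of_le_of_lt hB0 hAB
  have hAeq : A = c - N (z₀ - q) := by
    rcases max_choice 0 (c - N (z₀ - q)) with h | h
    · rw [← hA] at h; linarith
    · exact h
  have hABL : A - B ≤ L := by
    have h1 : N (z₀ - p) ≤ N (z₀ - q) + N (q - p) := by
      have : z₀ - p = (z₀ - q) + (q - p) := by abel
      rw [this]; exact map_add_le_add _ _ _
    have h2 : c - N (z₀ - p) ≤ B := le_max_right _ _
    rw [hAeq, hL]; linarith
  have hLpos : 0 < L := lt_of_lt_of_le (by linarith) hABL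
  set a := max 0 (1 - A / L) with ha
  have ha0 : 0 ≤ a := le_max_left _ _
  have ha1 : a ≤ 1 := max_le zero_le_one (by have : 0 < A / L := by positivity
                                             linarith)
  have h1 : ∫⁻ s in Ioc a 1, ENNReal.ofReal (1 / F') ≤
      ∫⁻ s in Icc (0 : ℝ) 1, (ENNReal.ofReal (f (p + s • (q - p))))⁻¹ := by
    calc ∫⁻ s in Ioc a 1, ENNReal.ofReal (1 / F')
        ≤ ∫⁻ s in Ioc a 1, (ENNReal.ofReal (f (p + s • (q - p))))⁻¹ := by
          refine setLIntegral_mono' measurableSet_Ioc (fun s hs => ?_)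
          have hs1 : 1 - A / L < s := lt_of_le_of_lt (le_max_right _ _) hs.1
          have hs2 : s ≤ 1 := hs.2
          have h3 : N (z₀ - (p + s • (q - p))) ≤ N (z₀ - q) + (1 - s) * L := by
            have h4 : z₀ - (p + s • (q - p)) = (z₀ - q) + (1 - s) • (q - p) := by
              rw [sub_smul, one_smul]; abel
            rw [h4]
            refine (map_add_le_add _ _ _).trans ?_
            rw [map_smul_eq_mul, Real.norm_of_nonneg (by linarith)]
          have h5 : (1 - s) * L < A := by
            have : (1 - s) < A / L := by linarith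
            rwa [lt_div_iff₀ hLpos] at this
          have h6 := hf (p + s • (q - p)) (by linarith)
          rw [one_div, ENNReal.ofReal_inv_of_pos hF']
          exact ENNReal.inv_le_inv.mpr (ENNReal.ofReal_le_ofReal h6)
      _ ≤ _ := lintegral_mono_set (show Ioc a 1 ⊆ Icc (0 : ℝ) 1 from
          fun s hs => ⟨ha0.trans hs.1.le, hs.2⟩)
  rw [setLIntegral_const, Real.volume_Ioc, ← ENNReal.ofReal_mul (by positivity)] at h1
  unfold segCost
  calc ENNReal.ofReal ((A - B) / F')
      ≤ ENNReal.ofReal (L * (1 / F' * (1 - a))) := by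
        apply ENNReal.ofReal_le_ofReal
        have h7 : A - B ≤ L * (1 - a) := by
          rcases max_choice 0 (1 - A / L) with h | h
          · rw [← ha] at h; rw [h]; linarith
          · rw [← ha] at h; rw [h]
            have : L * (1 - (1 - A / L)) = A := by field_simp; ring
            rw [this]; linarith
        rw [div_le_iff₀ hF']
        have : L * (1 / F' * (1 - a)) * F' = L * (1 - a) := by field_simp
        rw [this]; exact h7
    _ = ENNReal.ofReal L * ENNReal.ofReal (1 / F' * (1 - a)) := ENNReal.ofReal_mul hLpos.le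
    _ ≤ _ := mul_le_mul_right h1 _

lemma pathCost_local {N : Seminorm ℝ (Sp d)} {f : Sp d → ℝ} {z₀ : Sp d} {c F' : ℝ} (hF' : 0 < F')
    (hf : ∀ x, N (z₀ - x) < c → f x ≤ F') :
    ∀ (l : List (Sp d)) (p q : Sp d), l.head? = some p → l.getLast? = some q →
    ENNReal.ofReal ((max 0 (c - N (z₀ - q)) - max 0 (c - N (z₀ - p))) / F') ≤ pathCost N f l := by
  intro l
  induction l with
  | nil => intro p q h; simp at h
  | cons x l ih =>
    intro p q hp hq
    simp only [List.head?_cons, Option.some.injEq] at hp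
    subst hp
    cases l with
    | nil =>
      simp only [List.getLast?_singleton, Option.some.injEq] at hq
      subst hq
      simp
    | cons y l =>
      have h1 := ih y q (by simp) (by simpa using hq)
      have h2 := segCost_local hF' hf x y
      calc ENNReal.ofReal ((max 0 (c - N (z₀ - q)) - max 0 (c - N (z₀ - x))) / F')
          = ENNReal.ofReal ((max 0 (c - N (z₀ - y)) - max 0 (c - N (z₀ - x))) / F' +
            (max 0 (c - N (z₀ - q)) - max 0 (c - N (z₀ - y))) / F') := by congr 1; ring
        _ ≤ _ := ENNReal.ofReal_add_le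
        _ ≤ segCost N f x y + pathCost N f (y :: l) := add_le_add h2 h1
        _ = pathCost N f (x :: y :: l) := by simp [pathCost]

lemma wdist_local {N : Seminorm ℝ (Sp d)} {f : Sp d → ℝ} {z₀ : Sp d} {c F' : ℝ} (hF' : 0 < F')
    (hf : ∀ x, N (z₀ - x) < c → f x ≤ F') (p q : Sp d) :
    ENNReal.ofReal ((max 0 (c - N (z₀ - q)) - max 0 (c - N (z₀ - p))) / F') ≤ wdist N f p q := by
  unfold wdist
  refine le_iInf (fun l => le_iInf (fun h1 => le_iInf (fun h2 => ?_)))
  exact pathCost_local hF' hf l p q h1 h2

/-- Upper bound of the cost of a segment on which the weight is at least `F`. -/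
lemma segCost_upper {N : Seminorm ℝ (Sp d)} {f : Sp d → ℝ} {F : ℝ} (hF : 0 < F) (p q : Sp d)
    (hf : ∀ s ∈ Icc (0 : ℝ) 1, F ≤ f (p + s • (q - p))) :
    segCost N f p q ≤ ENNReal.ofReal (N (q - p) / F) := by
  unfold segCost
  have h1 : ∫⁻ s in Icc (0 : ℝ) 1, (ENNReal.ofReal (f (p + s • (q - p))))⁻¹ ≤
      ∫⁻ s in Icc (0 : ℝ) 1, ENNReal.ofReal (1 / F) := by
    refine setLIntegral_mono' measurableSet_Icc (fun s hs => ?_)
    rw [one_div, ENNReal.ofReal_inv_of_pos hF]
    exact ENNReal.inv_le_inv.mpr (ENNReal.ofReal_le_ofReal (hf s hs))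
  rw [setLIntegral_const, Real.volume_Icc, sub_zero, ENNReal.ofReal_one, mul_one] at h1
  calc _ ≤ ENNReal.ofReal (N (q - p)) * ENNReal.ofReal (1 / F) := mul_le_mul_right h1 _
    _ = _ := by rw [← ENNReal.ofReal_mul (apply_nonneg _ _), mul_one_div]

/-- Continuity of the weight away from the origin. -/
lemma wfun_continuousAt {α : ℝ} {f₀ : Sp d → ℝ} {K : NNReal}
    (hlip : LipschitzOnWith K f₀ (Metric.sphere (0 : Sp d) 1)) {z : Sp d} (hz : z ≠ 0) :
    ContinuousAt (wfun α f₀) z := by
  have hz' : 0 < ‖z‖ := norm_pos_iff.mpr hz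
  unfold wfun
  refine ContinuousAt.mul ?_ ?_
  · exact (continuous_norm.continuousAt).rpow_const (Or.inl hz'.ne')
  · have h1 : ContinuousAt (fun x : Sp d => ‖x‖⁻¹ • x) z :=
      (continuous_norm.continuousAt.inv₀ hz'.ne').smul continuousAt_id
    have hmem : ∀ x : Sp d, x ≠ 0 → ‖x‖⁻¹ • x ∈ Metric.sphere (0 : Sp d) 1 := by
      intro x hx
      have hx' : 0 < ‖x‖ := norm_pos_iff.mpr hx
      rw [mem_sphere_zero_iff_norm, norm_smul, norm_inv, norm_norm]
      exact inv_mul_cancel₀ hx'.ne'
    have h2 : Tendsto (fun x : Sp d => ‖x‖⁻¹ • x) (𝓝 z)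
        (𝓝[Metric.sphere (0 : Sp d) 1] (‖z‖⁻¹ • z)) := by
      rw [tendsto_nhdsWithin_iff]
      refine ⟨h1, ?_⟩
      filter_upwards [isOpen_ne.mem_nhds hz] with x hx
      exact hmem x hx
    exact (hlip.continuousOn _ (hmem z hz)).tendsto.comp h2

end Pool.Agent.X137.WPath
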