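import Mathlib
import Pool.Agent.X137.WDefs

/-! The notion of a compact set with Lipschitz boundary used in the statement on star-shaped sets. -/

namespace Pool.Agent.X137.WSpike

open Pool.Agent.X137.WModel

/-- `K` has Lipschitz boundary: near each boundary point `x` there is a direction (unit vector) `u`
such that `K` is the region on one side of the graph, over the hyperplane orthogonal to `u`, of a
Lipschitz function. The Lipschitz function on the hyperplane is written as a Lipschitz function `φ`
on the whole space which is constant along the direction `u`; that `z` is below the graph reads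
`⟪z, u⟫ ≤ φ z`. -/
def LipschitzBoundary {d : ℕ} (K : Set (Sp d)) : Prop :=
  ∀ x ∈ frontier K, ∃ u : Sp d, ‖u‖ = 1 ∧ ∃ (C : NNReal) (φ : Sp d → ℝ), LipschitzWith C φ ∧
    (∀ (z : Sp d) (t : ℝ), φ (z + t • u) = φ z) ∧
    ∀ᶠ z in nhds x, (z ∈ K ↔ inner ℝ z u ≤ φ z)

end Pool.Agent.X137.WSpike
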