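import Mathlib
import Pool.Agent.X137.WSpikeDefs
import Pool.Agent.X137.WPath

/-! A long thin cross-polytope is not a limit shape of the weighted model. -/

namespace Pool.Agent.X137.WSpike

open MeasureTheory Set Filter Topology
open scoped ENNReal
open Pool.Agent.X137.WModel Pool.Agent.X137.WPath

variable {d : ℕ}

/-- The weighted `ℓ¹` norm. -/
noncomputable def gS (c : Fin d → ℝ) (hc : ∀ i, 0 < c i) : Seminorm ℝ (Sp d) :=
  Seminorm.of (fun z => ∑ i, c i * |z i|)
    (fun x y => by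
      rw [← Finset.sum_add_distrib]
      refine Finset.sum_le_sum (fun i _ => ?_)
      rw [← mul_add]
      exact mul_le_mul_of_nonneg_left (abs_add_le _ _) (hc i).le)
    (fun a x => by
      rw [Finset.mul_sum]
      refine Finset.sum_congr rfl (fun i _ => ?_)
      rw [PiLp.smul_apply, smul_eq_mul, abs_mul, Real.norm_eq_abs]; ring)

lemma gS_apply (c : Fin d → ℝ) (hc : ∀ i, 0 < c i) (z : Sp d) :
    gS c hc z = ∑ i, c i * |z i| := rfl

lemma coord_le (c : Fin d → ℝ) (hc : ∀ i, 0 < c i) (z : Sp d) (i : Fin d) :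
    c i * |z i| ≤ gS c hc z := by
  rw [gS_apply]
  exact Finset.single_le_sum (f := fun i => c i * |z i|)
    (fun j _ => mul_nonneg (hc j).le (abs_nonneg _)) (Finset.mem_univ i)

lemma gS_zero (c : Fin d → ℝ) (hc : ∀ i, 0 < c i) (z : Sp d) (h : gS c hc z = 0) : z = 0 := by
  ext i
  have h1 := coord_le c hc z i
  rw [h] at h1
  have h2 : |z i| ≤ 0 := by
    by_contra hcon
    push Not at hcon
    have := mul_pos (hc i) hcon
    linarith
  have h3 : z i = 0 := abs_nonpos_iff.mp h2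
  simpa using h3

/-- The closed unit ball of a norm on `ℝ ^ d`. -/
def Kset (g : Seminorm ℝ (Sp d)) : Set (Sp d) := {z | g z ≤ 1}

lemma Kset_closed (g : Seminorm ℝ (Sp d)) : IsClosed (Kset g) :=
  isClosed_le (WBall.seminorm_continuous g) continuous_const

lemma Kset_compact (hd : 1 ≤ d) (g : Seminorm ℝ (Sp d)) (hg : ∀ x, g x = 0 → x = 0) :
    IsCompact (Kset g) := by
  obtain ⟨κ, hκ, hκg⟩ := WBall.seminorm_lower hd g hg
  refine Metric.isCompact_of_isClosed_isBounded (Kset_closed g) ?_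
  rw [isBounded_iff_forall_norm_le]
  refine ⟨1 / κ, fun x hx => ?_⟩
  have h1 : κ * ‖x‖ ≤ 1 := (hκg x).trans hx
  rw [le_div_iff₀ hκ]; linarith

lemma Kset_nhds (g : Seminorm ℝ (Sp d)) : Kset g ∈ 𝓝 (0 : Sp d) := by
  have h : {z : Sp d | g z < 1} ∈ 𝓝 (0 : Sp d) :=
    (isOpen_lt (WBall.seminorm_continuous g) continuous_const).mem_nhds (by simp)
  exact mem_of_superset h (fun z (hz : g z < 1) => show g z ≤ 1 from hz.le)

lemma Kset_frontier (g : Seminorm ℝ (Sp d)) : frontier (Kset g) = {z | g z = 1} := by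
  have hcont := WBall.seminorm_continuous g
  apply Subset.antisymm
  · intro z hz
    have h := frontier_le_subset_eq hcont continuous_const hz
    exact h
  · intro z hz
    have hz1 : g z = 1 := hz
    rw [(Kset_closed g).frontier_eq]
    refine ⟨hz1.le, fun hint => ?_⟩
    rw [mem_interior_iff_mem_nhds] at hint
    have hc : Tendsto (fun t : ℝ => t • z) (𝓝[>] 1) (𝓝 z) := by
      have : Tendsto (fun t : ℝ => t • z) (𝓝 1) (𝓝 ((1 : ℝ) • z)) :=
        (continuous_id.smul continuous_const).tendsto 1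
      rw [one_smul] at this
      exact this.mono_left nhdsWithin_le_nhds
    obtain ⟨t, ht1, ht2⟩ := ((hc.eventually hint).and self_mem_nhdsWithin).exists
    have ht2' : (1 : ℝ) < t := ht2
    have ht1' : g (t • z) ≤ 1 := ht1
    rw [map_smul_eq_mul, Real.norm_of_nonneg (by linarith), hz1] at ht1'
    linarith

lemma Kset_ray (g : Seminorm ℝ (Sp d)) (hg : ∀ x, g x = 0 → x = 0) (u : Sp d) (hu : u ≠ 0) :
    ∃! t : ℝ, 0 ≤ t ∧ t • u ∈ frontier (Kset g) := by
  rw [Kset_frontier]
  have hpos : 0 < g u := lt_of_le_of_ne (apply_nonneg g u) (fun h => hu (hg u h.symm))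
  refine ⟨(g u)⁻¹, ⟨by positivity, ?_⟩, ?_⟩
  · show g ((g u)⁻¹ • u) = 1
    rw [map_smul_eq_mul, Real.norm_of_nonneg (by positivity), inv_mul_cancel₀ hpos.ne']
  · rintro t ⟨ht0, ht1⟩
    have ht1' : g (t • u) = 1 := ht1
    rw [map_smul_eq_mul, Real.norm_of_nonneg ht0] at ht1'
    exact eq_inv_of_mul_eq_one_left ht1'

lemma Kset_lipschitz (c : Fin d → ℝ) (hc : ∀ i, 0 < c i) : LipschitzBoundary (Kset (gS c hc)) := by
  classical
  intro x hx
  rw [Kset_frontier] at hx
  have hx1 : gS c hc x = 1 := hx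
  -- a nonzero coordinate
  obtain ⟨i, hi⟩ : ∃ i, x i ≠ 0 := by
    by_contra hcon
    push Not at hcon
    rw [gS_apply] at hx1
    rw [Finset.sum_eq_zero (fun i _ => by rw [hcon i]; simp)] at hx1
    exact zero_ne_one hx1
  obtain ⟨σ, hσ, hσx⟩ : ∃ σ : ℝ, |σ| = 1 ∧ 0 < σ * x i := by
    rcases lt_or_gt_of_ne hi with h | h
    · exact ⟨-1, by simp, by linarith⟩
    · exact ⟨1, by simp, by linarith⟩
  have hσσ : σ * σ = 1 := by rw [← abs_mul_abs_self σ, hσ]; norm_num
  set u : Sp d := EuclideanSpace.single i σ with hu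
  set φ : Sp d → ℝ := fun z => (1 - ∑ k ∈ Finset.univ.erase i, c k * |z k|) / c i with hφ
  refine ⟨u, by simp [hu, hσ], ?_⟩
  refine ⟨Real.toNNReal ((∑ k ∈ Finset.univ.erase i, c k) / c i), φ, ?_, ?_, ?_⟩
  · refine LipschitzWith.of_dist_le_mul (fun y z => ?_)
    have hnn : 0 ≤ (∑ k ∈ Finset.univ.erase i, c k) / c i :=
      div_nonneg (Finset.sum_nonneg (fun k _ => (hc k).le)) (hc i).le
    rw [Real.coe_toNNReal _ hnn, Real.dist_eq, hφ]
    simp only
    rw [← sub_div, abs_div, abs_of_pos (hc i), div_mul_eq_mul_div]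
    refine div_le_div_of_nonneg_right ?_ (hc i).le
    have e : (1 - ∑ k ∈ Finset.univ.erase i, c k * |y k|) -
        (1 - ∑ k ∈ Finset.univ.erase i, c k * |z k|) =
        ∑ k ∈ Finset.univ.erase i, c k * (|z k| - |y k|) := by
      simp only [mul_sub, Finset.sum_sub_distrib]; ring
    rw [e, Finset.sum_mul]
    refine (Finset.abs_sum_le_sum_abs _ _).trans (Finset.sum_le_sum (fun k _ => ?_))
    rw [abs_mul, abs_of_pos (hc k)]
    refine mul_le_mul_of_nonneg_left ?_ (hc k).le
    have h1 : |(|z k| - |y k|)| ≤ |z k - y k| := abs_abs_sub_abs_le_abs_sub _ _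
    have h2 : |z k - y k| ≤ dist y z := by
      rw [dist_comm, dist_eq_norm]
      have := PiLp.norm_apply_le (z - y) k
      simpa [Real.norm_eq_abs] using this
    exact h1.trans h2
  · intro z t
    rw [hφ]
    simp only
    congr 2
    refine Finset.sum_congr rfl (fun k hk => ?_)
    have hki : k ≠ i := Finset.ne_of_mem_erase hk
    simp [hu, hki]
  · have hopen : IsOpen {z : Sp d | 0 < σ * z i} :=
      isOpen_lt continuous_const (continuous_const.mul
        ((continuous_apply i).comp (PiLp.continuous_ofLp 2 _)))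
    filter_upwards [hopen.mem_nhds hσx] with z hz
    have hz' : 0 < σ * z i := hz
    have habs : |z i| = σ * z i := by
      rw [← abs_of_pos hz', abs_mul, hσ, one_mul]
    have hinner : inner ℝ z u = σ * z i := by
      rw [hu, EuclideanSpace.inner_single_right]
      simp
    have hsum : gS c hc z = c i * |z i| + ∑ k ∈ Finset.univ.erase i, c k * |z k| := by
      rw [gS_apply, Finset.add_sum_erase _ (fun k => c k * |z k|) (Finset.mem_univ i)]
    rw [hinner, hφ]
    show gS c hc z ≤ 1 ↔ _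
    rw [hsum, habs, le_div_iff₀ (hc i)]
    constructor <;> intro h <;> linarith

/-- Lower bound of the distance to the origin if the unit ball is `Kset g`. -/
lemma wdist_ge {N : Seminorm ℝ (Sp d)} {α : ℝ} (hα : α < 1) {f₀ : Sp d → ℝ}
    {g : Seminorm ℝ (Sp d)} (hK : Kset g = wball N (wfun α f₀)) {w : Sp d} {ρ : ℝ} (hρ : 0 < ρ)
    (hw : g w = ρ) : ENNReal.ofReal (ρ ^ (1 - α)) ≤ wdist N (wfun α f₀) 0 w := by
  by_contra hcon
  push Not at hcon
  have hβ : 0 < 1 - α := by linarith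
  have hcont : Tendsto (fun r : ℝ => ENNReal.ofReal (r ^ (1 - α))) (𝓝[<] ρ)
      (𝓝 (ENNReal.ofReal (ρ ^ (1 - α)))) := by
    refine ENNReal.tendsto_ofReal ?_
    exact ((Real.continuousAt_rpow_const ρ (1 - α) (Or.inl hρ.ne')).tendsto).mono_left
      nhdsWithin_le_nhds
  have hev1 := hcont.eventually_const_lt hcon
  have hev2 : ∀ᶠ r : ℝ in 𝓝[<] ρ, 0 < r := by
    apply nhdsWithin_le_nhds
    exact lt_mem_nhds hρ
  obtain ⟨r, ⟨hr1, hr2⟩, hr3⟩ := ((hev1.and hev2).and self_mem_nhdsWithin).exists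
  have hr3' : r < ρ := hr3
  have h1 := wdist_smul_le N (α := α) (f₀ := f₀) (inv_pos.mpr hr2) w
  have h2 : ENNReal.ofReal (r⁻¹ ^ (1 - α)) * wdist N (wfun α f₀) 0 w ≤ 1 := by
    calc ENNReal.ofReal (r⁻¹ ^ (1 - α)) * wdist N (wfun α f₀) 0 w
        ≤ ENNReal.ofReal (r⁻¹ ^ (1 - α)) * ENNReal.ofReal (r ^ (1 - α)) :=
          mul_le_mul_right hr1.le _
      _ = 1 := by
          rw [← ENNReal.ofReal_mul (by positivity), ← Real.mul_rpow (by positivity) hr2.le,
            inv_mul_cancel₀ hr2.ne', Real.one_rpow, ENNReal.ofReal_one]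
  have h3 : r⁻¹ • w ∈ Kset g := by
    rw [hK]
    exact h1.trans h2
  have h4 : g (r⁻¹ • w) ≤ 1 := h3
  rw [map_smul_eq_mul, Real.norm_of_nonneg (by positivity), hw, inv_mul_le_iff₀ hr2] at h4
  linarith

/-- The derivative of `t ↦ t ^ β` at `1`, one-sided quotients. -/
lemma quot_right {β : ℝ} : Tendsto (fun s : ℝ => ((1 + s) ^ β - 1) / s) (𝓝[>] 0) (𝓝 β) := by
  have h1 : HasDerivAt (fun s : ℝ => (1 + s) ^ β) β 0 := by
    have h2 : HasDerivAt (fun s : ℝ => 1 + s) 1 0 := by
      simpa using (hasDerivAt_id (0 : ℝ)).const_add 1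
    have h3 := h2.rpow_const (p := β) (Or.inl (by norm_num))
    simpa using h3
  have h4 := h1.tendsto_slope_zero_right
  refine h4.congr (fun s => ?_)
  simp [smul_eq_mul, div_eq_inv_mul]

lemma quot_left {β : ℝ} : Tendsto (fun s : ℝ => (1 - (1 - s) ^ β) / s) (𝓝[>] 0) (𝓝 β) := by
  have h1 : HasDerivAt (fun s : ℝ => (1 - s) ^ β) (-β) 0 := by
    have h2 : HasDerivAt (fun s : ℝ => 1 - s) (-1) 0 := by
      simpa using (hasDerivAt_id (0 : ℝ)).const_sub 1
    have h3 := h2.rpow_const (p := β) (Or.inl (by norm_num))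
    simpa using h3
  have h4 := (h1.tendsto_slope_zero_right).neg
  rw [neg_neg] at h4
  refine h4.congr (fun s => ?_)
  simp only [zero_add, sub_zero, Real.one_rpow, smul_eq_mul]
  rw [div_eq_inv_mul]; ring

/-- Step (ii): moving sideways from the tip. -/
lemma step_side {N : Seminorm ℝ (Sp d)} {α : ℝ} (hα : α < 1) {f₀ : Sp d → ℝ} {C : NNReal}
    (hlip : LipschitzOnWith C f₀ (Metric.sphere (0 : Sp d) 1))
    (hpos : ∀ u ∈ Metric.sphere (0 : Sp d) 1, 0 < f₀ u)
    {g : Seminorm ℝ (Sp d)} (hK : Kset g = wball N (wfun α f₀)) {z₀ e : Sp d} (hz₀ : z₀ ≠ 0)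
    (hgz : g z₀ = 1) (hge : ∀ s : ℝ, 0 ≤ s → g (z₀ + s • e) = 1 + s) :
    (1 - α) * wfun α f₀ z₀ ≤ N e := by
  set f := wfun α f₀ with hf
  set β := 1 - α with hβ
  have hβ0 : 0 < β := by linarith
  have hcont : ContinuousAt f z₀ := wfun_continuousAt hlip hz₀
  have hF : 0 < f z₀ := wfun_pos hpos hz₀
  -- it suffices to bound by every `F < f z₀`
  have key : ∀ F : ℝ, 0 < F → F < f z₀ → β * F ≤ N e := by
    intro F hF0 hF1
    have hnear : ∀ᶠ x in 𝓝 z₀, F < f x := hcont.eventually_const_lt hF1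
    obtain ⟨r, hr0, hr⟩ := Metric.eventually_nhds_iff_ball.mp hnear
    -- for small s the segment is in the ball
    have hsmall : ∀ᶠ s : ℝ in 𝓝[>] 0, s * ‖e‖ < r := by
      have : Tendsto (fun s : ℝ => s * ‖e‖) (𝓝 0) (𝓝 (0 * ‖e‖)) :=
        (continuous_id.mul continuous_const).tendsto 0
      rw [zero_mul] at this
      exact (this.mono_left nhdsWithin_le_nhds).eventually_lt_const hr0
    have hineq : ∀ᶠ s : ℝ in 𝓝[>] 0, ((1 + s) ^ β - 1) / s ≤ N e / F := by
      filter_upwards [hsmall, self_mem_nhdsWithin] with s hs1 hs2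
      have hs0 : 0 < s := hs2
      have h1 : segCost N f z₀ (z₀ + s • e) ≤ ENNReal.ofReal (N ((z₀ + s • e) - z₀) / F) := by
        refine segCost_upper hF0 _ _ (fun t ht => ?_)
        refine (hr _ ?_).le
        rw [Metric.mem_ball, dist_eq_norm, add_sub_cancel_left, add_sub_cancel_left, norm_smul,
          norm_smul, Real.norm_of_nonneg ht.1, Real.norm_of_nonneg hs0.le]
        calc t * (s * ‖e‖) ≤ 1 * (s * ‖e‖) :=
              mul_le_mul_of_nonneg_right ht.2 (by positivity)
          _ < r := by rwa [one_mul]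
      rw [add_sub_cancel_left, map_smul_eq_mul, Real.norm_of_nonneg hs0.le] at h1
      have h2 : wdist N f 0 z₀ ≤ 1 := by
        have : z₀ ∈ Kset g := hgz.le
        rw [hK] at this
        exact this
      have h3 := wdist_ge hα hK (w := z₀ + s • e) (ρ := 1 + s) (by linarith) (hge s hs0.le)
      have h4 : ENNReal.ofReal ((1 + s) ^ β) ≤ ENNReal.ofReal (1 + s * N e / F) := by
        calc ENNReal.ofReal ((1 + s) ^ β) ≤ wdist N f 0 (z₀ + s • e) := h3
          _ ≤ wdist N f 0 z₀ + segCost N f z₀ (z₀ + s • e) := wdist_triangle_right N f _ _ _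
          _ ≤ 1 + ENNReal.ofReal (s * N e / F) := add_le_add h2 h1
          _ = ENNReal.ofReal (1 + s * N e / F) := by
              rw [ENNReal.ofReal_add zero_le_one
                (div_nonneg (mul_nonneg hs0.le (apply_nonneg _ _)) hF0.le), ENNReal.ofReal_one]
      have h5 : (1 + s) ^ β ≤ 1 + s * N e / F := by
        rwa [ENNReal.ofReal_le_ofReal_iff (add_nonneg zero_le_one
          (div_nonneg (mul_nonneg hs0.le (apply_nonneg _ _)) hF0.le))] at h4
      rw [div_le_iff₀ hs0]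
      have h6 : N e / F * s = s * N e / F := by ring
      rw [h6]; linarith
    have h7 : β ≤ N e / F := le_of_tendsto quot_right hineq
    rwa [le_div_iff₀ hF0] at h7
  -- let F tend to f z₀
  have hlim : Tendsto (fun F : ℝ => β * F) (𝓝[<] (f z₀)) (𝓝 (β * f z₀)) :=
    ((continuous_const.mul continuous_id).tendsto _).mono_left nhdsWithin_le_nhds
  refine le_of_tendsto hlim ?_
  have hev : ∀ᶠ F : ℝ in 𝓝[<] (f z₀), 0 < F := by
    apply nhdsWithin_le_nhds
    exact lt_mem_nhds hF
  filter_upwards [hev, self_mem_nhdsWithin] with F hF1 hF2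
  exact key F hF1 hF2

/-- Step (i): arriving at the tip. -/
lemma step_tip {N : Seminorm ℝ (Sp d)} {α : ℝ} (hα : α < 1) {f₀ : Sp d → ℝ} {C : NNReal}
    (hlip : LipschitzOnWith C f₀ (Metric.sphere (0 : Sp d) 1))
    (hpos : ∀ u ∈ Metric.sphere (0 : Sp d) 1, 0 < f₀ u)
    {g : Seminorm ℝ (Sp d)} (hK : Kset g = wball N (wfun α f₀)) {z₀ : Sp d} (hz₀ : z₀ ≠ 0)
    (hgz : g z₀ = 1) {A : ℝ}
    (hA : ∀ (ρ : ℝ) (w : Sp d), 0 < ρ → ρ < 1 → g w = ρ → A * (1 - ρ) ≤ N (z₀ - w))
    (hNc : ∀ r : ℝ, 0 < r → ∃ c : ℝ, 0 < c ∧ ∀ x : Sp d, N (z₀ - x) < c → ‖z₀ - x‖ < r) :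
    A ≤ (1 - α) * wfun α f₀ z₀ := by
  set f := wfun α f₀ with hf
  set β := 1 - α with hβ
  have hβ0 : 0 < β := by linarith
  have hcont : ContinuousAt f z₀ := wfun_continuousAt hlip hz₀
  have hF : 0 < f z₀ := wfun_pos hpos hz₀
  have key : ∀ F : ℝ, f z₀ < F → A ≤ β * F := by
    intro F hF1
    have hF0 : 0 < F := hF.trans hF1
    have hnear : ∀ᶠ x in 𝓝 z₀, f x < F := hcont.eventually_lt_const hF1
    obtain ⟨r, hr0, hr⟩ := Metric.eventually_nhds_iff_ball.mp hnear
    obtain ⟨c, hc0, hc⟩ := hNc r hr0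
    have hloc : ∀ x, N (z₀ - x) < c → f x ≤ F := by
      intro x hx
      refine (hr x ?_).le
      rw [Metric.mem_ball, dist_comm, dist_eq_norm]
      exact hc x hx
    have hsmall : ∀ᶠ s : ℝ in 𝓝[>] 0, A * s < c := by
      have : Tendsto (fun s : ℝ => A * s) (𝓝 0) (𝓝 (A * 0)) :=
        (continuous_const.mul continuous_id).tendsto 0
      rw [mul_zero] at this
      exact (this.mono_left nhdsWithin_le_nhds).eventually_lt_const hc0
    have hs1 : ∀ᶠ s : ℝ in 𝓝[>] 0, s < 1 := by
      apply nhdsWithin_le_nhds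
      exact gt_mem_nhds one_pos
    have hineq : ∀ᶠ s : ℝ in 𝓝[>] 0, A / F ≤ (1 - (1 - s) ^ β) / s := by
      filter_upwards [hsmall, hs1, self_mem_nhdsWithin] with s hs1 hs2 hs3
      have hs0 : 0 < s := hs3
      have hρ0 : 0 < 1 - s := by linarith
      have h2 : wdist N f 0 z₀ ≤ 1 := by
        have : z₀ ∈ Kset g := hgz.le
        rw [hK] at this
        exact this
      -- the main inequality
      have h3 : (1 - s) ^ β + A * s / F ≤ 1 := by
        by_contra hcon
        push Not at hcon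
        have h4 : wdist N f 0 z₀ < ENNReal.ofReal ((1 - s) ^ β + A * s / F) := by
          refine lt_of_le_of_lt h2 ?_
          rw [← ENNReal.ofReal_one]
          exact (ENNReal.ofReal_lt_ofReal_iff (by linarith)).mpr hcon
        unfold wdist at h4
        simp only [iInf_lt_iff] at h4
        obtain ⟨l, hl1, hl2, hl3⟩ := h4
        obtain ⟨w, hw1, hw2⟩ := crossing N f (WBall.seminorm_continuous g)
          (ρ := 1 - s) (z := z₀) (by rw [hgz]; linarith) l 0 (by rw [map_zero]; linarith) hl1 hl2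
        have h5 := wdist_ge hα hK hρ0 hw1
        have h6 := wdist_local hF0 hloc w z₀
        have h7 : A * s ≤ N (z₀ - w) := by
          have := hA (1 - s) w hρ0 (by linarith) hw1
          rwa [sub_sub_cancel] at this
        have h8 : A * s / F ≤ (max 0 (c - N (z₀ - z₀)) - max 0 (c - N (z₀ - w))) / F := by
          refine div_le_div_of_nonneg_right ?_ hF0.le
          rw [sub_self, map_zero, sub_zero, max_eq_right hc0.le]
          rcases max_choice 0 (c - N (z₀ - w)) with h | h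
          · rw [h]; linarith
          · rw [h]; linarith
        have h9 : ENNReal.ofReal ((1 - s) ^ β + A * s / F) ≤ pathCost N f l := by
          calc ENNReal.ofReal ((1 - s) ^ β + A * s / F)
              ≤ ENNReal.ofReal ((1 - s) ^ β) + ENNReal.ofReal (A * s / F) :=
                ENNReal.ofReal_add_le
            _ ≤ wdist N f 0 w + wdist N f w z₀ :=
                add_le_add h5 ((ENNReal.ofReal_le_ofReal h8).trans h6)
            _ ≤ pathCost N f l := hw2
        exact absurd hl3 (not_lt.mpr h9)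
      rw [le_div_iff₀ hs0]
      have h10 : A / F * s = A * s / F := by ring
      rw [h10]; linarith
    have h7 : A / F ≤ β := ge_of_tendsto quot_left hineq
    rwa [div_le_iff₀ hF0] at h7
  have hlim : Tendsto (fun F : ℝ => β * F) (𝓝[>] (f z₀)) (𝓝 (β * f z₀)) :=
    ((continuous_const.mul continuous_id).tendsto _).mono_left nhdsWithin_le_nhds
  refine ge_of_tendsto hlim ?_
  filter_upwards [self_mem_nhdsWithin] with F hF2
  exact key F hF2

end Pool.Agent.X137.WSpike
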