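import Mathlib

/-! Divisibility of the sum of identical dice: helper lemmas. -/

namespace Pool.Agent.X137.Dice

open Finset
open scoped Pointwise

/-- The number of outcomes of `n` tosses of the die with faces `F` and labels `f` whose label sum is
divisible by `n`. -/
noncomputable def cnt (n : ℕ) {F : Type} (f : F → ℤ) : ℕ :=
  Nat.card {x : Fin n → F // (n : ℤ) ∣ ∑ i, f (x i)}

/-- Subset sums of `k` nonzero residues modulo a prime `p`. -/
lemma subset_sums (p : ℕ) [hp : Fact p.Prime] : ∀ (k : ℕ) (d : Fin k → ZMod p), (∀ i, d i ≠ 0) →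
    min p (k + 1) ≤
      (univ.image (fun e : Fin k → Bool => ∑ i, if e i then d i else 0)).card := by
  intro k
  induction k with
  | zero =>
    intro d _
    have : 0 < (univ.image (fun e : Fin 0 → Bool => ∑ i, if e i then d i else 0)).card := by
      rw [card_pos]; exact (univ_nonempty).image _
    omega
  | succ k ih =>
    intro d hd
    set S : Finset (ZMod p) :=
      univ.image (fun e : Fin k → Bool => ∑ i, if e i then d i.succ else 0) with hS
    set T : Finset (ZMod p) := {0, d 0} with hT
    have hTc : T.card = 2 := by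
      rw [hT, card_pair]; exact (hd 0).symm
    have hSne : S.Nonempty := (univ_nonempty).image _
    have hTne : T.Nonempty := by rw [← card_pos]; omega
    have h1 := ZMod.cauchy_davenport hp.out hSne hTne
    have h2 : min p (k + 1) ≤ S.card := ih (fun i => d i.succ) (fun i => hd _)
    have h3 : S + T ⊆ univ.image (fun e : Fin (k+1) → Bool => ∑ i, if e i then d i else 0) := by
      intro z hz
      rw [Finset.mem_add] at hz
      obtain ⟨s, hs, t, ht, rfl⟩ := hz
      rw [hS, mem_image] at hs
      obtain ⟨e, _, rfl⟩ := hs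
      rw [hT, mem_insert, mem_singleton] at ht
      rw [mem_image]
      rcases ht with rfl | rfl
      · refine ⟨Fin.cons false e, mem_univ _, ?_⟩
        rw [Fin.sum_univ_succ]; simp
      · refine ⟨Fin.cons true e, mem_univ _, ?_⟩
        rw [Fin.sum_univ_succ]; simp [add_comm]
    have h4 := card_le_card h3
    omega

/-- For a prime `p` and `p` nonzero residues, every residue is a subset sum in at least two ways. -/
lemma two_ways (p : ℕ) [hp : Fact p.Prime] (d : Fin p → ZMod p) (hd : ∀ i, d i ≠ 0) (c : ZMod p) :
    2 ≤ (univ.filter (fun e : Fin p → Bool => (∑ i, if e i then d i else 0) = c)).card := by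
  obtain ⟨m, rfl⟩ : ∃ m, p = m + 1 := ⟨p - 1, by have := hp.out.pos; omega⟩
  have h1 := subset_sums (m+1) m (fun i => d i.succ) (fun i => hd _)
  rw [min_self] at h1
  have h2 : (univ.image (fun e : Fin m → Bool => ∑ i, if e i then d i.succ else 0)) = univ := by
    apply eq_univ_of_card
    have h3 := card_le_univ (univ.image (fun e : Fin m → Bool => ∑ i, if e i then d i.succ else 0))
    have h4 : Fintype.card (ZMod (m+1)) = m + 1 := ZMod.card _
    omega
  have h3 : ∀ b : Bool, ∃ e : Fin m → Bool,
      (∑ i, if e i then d i.succ else 0) = c - (if b then d 0 else 0) := by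
    intro b
    have : c - (if b then d 0 else 0) ∈
        (univ.image (fun e : Fin m → Bool => ∑ i, if e i then d i.succ else 0)) := by
      rw [h2]; exact mem_univ _
    rw [mem_image] at this
    obtain ⟨e, _, he⟩ := this
    exact ⟨e, he⟩
  choose g hg using h3
  have h4 : ({Fin.cons true (g true), Fin.cons false (g false)} : Finset (Fin (m+1) → Bool)) ⊆
      (univ.filter (fun e : Fin (m+1) → Bool => (∑ i, if e i then d i else 0) = c)) := by
    intro e he
    rw [mem_insert, mem_singleton] at he
    rw [mem_filter]
    refine ⟨mem_univ _, ?_⟩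
    rcases he with rfl | rfl
    · rw [Fin.sum_univ_succ]
      simp only [Fin.cons_zero, Fin.cons_succ]
      rw [hg true]; simp
    · rw [Fin.sum_univ_succ]
      simp only [Fin.cons_zero, Fin.cons_succ]
      rw [hg false]; simp
  refine le_trans (le_of_eq ?_) (card_le_card h4)
  rw [card_pair]
  intro h
  have := congrFun h 0
  simp at this

/-- Double counting: it suffices to have a permutation `σ` of the faces such that for every outcome
`x` at least two of the `2 ^ n` modifications of `x` by powers of `σ` are good. -/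
lemma double_count {F : Type} [Fintype F] (n : ℕ) (f : F → ℤ) (σ : Equiv.Perm F)
    (h : ∀ x : Fin n → F, 2 ≤ Nat.card {e : Fin n → Bool //
      (n : ℤ) ∣ ∑ i, f (if e i then σ (x i) else x i)}) :
    2 * (Fintype.card F) ^ n ≤ 2 ^ n * cnt n f := by
  classical
  -- the set of pairs
  have h1 : Nat.card {q : (Fin n → F) × (Fin n → Bool) //
      (n : ℤ) ∣ ∑ i, f (if q.2 i then σ (q.1 i) else q.1 i)} = 2 ^ n * cnt n f := by
    have e1 : {q : (Fin n → F) × (Fin n → Bool) //
      (n : ℤ) ∣ ∑ i, f (if q.2 i then σ (q.1 i) else q.1 i)} ≃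
        (Fin n → Bool) × {x : Fin n → F // (n : ℤ) ∣ ∑ i, f (x i)} :=
      { toFun := fun q => (q.1.2, ⟨fun i => if q.1.2 i then σ (q.1.1 i) else q.1.1 i, q.2⟩)
        invFun := fun r => ⟨(fun i => if r.1 i then σ.symm (r.2.1 i) else r.2.1 i, r.1), by
          have : (fun i => f (if r.1 i then σ (if r.1 i then σ.symm (r.2.1 i) else r.2.1 i)
              else (if r.1 i then σ.symm (r.2.1 i) else r.2.1 i))) = fun i => f (r.2.1 i) := by
            funext i
            by_cases hi : r.1 i <;> simp [hi]
          show (n : ℤ) ∣ ∑ i, f (if r.1 i then σ (if r.1 i then σ.symm (r.2.1 i) else r.2.1 i)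
              else (if r.1 i then σ.symm (r.2.1 i) else r.2.1 i))
          rw [this]
          exact r.2.2⟩
        left_inv := by
          rintro ⟨⟨x, e⟩, hx⟩
          apply Subtype.ext
          apply Prod.ext
          · funext i
            by_cases hi : e i <;> simp [hi]
          · rfl
        right_inv := by
          rintro ⟨e, ⟨x, hx⟩⟩
          apply Prod.ext
          · rfl
          · apply Subtype.ext
            funext i
            by_cases hi : e i <;> simp [hi] }
    rw [Nat.card_congr e1, Nat.card_prod]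
    simp [cnt]
  have h2 : Nat.card {q : (Fin n → F) × (Fin n → Bool) //
      (n : ℤ) ∣ ∑ i, f (if q.2 i then σ (q.1 i) else q.1 i)} =
      ∑ x : Fin n → F, Nat.card {e : Fin n → Bool //
      (n : ℤ) ∣ ∑ i, f (if e i then σ (x i) else x i)} := by
    have e2 : {q : (Fin n → F) × (Fin n → Bool) //
      (n : ℤ) ∣ ∑ i, f (if q.2 i then σ (q.1 i) else q.1 i)} ≃
        (Σ x : Fin n → F, {e : Fin n → Bool // (n : ℤ) ∣ ∑ i, f (if e i then σ (x i) else x i)}) :=
      { toFun := fun q => ⟨q.1.1, ⟨q.1.2, q.2⟩⟩
        invFun := fun r => ⟨(r.1, r.2.1), r.2.2⟩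
        left_inv := fun q => rfl
        right_inv := fun r => rfl }
    rw [Nat.card_congr e2, Nat.card_sigma]
  rw [← h1, h2]
  calc 2 * (Fintype.card F) ^ n = ∑ _x : Fin n → F, 2 := by
        simp [mul_comm]
    _ ≤ _ := Finset.sum_le_sum (fun x _ => h x)

/-- Reformulation of divisibility through residues. -/
lemma dvd_iff (p : ℕ) (f : ℤ) : ((p : ℤ) ∣ f) ↔ ((f : ZMod p) = 0) :=
  (ZMod.intCast_zmod_eq_zero_iff_dvd f p).symm

lemma two_le_natCard_of_filter {α : Type} [Fintype α] [DecidableEq α] (P Q : α → Prop)
    [DecidablePred P] (hPQ : ∀ a, P a → Q a) (h : 2 ≤ (univ.filter P).card) :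
    2 ≤ Nat.card {a // Q a} := by
  classical
  have h1 : (univ.filter P).card ≤ (univ.filter Q).card :=
    card_le_card (fun a ha => by
      rw [mem_filter] at ha ⊢
      exact ⟨ha.1, hPQ a ha.2⟩)
  rw [Nat.card_eq_fintype_card, Fintype.card_subtype]
  convert le_trans h h1

/-- Case A: `σ` changes every residue. -/
lemma two_of_moves (p : ℕ) [hp : Fact p.Prime] {F : Type} (f : F → ℤ) (σ : Equiv.Perm F)
    (x : Fin p → F) (hx : ∀ i, ((f (σ (x i)) : ℤ) : ZMod p) ≠ (f (x i) : ℤ)) :
    2 ≤ Nat.card {e : Fin p → Bool //
      (p : ℤ) ∣ ∑ i, f (if e i then σ (x i) else x i)} := by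
  classical
  set d : Fin p → ZMod p := fun i => ((f (σ (x i)) : ℤ) : ZMod p) - (f (x i) : ℤ) with hd
  have h1 := two_ways p d (fun i => sub_ne_zero.mpr (hx i)) (- ∑ i, ((f (x i) : ℤ) : ZMod p))
  refine two_le_natCard_of_filter _ _ ?_ h1
  intro e he
  rw [dvd_iff]
  push_cast
  have : ∀ i, ((f (if e i then σ (x i) else x i) : ℤ) : ZMod p) =
      (if e i then d i else 0) + ((f (x i) : ℤ) : ZMod p) := by
    intro i
    by_cases hi : e i <;> simp [hi, hd]
  rw [Finset.sum_congr rfl (fun i _ => this i), Finset.sum_add_distrib, he]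
  simp

/-- Case B: some coordinate keeps its residue `r`, and every pair `{x, σ x}` contains an element of
residue `r`. -/
lemma two_of_fixed (p : ℕ) [hp : Fact p.Prime] {F : Type} (f : F → ℤ) (σ : Equiv.Perm F)
    (r : ZMod p) (x : Fin p → F) (hr : ∀ y, ((f y : ℤ) : ZMod p) = r ∨ ((f (σ y) : ℤ) : ZMod p) = r)
    (j : Fin p) (hj : ((f (σ (x j)) : ℤ) : ZMod p) = (f (x j) : ℤ)) :
    2 ≤ Nat.card {e : Fin p → Bool //
      (p : ℤ) ∣ ∑ i, f (if e i then σ (x i) else x i)} := by
  classical
  set g : Fin p → Bool := fun i => if ((f (x i) : ℤ) : ZMod p) = r then false else true with hg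
  have hjr : ((f (x j) : ℤ) : ZMod p) = r := by
    rcases hr (x j) with h | h
    · exact h
    · rw [← hj]; exact h
  have key : ∀ b : Bool, (p : ℤ) ∣ ∑ i, f (if (Function.update g j b) i then σ (x i) else x i) := by
    intro b
    rw [dvd_iff]
    push_cast
    have : ∀ i, ((f (if (Function.update g j b) i then σ (x i) else x i) : ℤ) : ZMod p) = r := by
      intro i
      by_cases hi : i = j
      · subst hi
        rw [Function.update_self]
        cases b
        · simpa using hjr
        · simp only [if_true]; rw [hj]; exact hjr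
      · rw [Function.update_of_ne hi]
        by_cases h : ((f (x i) : ℤ) : ZMod p) = r
        · have hgi : g i = false := by simp [hg, h]
          rw [hgi]; simpa using h
        · have hgi : g i = true := by simp [hg, h]
          rw [hgi]
          simp only [if_true]
          exact (hr (x i)).resolve_left h
    rw [Finset.sum_congr rfl (fun i _ => this i)]
    simp
  have hinj : Function.Injective (fun b : Bool =>
      (⟨Function.update g j b, key b⟩ : {e : Fin p → Bool //
      (p : ℤ) ∣ ∑ i, f (if e i then σ (x i) else x i)})) := by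
    intro b b' h
    have := congrArg (fun q => q.1 j) h
    simpa using this
  have := Nat.card_le_card_of_injective _ hinj
  simpa using this

/-- Existence of a suitable permutation of the faces. -/
lemma exists_perm (p : ℕ) [hp : Fact p.Prime] {F : Type} [Fintype F] (f : F → ℤ) :
    ∃ σ : Equiv.Perm F,
      (∀ y, ((f (σ y) : ℤ) : ZMod p) ≠ (f y : ℤ)) ∨
      (∃ r : ZMod p, ∀ y, ((f y : ℤ) : ZMod p) = r ∨ ((f (σ y) : ℤ) : ZMod p) = r) := by
  classical
  set c : F → ZMod p := fun y => ((f y : ℤ) : ZMod p) with hc
  by_cases hmax : ∀ r : ZMod p, 2 * (univ.filter (fun y => c y = r)).card ≤ Fintype.card F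
  · -- Hall's theorem
    have hall : ∀ s : Finset F, s.card ≤ (s.biUnion (fun y => univ.filter (fun z => c z ≠ c y))).card := by
      intro s
      rcases s.eq_empty_or_nonempty with rfl | ⟨y, hy⟩
      · simp
      · by_cases hs : ∀ z ∈ s, c z = c y
        · have h1 : s.card ≤ (univ.filter (fun z => c z = c y)).card :=
            card_le_card (fun z hz => by rw [mem_filter]; exact ⟨mem_univ _, hs z hz⟩)
          have h2 : (univ.filter (fun z => c z ≠ c y)).card ≤
              (s.biUnion (fun y => univ.filter (fun z => c z ≠ c y))).card :=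
            card_le_card (fun z hz => mem_biUnion.mpr ⟨y, hy, hz⟩)
          have h3 := hmax (c y)
          have h4 : (univ.filter (fun z => c z = c y)).card +
              (univ.filter (fun z => ¬ c z = c y)).card = Fintype.card F := by
            rw [card_filter_add_card_filter_not]; rfl
          simp only [ne_eq] at h2 ⊢
          omega
        · push Not at hs
          obtain ⟨z, hz, hzy⟩ := hs
          have : (s.biUnion (fun y => univ.filter (fun z => c z ≠ c y))) = univ := by
            rw [eq_univ_iff_forall]
            intro w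
            rw [mem_biUnion]
            by_cases hw : c w = c y
            · exact ⟨z, hz, by rw [mem_filter]; exact ⟨mem_univ _, by rw [hw]; exact hzy.symm⟩⟩
            · exact ⟨y, hy, by rw [mem_filter]; exact ⟨mem_univ _, hw⟩⟩
          rw [this]; exact card_le_univ s
    obtain ⟨g, hg, hg'⟩ := (Finset.all_card_le_biUnion_card_iff_exists_injective _).mp hall
    have hb : Function.Bijective g := Finite.injective_iff_bijective.mp hg
    refine ⟨Equiv.ofBijective g hb, Or.inl ?_⟩
    intro y
    have := hg' y
    rw [mem_filter] at this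
    exact this.2
  · push Not at hmax
    obtain ⟨r, hr⟩ := hmax
    have hall : ∀ s : Finset F, s.card ≤ (s.biUnion (fun y => if c y = r then univ else
        univ.filter (fun z => c z = r))).card := by
      intro s
      rcases s.eq_empty_or_nonempty with rfl | ⟨y, hy⟩
      · simp
      · by_cases hs : ∀ z ∈ s, c z ≠ r
        · have h1 : s.card ≤ (univ.filter (fun z => ¬ c z = r)).card :=
            card_le_card (fun z hz => by rw [mem_filter]; exact ⟨mem_univ _, hs z hz⟩)
          have h2 : (univ.filter (fun z => c z = r)).card ≤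
              (s.biUnion (fun y => if c y = r then univ else
                univ.filter (fun z => c z = r))).card := by
            apply card_le_card
            intro z hz
            rw [mem_biUnion]
            refine ⟨y, hy, ?_⟩
            rw [if_neg (hs y hy)]
            exact hz
          have h4 : (univ.filter (fun z => c z = r)).card +
              (univ.filter (fun z => ¬ c z = r)).card = Fintype.card F := by
            rw [card_filter_add_card_filter_not]; rfl
          omega
        · push Not at hs
          obtain ⟨z, hz, hzr⟩ := hs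
          have : (s.biUnion (fun y => if c y = r then univ else
                univ.filter (fun z => c z = r))) = univ := by
            rw [eq_univ_iff_forall]
            intro w
            rw [mem_biUnion]
            exact ⟨z, hz, by rw [if_pos hzr]; exact mem_univ _⟩
          rw [this]; exact card_le_univ s
    obtain ⟨g, hg, hg'⟩ := (Finset.all_card_le_biUnion_card_iff_exists_injective _).mp hall
    have hb : Function.Bijective g := Finite.injective_iff_bijective.mp hg
    refine ⟨Equiv.ofBijective g hb, Or.inr ⟨r, ?_⟩⟩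
    intro y
    by_cases hy : c y = r
    · exact Or.inl hy
    · right
      have := hg' y
      rw [if_neg hy, mem_filter] at this
      exact this.2

/-- The prime case. -/
lemma prime_case (p : ℕ) (hp : p.Prime) {F : Type} [Fintype F] (f : F → ℤ) :
    (Fintype.card F) ^ p ≤ 2 ^ (p - 1) * cnt p f := by
  have : Fact p.Prime := ⟨hp⟩
  obtain ⟨σ, hσ⟩ := exists_perm p f
  have h := double_count p f σ (by
    intro x
    rcases hσ with hA | ⟨r, hr⟩
    · exact two_of_moves p f σ x (fun i => hA (x i))
    · by_cases hx : ∀ i, ((f (σ (x i)) : ℤ) : ZMod p) ≠ (f (x i) : ℤ)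
      · exact two_of_moves p f σ x hx
      · push Not at hx
        obtain ⟨j, hj⟩ := hx
        exact two_of_fixed p f σ r x hr j hj)
  obtain ⟨m, rfl⟩ : ∃ m, p = m + 1 := ⟨p - 1, by have := hp.pos; omega⟩
  simp only [Nat.add_sub_cancel]
  rw [show (2:ℕ) ^ (m+1) = 2 * 2 ^ m from by ring, mul_assoc] at h
  exact Nat.le_of_mul_le_mul_left h (by norm_num)

/-- The composite step: group `a * b` tosses in `b` blocks of `a` tosses. -/
lemma mul_step (a b : ℕ) (ha : 1 ≤ a) (hb : 1 ≤ b)
    (iha : ∀ (F : Type) [Fintype F] (f : F → ℤ), (Fintype.card F) ^ a ≤ 2 ^ (a - 1) * cnt a f)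
    (ihb : ∀ (F : Type) [Fintype F] (f : F → ℤ), (Fintype.card F) ^ b ≤ 2 ^ (b - 1) * cnt b f)
    (F : Type) [Fintype F] (f : F → ℤ) :
    (Fintype.card F) ^ (a * b) ≤ 2 ^ (a * b - 1) * cnt (a * b) f := by
  classical
  -- the block die
  let G : Type := {y : Fin a → F // (a : ℤ) ∣ ∑ i, f (y i)}
  let g : G → ℤ := fun y => (∑ i, f (y.1 i)) / a
  have hg : ∀ y : G, (a : ℤ) * g y = ∑ i, f (y.1 i) := fun y => Int.mul_ediv_cancel' y.2
  have h1 := iha F f
  have h2 := ihb G g
  have hGc : Fintype.card G = cnt a f := by
    rw [cnt, Nat.card_eq_fintype_card]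
  have h3 : cnt b g ≤ cnt (a * b) f := by
    have key : ∀ z : {z : Fin b → G // (b : ℤ) ∣ ∑ j, g (z j)},
        ((a * b : ℕ) : ℤ) ∣ ∑ i : Fin (a * b), f ((z.1 (finProdFinEquiv.symm i).2).1
          (finProdFinEquiv.symm i).1) := by
      intro z
      rw [Equiv.sum_comp finProdFinEquiv.symm
        (fun q : Fin a × Fin b => f ((z.1 q.2).1 q.1))]
      rw [Fintype.sum_prod_type_right]
      simp only
      have : ∀ j : Fin b, ∑ i : Fin a, f ((z.1 j).1 i) = a * g (z.1 j) := fun j => (hg _).symm
      rw [Finset.sum_congr rfl (fun j _ => this j), ← Finset.mul_sum]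
      push_cast
      exact mul_dvd_mul_left _ z.2
    have hinj : Function.Injective (fun z : {z : Fin b → G // (b : ℤ) ∣ ∑ j, g (z j)} =>
        (⟨fun i => (z.1 (finProdFinEquiv.symm i).2).1 (finProdFinEquiv.symm i).1, key z⟩ :
          {x : Fin (a * b) → F // ((a * b : ℕ) : ℤ) ∣ ∑ i, f (x i)})) := by
      intro z z' h
      apply Subtype.ext
      funext j
      apply Subtype.ext
      funext i
      have h5 := congrArg (fun q => q.1 (finProdFinEquiv (i, j))) h
      simpa using h5
    exact Nat.card_le_card_of_injective _ hinj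
  calc (Fintype.card F) ^ (a * b) = ((Fintype.card F) ^ a) ^ b := pow_mul _ _ _
    _ ≤ (2 ^ (a - 1) * cnt a f) ^ b := Nat.pow_le_pow_left h1 b
    _ = 2 ^ ((a - 1) * b) * (Fintype.card G) ^ b := by rw [hGc, mul_pow, ← pow_mul]
    _ ≤ 2 ^ ((a - 1) * b) * (2 ^ (b - 1) * cnt b g) := Nat.mul_le_mul_left _ h2
    _ ≤ 2 ^ ((a - 1) * b) * (2 ^ (b - 1) * cnt (a * b) f) :=
        Nat.mul_le_mul_left _ (Nat.mul_le_mul_left _ h3)
    _ = 2 ^ (a * b - 1) * cnt (a * b) f := by
        rw [← mul_assoc, ← pow_add]
        congr 2
        obtain ⟨a', rfl⟩ : ∃ a', a = a' + 1 := ⟨a - 1, by omega⟩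
        obtain ⟨b', rfl⟩ : ∃ b', b = b' + 1 := ⟨b - 1, by omega⟩
        simp only [Nat.add_sub_cancel]
        have : (a' + 1) * (b' + 1) = a' * (b' + 1) + b' + 1 := by ring
        omega

/-- Counting form of the theorem. -/
theorem main : ∀ n : ℕ, 1 ≤ n → ∀ (F : Type) [Fintype F] (f : F → ℤ),
    (Fintype.card F) ^ n ≤ 2 ^ (n - 1) * cnt n f := by
  intro n
  induction n using Nat.strong_induction_on with
  | _ n ih =>
    intro hn F _ f
    rcases Nat.eq_or_lt_of_le hn with h1 | h1
    · subst h1
      have : cnt 1 f = Fintype.card F := by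
        rw [cnt]
        rw [Nat.card_congr (Equiv.subtypeUnivEquiv (fun x => by simp))]
        simp
      simp [this]
    · by_cases hp : n.Prime
      · exact prime_case n hp f
      · obtain ⟨a, b, ha, hb, hab⟩ := (Nat.not_prime_iff_exists_mul_eq h1).mp hp
        subst hab
        have ha1 : 1 ≤ a := by
          rcases Nat.eq_zero_or_pos a with h | h
          · subst h; simp at h1
          · exact h
        have hb1 : 1 ≤ b := by
          rcases Nat.eq_zero_or_pos b with h | h
          · subst h; simp at h1
          · exact h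
        exact mul_step a b ha1 hb1 (fun F _ f => ih a ha ha1 F f) (fun F _ f => ih b hb hb1 F f) F f

end Pool.Agent.X137.Dice
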