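import Mathlib

/-! Essential and influential edges of first passage percolation in a box: definitions. -/

namespace Pool.Agent.X137.Ess

open MeasureTheory
open scoped ENNReal

/-- Lattice points `ℤ ^ d`. -/
abbrev Vtx (d : ℕ) : Type := Fin d → ℤ

/-- The graph `G_n`: two points of the box `[-2n, 2n] ^ d` are adjacent iff their `ℓ¹` distance is
one (points outside the box are isolated, so they play no role). -/
def boxGraph (d n : ℕ) : SimpleGraph (Vtx d) where
  Adj x y := (∀ i, |x i| ≤ 2 * (n : ℤ)) ∧ (∀ i, |y i| ≤ 2 * (n : ℤ)) ∧ ∑ i, |x i - y i| = 1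
  symm := ⟨fun x y h => ⟨h.2.1, h.1, by
    have : ∑ i, |y i - x i| = ∑ i, |x i - y i| :=
      Finset.sum_congr rfl (fun i _ => abs_sub_comm _ _)
    rw [this]; exact h.2.2⟩⟩
  loopless := ⟨fun x h => by simp at h⟩

/-- The edge set `W_n`. -/
abbrev W (d n : ℕ) : Type := (boxGraph d n).edgeSet

/-- Configurations: `ω e = true` means that the edge `e` has weight `a`, `ω e = false` that it has
weight `b`. -/
abbrev Conf (d n : ℕ) : Type := W d n → Bool

/-- The law of one edge: weight `a` (`true`) with probability `p`, weight `b` (`false`) with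
probability `1 - p`. -/
noncomputable def coin (p : ℝ) : Measure Bool :=
  ENNReal.ofReal p • Measure.dirac true + ENNReal.ofReal (1 - p) • Measure.dirac false

/-- The product measure on configurations. -/
noncomputable def PP (d n : ℕ) (p : ℝ) : Measure (Conf d n) := Measure.infinitePi (fun _ => coin p)

open Classical in
/-- The weight of the pair `e` in the configuration `ω` (`0` if `e` is not an edge, which never
happens for the edges of a path). -/
noncomputable def wt {d n : ℕ} (a b : ℝ) (ω : Conf d n) (e : Sym2 (Vtx d)) : ℝ :=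
  if h : e ∈ (boxGraph d n).edgeSet then (if ω ⟨e, h⟩ then a else b) else 0

/-- `T(γ, ω)`: the sum of the weights of the edges of `γ`. -/
noncomputable def T {d n : ℕ} (a b : ℝ) {x y : Vtx d} (γ : (boxGraph d n).Walk x y)
    (ω : Conf d n) : ℝ := (γ.edges.map (wt a b ω)).sum

/-- `f(ω)`: the minimum of `T(γ, ω)` over the paths `γ` of `G_n` from `0` to `n v`. -/
noncomputable def f (d n : ℕ) (a b : ℝ) (v : Vtx d) (ω : Conf d n) : ℝ :=
  ⨅ γ : (boxGraph d n).Path 0 ((n : ℤ) • v), T a b γ.1 ω

/-- `γ` is a geodesic: a path from `0` to `n v` with `T(γ, ω) = f(ω)`. -/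
def IsGeodesic {d n : ℕ} (a b : ℝ) (v : Vtx d) (ω : Conf d n)
    (γ : (boxGraph d n).Path 0 ((n : ℤ) • v)) : Prop := T a b γ.1 ω = f d n a b v ω

open Classical in
/-- `σ_j^δ(ω)`: the configuration `ω` with coordinate `j` replaced by `δ` (`true` for `a`, `false`
for `b`). -/
noncomputable def flip {d n : ℕ} (j : W d n) (δ : Bool) (ω : Conf d n) : Conf d n :=
  Function.update ω j δ

/-- `∂_j f = f ∘ σ_j^b - f ∘ σ_j^a`. -/
noncomputable def deriv {d n : ℕ} (a b : ℝ) (v : Vtx d) (j : W d n) (ω : Conf d n) : ℝ :=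
  f d n a b v (flip j false ω) - f d n a b v (flip j true ω)

/-- `E_j`: every geodesic passes through `j`. -/
def essential {d n : ℕ} (a b : ℝ) (v : Vtx d) (j : W d n) : Set (Conf d n) :=
  {ω | ∀ γ : (boxGraph d n).Path 0 ((n : ℤ) • v), IsGeodesic a b v ω γ → j.1 ∈ γ.1.edges}

/-- `Ê_j`: at least one geodesic passes through `j`. -/
def semiEssential {d n : ℕ} (a b : ℝ) (v : Vtx d) (j : W d n) : Set (Conf d n) :=
  {ω | ∃ γ : (boxGraph d n).Path 0 ((n : ℤ) • v), IsGeodesic a b v ω γ ∧ j.1 ∈ γ.1.edges}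

/-- `A_j`: `∂_j f ≠ 0`. -/
def influential {d n : ℕ} (a b : ℝ) (v : Vtx d) (j : W d n) : Set (Conf d n) :=
  {ω | deriv a b v j ω ≠ 0}

/-- `Â_j`: `∂_j f = b - a`. -/
def veryInfluential {d n : ℕ} (a b : ℝ) (v : Vtx d) (j : W d n) : Set (Conf d n) :=
  {ω | deriv a b v j ω = b - a}

/-- The three inequalities of the problem for the edge `j` with constant `C`. -/
def Comparable {d n : ℕ} (a b p : ℝ) (v : Vtx d) (C : ℝ≥0∞) (j : W d n) : Prop :=
  PP d n p (influential a b v j) ≤ C * PP d n p (veryInfluential a b v j) ∧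
  PP d n p (semiEssential a b v j) ≤ C * PP d n p (essential a b v j) ∧
  PP d n p (semiEssential a b v j) ≤ C * PP d n p (veryInfluential a b v j)

end Pool.Agent.X137.Ess
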