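import Mathlib
import Pool.Agent.X137.EssDefs

/-! Essential and influential edges: an edge which can only be used with the cheap weight. -/

namespace Pool.Agent.X137.Ess

open MeasureTheory
open scoped ENNReal

variable {d n : ℕ}

/-- `ℓ¹` norm of the difference. -/
def l1 (x y : Vtx d) : ℤ := ∑ i, |x i - y i|

lemma l1_triangle (x y z : Vtx d) : l1 x z ≤ l1 x y + l1 y z := by
  unfold l1
  rw [← Finset.sum_add_distrib]
  exact Finset.sum_le_sum (fun i _ => abs_sub_le _ _ _)

lemma l1_le_length {x y : Vtx d} (γ : (boxGraph d n).Walk x y) : l1 x y ≤ γ.length := by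
  induction γ with
  | nil => simp [l1]
  | cons h q ih =>
    rename_i u v w
    have h1 : l1 u v = 1 := h.2.2
    have h2 := l1_triangle u v w
    rw [SimpleGraph.Walk.length_cons]
    push_cast
    linarith

lemma l1_via {x y : Vtx d} (γ : (boxGraph d n).Walk x y) {z : Vtx d} (hz : z ∈ γ.support) :
    l1 x z + l1 z y ≤ γ.length := by
  classical
  have h1 := l1_le_length (γ.takeUntil z hz)
  have h2 := l1_le_length (γ.dropUntil z hz)
  have h3 : γ.length = (γ.takeUntil z hz).length + (γ.dropUntil z hz).length := by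
    rw [← SimpleGraph.Walk.length_append, SimpleGraph.Walk.take_spec]
  rw [h3]; push_cast; linarith

lemma wt_nonneg {a b : ℝ} (ha : 0 < a) (hab : a < b) (ω : Conf d n) (e : Sym2 (Vtx d)) :
    0 ≤ wt a b ω e := by
  unfold wt
  split_ifs <;> linarith

lemma wt_ge {a b : ℝ} (hab : a < b) (ω : Conf d n) {e : Sym2 (Vtx d)}
    (he : e ∈ (boxGraph d n).edgeSet) : a ≤ wt a b ω e := by
  unfold wt
  rw [dif_pos he]
  split_ifs <;> linarith

lemma wt_le {a b : ℝ} (hab : a < b) (ω : Conf d n) {e : Sym2 (Vtx d)}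
    (he : e ∈ (boxGraph d n).edgeSet) : wt a b ω e ≤ b := by
  unfold wt
  rw [dif_pos he]
  split_ifs <;> linarith

lemma T_ge {a b : ℝ} (hab : a < b) (ω : Conf d n) {x y : Vtx d} (γ : (boxGraph d n).Walk x y) :
    (γ.length : ℝ) * a ≤ T a b γ ω := by
  unfold T
  have h : ∀ l : List (Sym2 (Vtx d)), (∀ e ∈ l, e ∈ (boxGraph d n).edgeSet) →
      (l.length : ℝ) * a ≤ (l.map (wt a b ω)).sum := by
    intro l
    induction l with
    | nil => simp
    | cons e l ih =>
      intro he
      have h1 := wt_ge hab ω (he e (by simp))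
      have h2 := ih (fun e' he' => he e' (List.mem_cons_of_mem _ he'))
      simp only [List.length_cons, List.map_cons, List.sum_cons]
      push_cast
      linarith
  have := h γ.edges (fun e he => γ.edges_subset_edgeSet he)
  rwa [SimpleGraph.Walk.length_edges] at this

lemma T_le {a b : ℝ} (hab : a < b) (ω : Conf d n) {x y : Vtx d} (γ : (boxGraph d n).Walk x y) :
    T a b γ ω ≤ (γ.length : ℝ) * b := by
  unfold T
  have h : ∀ l : List (Sym2 (Vtx d)), (∀ e ∈ l, e ∈ (boxGraph d n).edgeSet) →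
      (l.map (wt a b ω)).sum ≤ (l.length : ℝ) * b := by
    intro l
    induction l with
    | nil => simp
    | cons e l ih =>
      intro he
      have h1 := wt_le hab ω (he e (by simp))
      have h2 := ih (fun e' he' => he e' (List.mem_cons_of_mem _ he'))
      simp only [List.length_cons, List.map_cons, List.sum_cons]
      push_cast
      linarith
  have := h γ.edges (fun e he => γ.edges_subset_edgeSet he)
  rwa [SimpleGraph.Walk.length_edges] at this

lemma T_const {a b c : ℝ} (ω : Conf d n) {x y : Vtx d} (γ : (boxGraph d n).Walk x y)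
    (h : ∀ e ∈ γ.edges, wt a b ω e = c) : T a b γ ω = (γ.length : ℝ) * c := by
  unfold T
  have h' : ∀ l : List (Sym2 (Vtx d)), (∀ e ∈ l, wt a b ω e = c) →
      (l.map (wt a b ω)).sum = (l.length : ℝ) * c := by
    intro l
    induction l with
    | nil => simp
    | cons e l ih =>
      intro he
      have h1 := he e (by simp)
      have h2 := ih (fun e' he' => he e' (List.mem_cons_of_mem _ he'))
      simp only [List.length_cons, List.map_cons, List.sum_cons]
      push_cast
      rw [h1, h2]; ring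
  rw [h' _ h, SimpleGraph.Walk.length_edges]

lemma T_bypass_le {a b : ℝ} (ha : 0 < a) (hab : a < b) (ω : Conf d n) {x y : Vtx d}
    (γ : (boxGraph d n).Walk x y) : T a b γ.bypass ω ≤ T a b γ ω := by
  unfold T
  refine List.Sublist.sum_le_sum (γ.edges_bypass_sublist_edges.map _) ?_
  intro r hr
  obtain ⟨e, _, rfl⟩ := List.mem_map.mp hr
  exact wt_nonneg ha hab ω e

lemma f_bdd {a b : ℝ} (ha : 0 < a) (hab : a < b) (v : Vtx d) (ω : Conf d n) :
    BddBelow (Set.range (fun γ : (boxGraph d n).Path 0 ((n : ℤ) • v) => T a b γ.1 ω)) := by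
  refine ⟨0, ?_⟩
  rintro _ ⟨γ, rfl⟩
  exact le_trans (by positivity) (T_ge hab ω γ.1)

lemma f_le {a b : ℝ} (ha : 0 < a) (hab : a < b) (v : Vtx d) (ω : Conf d n)
    (γ : (boxGraph d n).Walk 0 ((n : ℤ) • v)) : f d n a b v ω ≤ T a b γ ω :=
  (ciInf_le (f_bdd ha hab v ω) ⟨γ.bypass, γ.bypass_isPath⟩).trans (T_bypass_le ha hab ω γ)

/-- Straight walks. -/
lemma straight (i : Fin d) (s : ℤ) (hs : |s| = 1) (x : Vtx d)
    (hx : ∀ l, l ≠ i → |x l| ≤ 2 * (n : ℤ)) (hxi : x i = 0) :
    ∀ m : ℕ, m ≤ 2 * n → ∃ w : (boxGraph d n).Walk x (x + (m : ℤ) • Pi.single i s),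
      w.length = m ∧ ∀ y ∈ w.support, ∀ l, l ≠ i → y l = x l := by
  intro m
  induction m with
  | zero =>
    intro _
    refine ⟨(SimpleGraph.Walk.nil : (boxGraph d n).Walk x x).copy rfl (by simp), ?_, ?_⟩
    · simp
    · intro y hy l _
      simp at hy
      rw [hy]
  | succ m ih =>
    intro hm
    obtain ⟨w, hw1, hw2⟩ := ih (by omega)
    have hbox : ∀ k : ℕ, k ≤ 2 * n → ∀ l, |(x + (k : ℤ) • (Pi.single i s : Vtx d)) l| ≤ 2 * (n : ℤ) := by
      intro k hk l
      by_cases hl : l = i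
      · subst hl
        simp only [Pi.add_apply, Pi.smul_apply, Pi.single_eq_same, smul_eq_mul, hxi, zero_add]
        rw [abs_mul, hs, mul_one, abs_of_nonneg (by positivity)]
        exact_mod_cast hk
      · simp only [Pi.add_apply, Pi.smul_apply, Pi.single_eq_of_ne hl, smul_eq_mul, mul_zero,
          add_zero]
        exact hx l hl
    have hadj : (boxGraph d n).Adj (x + (m : ℤ) • Pi.single i s)
        (x + ((m + 1 : ℕ) : ℤ) • Pi.single i s) := by
      refine ⟨hbox m (by omega), hbox (m + 1) hm, ?_⟩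
      rw [Finset.sum_eq_single i]
      · simp only [Pi.add_apply, Pi.smul_apply, Pi.single_eq_same, smul_eq_mul]
        push_cast
        rw [show x i + (m : ℤ) * s - (x i + ((m : ℤ) + 1) * s) = -s by ring, abs_neg, hs]
      · intro l _ hl
        simp [Pi.single_eq_of_ne hl]
      · simp
    refine ⟨w.concat hadj, ?_, ?_⟩
    · rw [SimpleGraph.Walk.length_concat, hw1]
    · intro y hy l hl
      rw [SimpleGraph.Walk.support_concat, List.mem_append] at hy
      rcases hy with hy | hy
      · exact hw2 y hy l hl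
      · simp only [List.mem_singleton] at hy
        rw [hy]
        simp [Pi.single_eq_of_ne hl]

/-- A walk from `0` to `n v` visiting a point at height `h` above the axis has at least `n + 2 h`
edges. -/
lemma off_axis (i : Fin d) (s : ℤ) (hs : |s| = 1) (h : ℕ)
    (γ : (boxGraph d n).Walk 0 ((n : ℤ) • (Pi.single i s : Vtx d))) {z : Vtx d}
    (hz : z ∈ γ.support) {k : Fin d} (hk : k ≠ i) (hzk : z k = h) : n + 2 * h ≤ γ.length := by
  have h1 := l1_via γ hz
  have h2 : (n : ℤ) + 2 * h ≤ l1 0 z + l1 z ((n : ℤ) • (Pi.single i s : Vtx d)) := by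
    unfold l1
    rw [← Finset.sum_add_distrib]
    have h3 : ∑ l ∈ ({i, k} : Finset (Fin d)), (|(0 : Vtx d) l - z l| +
        |z l - ((n : ℤ) • (Pi.single i s : Vtx d)) l|) ≤
        ∑ l, (|(0 : Vtx d) l - z l| + |z l - ((n : ℤ) • (Pi.single i s : Vtx d)) l|) :=
      Finset.sum_le_sum_of_subset_of_nonneg (Finset.subset_univ _)
        (fun l _ _ => add_nonneg (abs_nonneg _) (abs_nonneg _))
    rw [Finset.sum_pair hk.symm] at h3
    have h4 : (n : ℤ) ≤ |(0 : Vtx d) i - z i| + |z i - ((n : ℤ) • (Pi.single i s : Vtx d)) i| := by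
      have h5 := abs_sub_le ((0 : Vtx d) i) (z i) (((n : ℤ) • (Pi.single i s : Vtx d)) i)
      have h6 : |(0 : Vtx d) i - ((n : ℤ) • (Pi.single i s : Vtx d)) i| = n := by
        simp [abs_mul, hs]
      linarith
    have h7 : 2 * (h : ℤ) ≤
        |(0 : Vtx d) k - z k| + |z k - ((n : ℤ) • (Pi.single i s : Vtx d)) k| := by
      simp only [Pi.zero_apply, zero_sub, abs_neg, Pi.smul_apply, Pi.single_eq_of_ne hk,
        smul_zero, sub_zero, hzk]
      rw [abs_of_nonneg (by positivity : (0 : ℤ) ≤ h)]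
      linarith
    linarith
  have h9 : (n : ℤ) + 2 * h ≤ γ.length := h2.trans h1
  exact_mod_cast h9

lemma exists_path (i : Fin d) (s : ℤ) (hs : |s| = 1) :
    ∃ w : (boxGraph d n).Walk 0 ((n : ℤ) • (Pi.single i s : Vtx d)), w.length = n := by
  obtain ⟨w, hw, _⟩ := straight (n := n) i s hs (0 : Vtx d) (fun l _ => by simp) rfl n (by omega)
  exact ⟨w.copy rfl (by simp), by simpa using hw⟩

/-- If every walk through `j` has at least `n + 2 h` edges and `n b < (n + 2 h - 1) a + b` then `j`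
is never very influential. -/
lemma veryInfluential_empty {a b : ℝ} (ha : 0 < a) (hab : a < b) (i : Fin d) (s : ℤ)
    (hs : |s| = 1) (h : ℕ) (hnum : (n : ℝ) * b < ((n : ℝ) + 2 * h - 1) * a + b) (j : W d n)
    (hj : ∀ γ : (boxGraph d n).Walk 0 ((n : ℤ) • (Pi.single i s : Vtx d)),
      j.1 ∈ γ.edges → n + 2 * h ≤ γ.length) :
    veryInfluential a b (Pi.single i s) j = ∅ := by
  classical
  rw [Set.eq_empty_iff_forall_notMem]
  intro ω hω
  have hder : f d n a b (Pi.single i s) (flip j false ω) -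
      f d n a b (Pi.single i s) (flip j true ω) = b - a := hω
  obtain ⟨w0, hw0⟩ := exists_path (d := d) (n := n) i s hs
  have hne : Nonempty ((boxGraph d n).Path 0 ((n : ℤ) • (Pi.single i s : Vtx d))) :=
    ⟨⟨w0.bypass, w0.bypass_isPath⟩⟩
  set ε : ℝ := min (b - a) (((n : ℝ) + 2 * h - 1) * a + b - n * b) with hε
  have hε0 : 0 < ε := lt_min (by linarith) (by linarith)
  obtain ⟨γ, hγ⟩ := exists_lt_of_ciInf_lt
    (show f d n a b (Pi.single i s) (flip j true ω) <
      f d n a b (Pi.single i s) (flip j true ω) + ε by linarith)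
  by_cases hjγ : j.1 ∈ γ.1.edges
  · have h1 := hj γ.1 hjγ
    have h2 := T_ge hab (flip j true ω) γ.1
    have h3 : ((n : ℝ) + 2 * h) * a ≤ T a b γ.1 (flip j true ω) := by
      refine le_trans (mul_le_mul_of_nonneg_right ?_ ha.le) h2
      exact_mod_cast h1
    have h4 := (f_le ha hab _ (flip j false ω) w0).trans (T_le hab (flip j false ω) w0)
    rw [hw0] at h4
    have h5 := min_le_right (b - a) (((n : ℝ) + 2 * h - 1) * a + b - n * b)
    rw [← hε] at h5
    linarith
  · have h6 : T a b γ.1 (flip j false ω) = T a b γ.1 (flip j true ω) := by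
      unfold T
      congr 1
      refine List.map_congr_left (fun e he => ?_)
      have hne' : ∀ h : e ∈ (boxGraph d n).edgeSet, (⟨e, h⟩ : W d n) ≠ j := by
        intro h hcon
        apply hjγ
        rw [← hcon]
        exact he
      unfold wt flip
      by_cases h : e ∈ (boxGraph d n).edgeSet
      · rw [dif_pos h, dif_pos h, Function.update_of_ne (hne' h), Function.update_of_ne (hne' h)]
      · rw [dif_neg h, dif_neg h]
    have h7 := f_le ha hab _ (flip j false ω) γ.1
    rw [h6] at h7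
    have h5 := min_le_left (b - a) (((n : ℝ) + 2 * h - 1) * a + b - n * b)
    rw [← hε] at h5
    have h8 : T a b γ.1 (flip j true ω) < f d n a b (Pi.single i s) (flip j true ω) + ε := hγ
    linarith

/-- Consecutive points on the `k`-axis are adjacent. -/
lemma adj_axis (k : Fin d) (h : ℕ) (hn : h + 1 ≤ 2 * n) :
    (boxGraph d n).Adj ((h : ℤ) • (Pi.single k 1 : Vtx d))
      (((h + 1 : ℕ) : ℤ) • (Pi.single k 1 : Vtx d)) := by
  have hb : ∀ m : ℕ, m ≤ 2 * n → ∀ l, |((m : ℤ) • (Pi.single k 1 : Vtx d)) l| ≤ 2 * (n : ℤ) := by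
    intro m hm l
    by_cases hl : l = k
    · subst hl
      simp only [Pi.smul_apply, Pi.single_eq_same, smul_eq_mul, mul_one]
      rw [abs_of_nonneg (by positivity)]
      exact_mod_cast hm
    · simp [Pi.single_eq_of_ne hl]
  refine ⟨hb h (by omega), hb (h + 1) hn, ?_⟩
  rw [Finset.sum_eq_single k]
  · simp
  · intro l _ hl; simp [Pi.single_eq_of_ne hl]
  · simp

/-- Cost of walks which stay away from height `h`, in a configuration where all horizontal edges
away from height `h` are expensive. -/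
lemma T_horizontal {a b : ℝ} (ha : 0 < a) (hab : a < b) (i k : Fin d) (h : ℕ) (ω : Conf d n)
    (hω : ∀ y z : Vtx d, (boxGraph d n).Adj y z → y k ≠ h → z k ≠ h → y i ≠ z i →
      wt a b ω s(y, z) = b) {x y : Vtx d} (γ : (boxGraph d n).Walk x y)
    (hγ : ∀ z ∈ γ.support, z k ≠ h) : b * |((x i - y i : ℤ) : ℝ)| ≤ T a b γ ω := by
  have hb : 0 < b := by linarith
  induction γ with
  | nil => simp [T]
  | cons hadj q ih =>
    rename_i u v w
    have h1 := ih (fun z hz => hγ z (by simp [hz]))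
    have h2 : b * |((u i - v i : ℤ) : ℝ)| ≤ wt a b ω s(u, v) := by
      by_cases huv : u i = v i
      · rw [huv]; simpa using wt_nonneg ha hab ω s(u, v)
      · rw [hω u v hadj (hγ u (by simp)) (hγ v (by simp)) huv]
        have h3 : |u i - v i| ≤ 1 := by
          have h4 : ∑ l, |u l - v l| = 1 := hadj.2.2
          rw [← h4]
          exact Finset.single_le_sum (f := fun l => |u l - v l|) (fun l _ => abs_nonneg _)
            (Finset.mem_univ i)
        have h5 : |((u i - v i : ℤ) : ℝ)| ≤ 1 := by exact_mod_cast h3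
        nlinarith
    have h6 : T a b (SimpleGraph.Walk.cons hadj q) ω = wt a b ω s(u, v) + T a b q ω := by
      unfold T; simp
    rw [h6]
    have h7 : |((u i - w i : ℤ) : ℝ)| ≤ |((u i - v i : ℤ) : ℝ)| + |((v i - w i : ℤ) : ℝ)| := by
      exact_mod_cast abs_sub_le (u i) (v i) (w i)
    nlinarith

/-- If `(n + 2 h) a ≤ n b` with `1 ≤ h ≤ 2 n`, some configuration has a geodesic through the edge
`{(h - 1) e_k, h e_k}`. -/
lemma semiEssential_nonempty {a b : ℝ} (ha : 0 < a) (hab : a < b) (i k : Fin d) (hki : k ≠ i)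
    (s : ℤ) (hs : |s| = 1) (h : ℕ) (hn : h + 1 ≤ 2 * n)
    (hnum : ((n : ℝ) + 2 * (h + 1 : ℕ)) * a ≤ n * b) (j : W d n)
    (hj : j.1 = s((h : ℤ) • (Pi.single k 1 : Vtx d), ((h + 1 : ℕ) : ℤ) • (Pi.single k 1 : Vtx d))) :
    (semiEssential a b (Pi.single i s) j).Nonempty := by
  classical
  set x : Vtx d := ((h + 1 : ℕ) : ℤ) • (Pi.single k 1 : Vtx d) with hx
  have hxk : x k = ((h + 1 : ℕ) : ℤ) := by simp [hx]
  have hxi : x i = 0 := by simp [hx, hki.symm]
  have hxbox : ∀ l, |x l| ≤ 2 * (n : ℤ) := by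
    intro l
    by_cases hl : l = k
    · rw [hl, hxk, abs_of_nonneg (by positivity)]; exact_mod_cast hn
    · simp [hx, Pi.single_eq_of_ne hl]
  have hend : ∀ l, |((n : ℤ) • (Pi.single i s : Vtx d)) l| ≤ 2 * (n : ℤ) := by
    intro l
    by_cases hl : l = i
    · subst hl
      simp only [Pi.smul_apply, Pi.single_eq_same, smul_eq_mul]
      rw [abs_mul, hs, mul_one, abs_of_nonneg (by positivity)]; linarith
    · simp [Pi.single_eq_of_ne hl]
  obtain ⟨u, hu1, hu2⟩ := straight (n := n) k 1 (by simp) (0 : Vtx d) (fun l _ => by simp) rfl h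
    (by omega)
  obtain ⟨w, hw1, hw2⟩ := straight (n := n) i s hs x (fun l _ => hxbox l) hxi n (by omega)
  obtain ⟨t, ht1, ht2⟩ := straight (n := n) k 1 (by simp) ((n : ℤ) • (Pi.single i s : Vtx d))
    (fun l _ => hend l) (by simp [Pi.single_eq_of_ne hki]) (h + 1) hn
  have e1 : (0 : Vtx d) + (h : ℤ) • (Pi.single k 1 : Vtx d) = (h : ℤ) • (Pi.single k 1 : Vtx d) :=
    zero_add _
  have e2 : (n : ℤ) • (Pi.single i s : Vtx d) + ((h + 1 : ℕ) : ℤ) • (Pi.single k 1 : Vtx d) =
      x + (n : ℤ) • (Pi.single i s : Vtx d) := add_comm _ _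
  set u' : (boxGraph d n).Walk 0 ((h : ℤ) • (Pi.single k 1 : Vtx d)) := u.copy rfl e1 with hu'
  set t' : (boxGraph d n).Walk (x + (n : ℤ) • (Pi.single i s : Vtx d))
    ((n : ℤ) • (Pi.single i s : Vtx d)) := (t.copy rfl e2).reverse with ht'
  have hadj : (boxGraph d n).Adj ((h : ℤ) • (Pi.single k 1 : Vtx d)) x := adj_axis k h hn
  set γ : (boxGraph d n).Walk 0 ((n : ℤ) • (Pi.single i s : Vtx d)) :=
    (u'.concat hadj).append (w.append t') with hγ
  have hlen : γ.length = n + 2 * (h + 1) := by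
    rw [hγ, SimpleGraph.Walk.length_append, SimpleGraph.Walk.length_append,
      SimpleGraph.Walk.length_concat, hu', ht', SimpleGraph.Walk.length_reverse,
      SimpleGraph.Walk.length_copy, SimpleGraph.Walk.length_copy, hu1, hw1, ht1]
    ring
  have hjγ : j.1 ∈ γ.edges := by
    rw [hγ, SimpleGraph.Walk.edges_append, SimpleGraph.Walk.edges_concat, hj]
    simp [hx]
  have hγedge : ∀ y z : Vtx d, s(y, z) ∈ γ.edges →
      y k = ((h + 1 : ℕ) : ℤ) ∨ z k = ((h + 1 : ℕ) : ℤ) ∨ y i = z i := by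
    intro y z he
    rw [hγ, SimpleGraph.Walk.edges_append, SimpleGraph.Walk.edges_append, List.mem_append,
      List.mem_append] at he
    rcases he with he | he | he
    · -- first vertical part
      right; right
      rw [SimpleGraph.Walk.edges_concat, List.concat_eq_append, List.mem_append,
        List.mem_singleton] at he
      rcases he with he | he
      · rw [hu', SimpleGraph.Walk.edges_copy] at he
        rw [hu2 y (u.fst_mem_support_of_mem_edges he) i hki.symm,
          hu2 z (u.snd_mem_support_of_mem_edges he) i hki.symm]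
      · rw [Sym2.eq_iff] at he
        rcases he with ⟨rfl, rfl⟩ | ⟨rfl, rfl⟩ <;> simp [hxi, Pi.single_eq_of_ne hki.symm]
    · left
      rw [hw2 y (w.fst_mem_support_of_mem_edges he) k hki, hxk]
    · right; right
      rw [ht', SimpleGraph.Walk.edges_reverse, List.mem_reverse, SimpleGraph.Walk.edges_copy] at he
      rw [ht2 y (t.fst_mem_support_of_mem_edges he) i hki.symm,
        ht2 z (t.snd_mem_support_of_mem_edges he) i hki.symm]
  -- the configuration
  set ω : Conf d n := fun e => decide (e.1 ∈ γ.edges) with hω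
  have hwa : ∀ e ∈ γ.edges, wt a b ω e = a := by
    intro e he
    unfold wt
    rw [dif_pos (γ.edges_subset_edgeSet he)]
    simp [hω, he]
  have hwb : ∀ e ∈ (boxGraph d n).edgeSet, e ∉ γ.edges → wt a b ω e = b := by
    intro e he hne
    unfold wt
    rw [dif_pos he]
    simp [hω, hne]
  have hTγ : T a b γ ω = ((n : ℝ) + 2 * (h + 1 : ℕ)) * a := by
    rw [T_const ω γ hwa, hlen]; push_cast; ring
  have hlow : ∀ γ' : (boxGraph d n).Walk 0 ((n : ℤ) • (Pi.single i s : Vtx d)),
      ((n : ℝ) + 2 * (h + 1 : ℕ)) * a ≤ T a b γ' ω := by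
    intro γ'
    by_cases hoff : ∃ z ∈ γ'.support, z k = ((h + 1 : ℕ) : ℤ)
    · obtain ⟨z, hz, hzk⟩ := hoff
      have h1 := off_axis i s hs (h + 1) γ' hz hki hzk
      refine le_trans (mul_le_mul_of_nonneg_right ?_ ha.le) (T_ge hab ω γ')
      exact_mod_cast h1
    · push Not at hoff
      have h1 := T_horizontal ha hab i k (h + 1) ω (fun y z hyz hy hz hne => by
        refine hwb _ hyz (fun hcon => ?_)
        rcases hγedge y z hcon with h2 | h2 | h2
        · exact hy h2
        · exact hz h2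
        · exact hne h2) γ' hoff
      have h2 : |(((0 : Vtx d) i - ((n : ℤ) • (Pi.single i s : Vtx d)) i : ℤ) : ℝ)| = n := by
        have h3 : |(0 : Vtx d) i - ((n : ℤ) • (Pi.single i s : Vtx d)) i| = n := by
          simp [abs_mul, hs]
        exact_mod_cast h3
      rw [h2] at h1
      linarith
  -- `γ` is a path
  have hbyp : γ.bypass = γ := by
    apply SimpleGraph.Walk.bypass_eq_self_of_length_le_length_bypass
    have h1 := hlow γ.bypass
    rw [T_const ω γ.bypass (fun e he => hwa e (γ.edges_bypass_subset_edges he))] at h1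
    have h2 : ((n : ℝ) + 2 * (h + 1 : ℕ)) ≤ γ.bypass.length := le_of_mul_le_mul_right h1 ha
    rw [hlen]
    exact_mod_cast h2
  have hpath : γ.IsPath := by rw [← hbyp]; exact γ.bypass_isPath
  refine ⟨ω, ⟨γ, hpath⟩, ?_, hjγ⟩
  show T a b γ ω = f d n a b (Pi.single i s) ω
  apply le_antisymm
  · rw [hTγ]
    have : Nonempty ((boxGraph d n).Path 0 ((n : ℤ) • (Pi.single i s : Vtx d))) := ⟨⟨γ, hpath⟩⟩
    exact le_ciInf (fun γ' => hlow γ'.1)
  · exact f_le ha hab _ ω γ

lemma finite_W (d n : ℕ) : Finite (W d n) := by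
  have h1 : (boxGraph d n).edgeSet ⊆ (fun q : Vtx d × Vtx d => s(q.1, q.2)) ''
      ((Set.Icc (fun _ => -(2 * (n : ℤ))) (fun _ => 2 * (n : ℤ))) ×ˢ
       (Set.Icc (fun _ => -(2 * (n : ℤ))) (fun _ => 2 * (n : ℤ)))) := by
    intro e he
    induction e using Sym2.ind with
    | _ x y =>
      have h : (boxGraph d n).Adj x y := he
      refine ⟨(x, y), ⟨?_, ?_⟩, rfl⟩
      · exact ⟨fun l => (abs_le.mp (h.1 l)).1, fun l => (abs_le.mp (h.1 l)).2⟩
      · exact ⟨fun l => (abs_le.mp (h.2.1 l)).1, fun l => (abs_le.mp (h.2.1 l)).2⟩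
  exact (((Set.finite_Icc _ _).prod (Set.finite_Icc _ _)).image _).subset h1

lemma coin_prob {p : ℝ} (hp0 : 0 < p) (hp1 : p < 1) : IsProbabilityMeasure (coin p) := by
  constructor
  unfold coin
  simp only [Measure.coe_add, Measure.coe_smul, Pi.add_apply, Pi.smul_apply, measure_univ,
    smul_eq_mul, mul_one]
  rw [← ENNReal.ofReal_add hp0.le (by linarith)]
  simp

lemma coin_pos {p : ℝ} (hp0 : 0 < p) (hp1 : p < 1) (c : Bool) : coin p {c} ≠ 0 := by
  unfold coin
  cases c <;> simp [hp0, hp1]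

/-- Nonempty events have positive probability. -/
lemma PP_pos {p : ℝ} (hp0 : 0 < p) (hp1 : p < 1) {S : Set (Conf d n)} (hS : S.Nonempty) :
    0 < PP d n p S := by
  have := coin_prob hp0 hp1
  have := finite_W d n
  have := Fintype.ofFinite (W d n)
  obtain ⟨ω, hω⟩ := hS
  refine lt_of_lt_of_le ?_ (measure_mono (Set.singleton_subset_iff.mpr hω))
  unfold PP
  rw [Measure.infinitePi_singleton_of_fintype]
  exact pos_iff_ne_zero.mpr (Finset.prod_ne_zero_iff.mpr (fun i _ => coin_pos hp0 hp1 _))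

/-- The main statement: if `1 ≤ h ≤ 2 n` (here `h + 1` in place of `h`) and
`(n + 2 h) a ≤ n b < (n + 2 h - 1) a + b`, the edge `{(h - 1) e_k, h e_k}` is semi-essential with
positive probability but never very influential. -/
theorem bad_edge {a b p : ℝ} (ha : 0 < a) (hab : a < b) (hp0 : 0 < p) (hp1 : p < 1) (i k : Fin d)
    (hki : k ≠ i) (s : ℤ) (hs : |s| = 1) (h : ℕ) (hn : h + 1 ≤ 2 * n)
    (hnum : ((n : ℝ) + 2 * (h + 1 : ℕ)) * a ≤ n * b)
    (hnum' : (n : ℝ) * b < ((n : ℝ) + 2 * (h + 1 : ℕ) - 1) * a + b) (j : W d n)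
    (hj : j.1 = s((h : ℤ) • (Pi.single k 1 : Vtx d), ((h + 1 : ℕ) : ℤ) • (Pi.single k 1 : Vtx d))) :
    0 < PP d n p (semiEssential a b (Pi.single i s) j) ∧
    PP d n p (veryInfluential a b (Pi.single i s) j) = 0 := by
  refine ⟨PP_pos hp0 hp1 (semiEssential_nonempty ha hab i k hki s hs h hn hnum j hj), ?_⟩
  rw [veryInfluential_empty ha hab i s hs (h + 1) hnum' j (fun γ hγ => ?_), measure_empty]
  rw [hj] at hγ
  exact off_axis i s hs (h + 1) γ (γ.snd_mem_support_of_mem_edges hγ) hki (by simp)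

end Pool.Agent.X137.Ess
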