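import Mathlib

/-! Adding `1` to finitely many of the independent exponential variables changes the law only by a
bounded density. -/

namespace Pool.Agent.X137.Shift

open MeasureTheory ProbabilityTheory Set
open scoped ENNReal

/-- The law of an exponential variable plus one is dominated by `e ^ r` times the exponential law. -/
lemma exp_shift (r : ℝ) :
    (expMeasure r).map (fun x => x + 1) ≤ ENNReal.ofReal (Real.exp r) • expMeasure r := by
  have hm : Measurable (fun x : ℝ => x + 1) := by fun_prop
  have hp : Measurable (exponentialPDF r) := by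
    unfold exponentialPDF
    exact (measurable_exponentialPDFReal r).ennreal_ofReal
  have hexp : expMeasure r = volume.withDensity (exponentialPDF r) := rfl
  refine Measure.le_iff.mpr (fun A hA => ?_)
  rw [Measure.map_apply hm hA, Measure.smul_apply, smul_eq_mul, hexp,
    withDensity_apply _ (hm hA), withDensity_apply _ hA, ← lintegral_indicator (hm hA),
    ← lintegral_indicator hA, ← lintegral_const_mul _ (hp.indicator hA)]
  have h1 : ∫⁻ x, (((fun x : ℝ => x + 1) ⁻¹' A).indicator (fun a => exponentialPDF r a)) x =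
      ∫⁻ y, (A.indicator (fun a => exponentialPDF r (a - 1))) y := by
    rw [← lintegral_add_right_eq_self (μ := volume)
      (fun y => (A.indicator (fun a => exponentialPDF r (a - 1))) y) 1]
    congr 1
    funext x
    by_cases hx : x + 1 ∈ A
    · rw [Set.indicator_of_mem (show x ∈ (fun x : ℝ => x + 1) ⁻¹' A from hx),
        Set.indicator_of_mem hx]
      simp
    · rw [Set.indicator_of_notMem (show x ∉ (fun x : ℝ => x + 1) ⁻¹' A from hx),
        Set.indicator_of_notMem hx]
  rw [h1]
  apply lintegral_mono
  intro y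
  by_cases hy : y ∈ A
  · simp only [Set.indicator_of_mem hy]
    rcases lt_or_ge (y - 1) 0 with h | h
    · rw [exponentialPDF_of_neg h]; exact bot_le
    · rw [exponentialPDF_of_nonneg h, exponentialPDF_of_nonneg (by linarith),
        ← ENNReal.ofReal_mul (Real.exp_pos r).le]
      apply ENNReal.ofReal_le_ofReal
      apply le_of_eq
      have : Real.exp (-(r * (y - 1))) = Real.exp r * Real.exp (-(r * y)) := by
        rw [← Real.exp_add]; congr 1; ring
      rw [this]; ring
  · simp only [Set.indicator_of_notMem hy]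
    simp

/-- Adding one to the coordinates in `S`. -/
noncomputable def sh {ι : Type*} (S : Set ι) (x : ι → ℝ) : ι → ℝ :=
  fun i => x i + S.indicator (fun _ => (1 : ℝ)) i

lemma measurable_sh {ι : Type*} (S : Set ι) : Measurable (sh S) := by
  unfold sh
  exact measurable_pi_lambda _ (fun i => (measurable_pi_apply i).add_const _)

/-- One coordinate. -/
lemma map_single_le {Ω ι : Type*} [MeasurableSpace Ω] {P : Measure Ω} [IsProbabilityMeasure P]
    (X : ι → Ω → ℝ) (hX : ∀ i, Measurable (X i)) (hind : iIndepFun X P) (i0 : ι) {r : ℝ}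
    (hr : 0 < r) (hlaw : P.map (X i0) = expMeasure r) :
    ((P.map (fun ω i => X i ω)).map (sh {i0})) ≤
      ENNReal.ofReal (Real.exp r) • (P.map (fun ω i => X i ω)) := by
  classical
  have hXm : Measurable (fun ω i => X i ω) := measurable_pi_lambda _ hX
  -- the family with coordinate `i0` erased
  set Y : Ω → ι → ℝ := fun ω i => if i = i0 then 0 else X i ω with hY
  have hYm : Measurable Y := by
    refine measurable_pi_lambda _ (fun i => ?_)
    by_cases h : i = i0
    · simp only [hY, h, if_true]; exact measurable_const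
    · simp only [hY, h, if_false]; exact hX i
  have hindep : IndepFun (X i0) Y P := by
    have h1 := indep_iSup_of_disjoint (μ := P) (m := fun i => MeasurableSpace.comap (X i) inferInstance)
      (fun i => (hX i).comap_le) hind (S := {i0}) (T := {i0}ᶜ) disjoint_compl_right
    rw [IndepFun_iff_Indep]
    refine indep_of_indep_of_le_left (indep_of_indep_of_le_right h1 ?_) ?_
    · rw [← measurable_iff_comap_le]
      refine @measurable_pi_lambda _ _ _ (_) _ _ (fun i => ?_)
      by_cases h : i = i0
      · simp only [hY, h, if_true]; exact measurable_const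
      · simp only [hY, h, if_false]
        have h2 : MeasurableSpace.comap (X i) inferInstance ≤
            ⨆ j ∈ ({i0}ᶜ : Set ι), MeasurableSpace.comap (X j) inferInstance :=
          le_iSup₂_of_le i h le_rfl
        exact (comap_measurable (X i)).mono h2 le_rfl
    · exact le_iSup₂_of_le i0 rfl le_rfl
  have hprod := (indepFun_iff_map_prod_eq_prod_map_map (hX i0).aemeasurable
    hYm.aemeasurable).mp hindep
  -- reconstruction map
  set g : ℝ × (ι → ℝ) → ι → ℝ := fun q i => if i = i0 then q.1 else q.2 i with hg
  have hgm : Measurable g := by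
    refine measurable_pi_lambda _ (fun i => ?_)
    by_cases h : i = i0
    · simp only [hg, h, if_true]; exact measurable_fst
    · simp only [hg, h, if_false]; exact (measurable_pi_apply i).comp measurable_snd
  have hgX : (fun ω i => X i ω) = fun ω => g (X i0 ω, Y ω) := by
    funext ω i
    by_cases h : i = i0
    · subst h; simp [hg]
    · simp [hg, hY, h]
  have hgX' : (fun ω => sh {i0} (fun i => X i ω)) = fun ω => g (X i0 ω + 1, Y ω) := by
    funext ω i
    by_cases h : i = i0
    · subst h; simp [hg, sh]
    · simp [hg, hY, h, sh]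
  have hYprob : IsProbabilityMeasure (P.map Y) := Measure.isProbabilityMeasure_map hYm.aemeasurable
  refine Measure.le_iff.mpr (fun A hA => ?_)
  rw [Measure.map_apply (measurable_sh _) hA, Measure.map_apply hXm (measurable_sh _ hA),
    Measure.smul_apply, smul_eq_mul, Measure.map_apply hXm hA]
  have e1 : (fun ω i => X i ω) ⁻¹' (sh {i0} ⁻¹' A) = (fun ω => (X i0 ω, Y ω)) ⁻¹'
      ((fun q : ℝ × (ι → ℝ) => (q.1 + 1, q.2)) ⁻¹' (g ⁻¹' A)) := by
    ext ω
    simp only [Set.mem_preimage]
    have := congrFun hgX' ω
    rw [this]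
  have e2 : (fun ω i => X i ω) ⁻¹' A = (fun ω => (X i0 ω, Y ω)) ⁻¹' (g ⁻¹' A) := by
    ext ω
    simp only [Set.mem_preimage]
    have := congrFun hgX ω
    rw [this]
  have hs : Measurable (fun q : ℝ × (ι → ℝ) => (q.1 + 1, q.2)) := by fun_prop
  rw [e1, e2, ← Measure.map_apply ((hX i0).prodMk hYm) (hs (hgm hA)),
    ← Measure.map_apply ((hX i0).prodMk hYm) (hgm hA), hprod, hlaw]
  have hexpP : IsProbabilityMeasure (expMeasure r) := isProbabilityMeasure_expMeasure hr
  rw [Measure.prod_apply (hs (hgm hA)), Measure.prod_apply (hgm hA)]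
  have hF : Measurable (fun x : ℝ => (P.map Y) (Prod.mk x ⁻¹' (g ⁻¹' A))) :=
    measurable_measure_prodMk_left (hgm hA)
  have h3 : ∫⁻ x, (P.map Y) (Prod.mk x ⁻¹' ((fun q : ℝ × (ι → ℝ) => (q.1 + 1, q.2)) ⁻¹' (g ⁻¹' A)))
      ∂(expMeasure r) = ∫⁻ x, (P.map Y) (Prod.mk x ⁻¹' (g ⁻¹' A))
      ∂((expMeasure r).map (fun x => x + 1)) := by
    rw [lintegral_map hF (by fun_prop)]
    rfl
  rw [h3]
  calc ∫⁻ x, (P.map Y) (Prod.mk x ⁻¹' (g ⁻¹' A)) ∂((expMeasure r).map (fun x => x + 1))
      ≤ ∫⁻ x, (P.map Y) (Prod.mk x ⁻¹' (g ⁻¹' A))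
        ∂(ENNReal.ofReal (Real.exp r) • (expMeasure r)) :=
        lintegral_mono' (exp_shift r) le_rfl
    _ = _ := by rw [lintegral_smul_measure, smul_eq_mul]

/-- Finitely many coordinates. -/
lemma map_finset_le {Ω ι : Type*} [MeasurableSpace Ω] {P : Measure Ω} [IsProbabilityMeasure P]
    (X : ι → Ω → ℝ) (hX : ∀ i, Measurable (X i)) (hind : iIndepFun X P) (r : ι → ℝ)
    (S : Finset ι) (hr : ∀ i ∈ S, 0 < r i) (hlaw : ∀ i ∈ S, P.map (X i) = expMeasure (r i)) :
    ((P.map (fun ω i => X i ω)).map (sh (S : Set ι))) ≤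
      ENNReal.ofReal (Real.exp (∑ i ∈ S, r i)) • (P.map (fun ω i => X i ω)) := by
  classical
  induction S using Finset.induction_on with
  | empty =>
    have : sh ((∅ : Finset ι) : Set ι) = id := by
      funext x i; simp [sh]
    rw [this, Measure.map_id]
    simp
  | insert a S ha ih =>
    have ih' := ih (fun i hi => hr i (Finset.mem_insert_of_mem hi))
      (fun i hi => hlaw i (Finset.mem_insert_of_mem hi))
    have h1 := map_single_le X hX hind a (hr a (Finset.mem_insert_self _ _))
      (hlaw a (Finset.mem_insert_self _ _))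
    have hcomp : sh ((insert a S : Finset ι) : Set ι) = sh {a} ∘ sh (S : Set ι) := by
      funext x i
      simp only [sh, Function.comp, Finset.coe_insert]
      by_cases hi : i = a
      · subst hi; simp [ha]
      · by_cases hiS : i ∈ S <;> simp [hi, hiS]
    rw [hcomp, ← Measure.map_map (measurable_sh _) (measurable_sh _)]
    calc ((P.map (fun ω i => X i ω)).map (sh (S : Set ι))).map (sh {a})
        ≤ (ENNReal.ofReal (Real.exp (∑ i ∈ S, r i)) • (P.map (fun ω i => X i ω))).map (sh {a}) :=
          Measure.map_mono ih' (measurable_sh _)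
      _ = ENNReal.ofReal (Real.exp (∑ i ∈ S, r i)) • ((P.map (fun ω i => X i ω)).map (sh {a})) := by
          rw [Measure.map_smul]
      _ ≤ ENNReal.ofReal (Real.exp (∑ i ∈ S, r i)) •
          (ENNReal.ofReal (Real.exp (r a)) • (P.map (fun ω i => X i ω))) := by
          gcongr
      _ = _ := by
          rw [smul_smul, ← ENNReal.ofReal_mul (Real.exp_pos _).le, ← Real.exp_add,
            Finset.sum_insert ha, add_comm]

end Pool.Agent.X137.Shift
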