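import Mathlib
import Pool.Agent.X137.WModel
import Pool.Agent.X137.WBall
import Pool.Agent.X137.Shift

/-! No rate exponent above one for the weighted model: the time shift argument. -/

namespace Pool.Agent.X137.WRate

open MeasureTheory ProbabilityTheory Set Filter Topology
open scoped ENNReal Pointwise
open Pool.Agent.X137.WModel Pool.Agent.X137.Shift

variable {d : ℕ}

/-- The edges at the origin. -/
def originEdges (d : ℕ) : Set (lattice d).edgeSet := {e | (0 : Vtx d) ∈ e.1}

lemma originEdges_finite (d : ℕ) : (originEdges d).Finite := by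
  have h1 : ((fun y : Vtx d => s((0 : Vtx d), y)) '' (Set.Icc (fun _ => -1) (fun _ => 1))).Finite :=
    (Set.finite_Icc _ _).image _
  have h2 : originEdges d ⊆ Subtype.val ⁻¹' ((fun y : Vtx d => s((0 : Vtx d), y)) ''
      (Set.Icc (fun _ => -1) (fun _ => 1))) := by
    intro e he
    obtain ⟨y, hy⟩ : ∃ y, e.1 = s(0, y) := Sym2.mem_iff_exists.mp he
    have hadj : (lattice d).Adj 0 y := by
      rw [← SimpleGraph.mem_edgeSet, ← hy]; exact e.2
    refine ⟨y, ?_, hy.symm⟩
    have h3 : ∑ i, |(0 : Vtx d) i - y i| = 1 := hadj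
    have h4 : ∀ i, |y i| ≤ 1 := by
      intro i
      have : |(0 : Vtx d) i - y i| ≤ ∑ i, |(0 : Vtx d) i - y i| :=
        Finset.single_le_sum (f := fun i => |(0 : Vtx d) i - y i|)
          (fun i _ => abs_nonneg _) (Finset.mem_univ i)
      rw [h3] at this
      simpa using this
    rw [Set.mem_Icc]
    constructor
    · intro i; exact (abs_le.mp (h4 i)).1
    · intro i; exact (abs_le.mp (h4 i)).2
  exact (h1.preimage (Subtype.val_injective.injOn)).subset h2

lemma cluster_mono (w : Sym2 (Vtx d) → ℝ) {s t : ℝ} (h : s ≤ t) : cluster w s ⊆ cluster w t := by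
  rintro z ⟨v, hv, hz⟩
  exact ⟨v, hv.trans (ENNReal.ofReal_le_ofReal h), hz⟩

lemma measurableSet_cluster (z : Sp d) (t : ℝ) :
    MeasurableSet {x : (lattice d).edgeSet → ℝ | z ∈ cluster (extW x) t} := by
  have : {x : (lattice d).edgeSet → ℝ | z ∈ cluster (extW x) t} =
      ⋃ v : Vtx d, {x | passTime (extW x) v ≤ ENNReal.ofReal t ∧ ∀ i, |z i - (v i : ℝ)| ≤ 1 / 2} := by
    ext x
    simp [cluster]
  rw [this]
  refine MeasurableSet.iUnion (fun v => ?_)
  exact (measurableSet_le (measurable_passTime v) measurable_const).inter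
    (MeasurableSet.const _)

/-- The key comparison. -/
lemma shift_bound {Ω : Type} [MeasurableSpace Ω] {P : Measure Ω} [IsProbabilityMeasure P]
    {f : Sp d → ℝ} (hf : ∀ z, z ≠ 0 → 0 < f z) {X : Sym2 (Vtx d) → Ω → ℝ} (hX : EdgeTimes P f X) :
    ∃ C : ℝ, 0 < C ∧ ∀ (t : ℝ) (z : Sp d), 0 ≤ t → (∃ i, 1 / 2 < |z i|) →
      P {ω | z ∉ cluster (fun e => X e ω) t} ≤
        ENNReal.ofReal C * P {ω | z ∉ cluster (fun e => X e ω) (t + 1)} := by
  classical
  set X' : (lattice d).edgeSet → Ω → ℝ := fun e => X e.1 with hX'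
  have hm : ∀ e, Measurable (X' e) := fun e => hX.meas e.1 e.2
  set S : Finset (lattice d).edgeSet := (originEdges_finite d).toFinset with hS
  have hSc : (S : Set (lattice d).edgeSet) = originEdges d := by simp [hS]
  have hmap := map_finset_le X' hm hX.indep (fun e => f (mid e.1)) S
    (fun e _ => hf _ (mid_ne_zero e.2)) (fun e _ => hX.law e.1 e.2)
  rw [hSc] at hmap
  set C := Real.exp (∑ e ∈ S, f (mid e.1)) with hC
  refine ⟨C, Real.exp_pos _, fun t z ht hz => ?_⟩
  have hXm : Measurable (fun ω e => X' e ω) := measurable_pi_lambda _ hm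
  -- express events through the restricted configuration
  have hcl : ∀ (ω : Ω) (s : ℝ), cluster (fun e => X e ω) s = cluster (extW (fun e => X' e ω)) s := by
    intro ω s
    unfold cluster
    have : ∀ v, passTime (fun e => X e ω) v = passTime (extW (fun e => X' e ω)) v := by
      intro v
      refine passTime_congr (fun e he => ?_) v
      simp [extW, he, hX']
    simp only [this]
  set A : ℝ → Set ((lattice d).edgeSet → ℝ) := fun s => {x | z ∉ cluster (extW x) s} with hA
  have hAm : ∀ s, MeasurableSet (A s) := fun s => (measurableSet_cluster z s).compl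
  have hev : ∀ s, P {ω | z ∉ cluster (fun e => X e ω) s} = P.map (fun ω e => X' e ω) (A s) := by
    intro s
    rw [Measure.map_apply hXm (hAm s)]
    congr 1
    ext ω
    simp only [Set.mem_ofPred_eq, Set.mem_preimage, hA]
    rw [hcl ω s]
  rw [hev, hev]
  -- nonnegativity almost surely
  have hnn : ∀ᵐ x ∂(P.map (fun ω e => X' e ω)), ∀ e ∈ S, 0 ≤ x e := by
    have hall : ∀ e ∈ S, ∀ᵐ x ∂(P.map (fun ω e => X' e ω)), 0 ≤ x e := by
      intro e _
      have h1 : ∀ᵐ y ∂(expMeasure (f (mid e.1))), 0 ≤ y := by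
        rw [ae_iff]
        have h2 : expMeasure (f (mid e.1)) {a | ¬ 0 ≤ a} = 0 := by
          have h3 : {a : ℝ | ¬ 0 ≤ a} = Iio 0 := by ext a; simp
          rw [h3]
          show (volume.withDensity (exponentialPDF (f (mid e.1)))) (Iio 0) = 0
          rw [withDensity_apply _ measurableSet_Iio]
          exact lintegral_exponentialPDF_of_nonpos le_rfl
        exact h2
      rw [← hX.law e.1 e.2] at h1
      have h4 : ∀ᵐ ω ∂P, 0 ≤ X e.1 ω := ae_of_ae_map (hm e).aemeasurable h1
      rw [ae_map_iff hXm.aemeasurable (measurableSet_le measurable_const (measurable_pi_apply e))]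
      exact h4
    rw [Finset.eventually_all]
    exact hall
  have hsub : ∀ᵐ x ∂(P.map (fun ω e => X' e ω)), x ∈ A t → sh (originEdges d) x ∈ A (t + 1) := by
    filter_upwards [hnn] with x hx hxA
    intro hcon
    obtain ⟨v, hv, hzv⟩ := hcon
    apply hxA
    refine ⟨v, ?_, hzv⟩
    have hv0 : v ≠ 0 := by
      rintro rfl
      obtain ⟨i, hi⟩ := hz
      have := hzv i
      simp only [Pi.zero_apply, Int.cast_zero, sub_zero] at this
      linarith
    have h1 : passTime (extW x) v + 1 ≤ passTime (extW (sh (originEdges d) x)) v := by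
      refine passTime_shift (fun e => ?_) (fun y hy => ?_) hv0
      · unfold extW
        by_cases h : e ∈ (lattice d).edgeSet
        · simp only [h, dif_pos, sh]
          have : (0 : ℝ) ≤ (originEdges d).indicator (fun _ => (1 : ℝ)) ⟨e, h⟩ :=
            Set.indicator_nonneg (fun _ _ => zero_le_one) _
          linarith
        · simp [h]
      · have he : s((0 : Vtx d), y) ∈ (lattice d).edgeSet := hy
        have hmem : (⟨s((0 : Vtx d), y), he⟩ : (lattice d).edgeSet) ∈ originEdges d := by
          simp [originEdges]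
        constructor
        · unfold extW
          rw [dif_pos he]
          apply hx
          rw [← Finset.mem_coe, hSc]
          exact hmem
        · unfold extW
          rw [dif_pos he, dif_pos he]
          simp only [sh]
          rw [Set.indicator_of_mem hmem]
    have h2 : passTime (extW x) v + 1 ≤ ENNReal.ofReal t + 1 := by
      refine (h1.trans hv).trans ?_
      rw [ENNReal.ofReal_add ht zero_le_one, ENNReal.ofReal_one]
    exact (ENNReal.add_le_add_iff_right ENNReal.one_ne_top).mp h2
  calc P.map (fun ω e => X' e ω) (A t)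
      ≤ P.map (fun ω e => X' e ω) (sh (originEdges d) ⁻¹' (A (t + 1))) := measure_mono_ae hsub
    _ = ((P.map (fun ω e => X' e ω)).map (sh (originEdges d))) (A (t + 1)) := by
        rw [Measure.map_apply (measurable_sh _) (hAm _)]
    _ ≤ (ENNReal.ofReal C • (P.map (fun ω e => X' e ω))) (A (t + 1)) := hmap _
    _ = _ := by rw [Measure.smul_apply, smul_eq_mul]

/-- Abstract bound: if `z` lies in the inner set at time `t + 1` but outside the outer set at time
`t`, then the good event has probability at most `1 - 1 / C`. -/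
lemma good_bound {Ω : Type} [MeasurableSpace Ω] {P : Measure Ω} [IsProbabilityMeasure P]
    {f : Sp d → ℝ} (hf : ∀ z, z ≠ 0 → 0 < f z) {X : Sym2 (Vtx d) → Ω → ℝ} (hX : EdgeTimes P f X) :
    ∃ c : ℝ, 0 < c ∧ ∀ (B : Set (Sp d)) (α χ t : ℝ) (z : Sp d), 0 ≤ t →
      z ∈ ((1 - (t + 1) ^ (-χ)) * (t + 1) ^ (1 / (1 - α))) • B →
      z ∉ ((1 + t ^ (-χ)) * t ^ (1 / (1 - α))) • B →
      c ≤ 1 - (P (goodEvent X B α χ t)).toReal := by
  obtain ⟨C, hC, hb⟩ := shift_bound hf hX
  refine ⟨min 1 (1 / (C + 1)), by positivity, fun B α χ t z ht hz1 hz2 => ?_⟩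
  by_cases hz : ∃ i, 1 / 2 < |z i|
  · -- main case
    set G : Set Ω := {ω | z ∉ cluster (fun e => X e ω) t} with hG
    set G' : Set Ω := {ω | z ∉ cluster (fun e => X e ω) (t + 1)} with hG'
    have h1 := hb t z ht hz
    have hX'm : Measurable (fun ω (e : (lattice d).edgeSet) => X e.1 ω) :=
      measurable_pi_lambda _ (fun e => hX.meas e.1 e.2)
    have hcl : ∀ (ω : Ω) (s : ℝ), cluster (fun e => X e ω) s =
        cluster (extW (fun e : (lattice d).edgeSet => X e.1 ω)) s := by
      intro ω s
      unfold cluster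
      have : ∀ v, passTime (fun e => X e ω) v =
          passTime (extW (fun e : (lattice d).edgeSet => X e.1 ω)) v := by
        intro v
        refine passTime_congr (fun e he => ?_) v
        simp [extW, he]
      simp only [this]
    have hGm' : MeasurableSet G' := by
      have : G' = (fun ω (e : (lattice d).edgeSet) => X e.1 ω) ⁻¹'
          {x | z ∈ cluster (extW x) (t + 1)}ᶜ := by
        ext ω
        simp only [hG', Set.mem_ofPred_eq, Set.mem_preimage, Set.mem_compl_iff]
        rw [hcl ω (t + 1)]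
      rw [this]
      exact hX'm (measurableSet_cluster z (t + 1)).compl
    have hsub : goodEvent X B α χ t ⊆ G \ G' := by
      intro ω hω
      constructor
      · intro hmem
        exact hz2 ((hω t le_rfl).2 hmem)
      · intro hnot
        exact hnot ((hω (t + 1) (by linarith)).1 hz1)
    have hG'G : G' ⊆ G := fun ω hω hmem => hω (cluster_mono _ (by linarith) hmem)
    have h2 : P (goodEvent X B α χ t) ≤ P (G \ G') := measure_mono hsub
    have h3 : P (G \ G') = P G - P G' :=
      measure_sdiff hG'G hGm'.nullMeasurableSet (measure_ne_top _ _)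
    have h4 : (P (goodEvent X B α χ t)).toReal ≤ (P G).toReal - (P G').toReal := by
      rw [h3] at h2
      calc (P (goodEvent X B α χ t)).toReal ≤ (P G - P G').toReal :=
            ENNReal.toReal_mono (ne_top_of_le_ne_top (measure_ne_top P G) tsub_le_self) h2
        _ = _ := ENNReal.toReal_sub_of_le (measure_mono hG'G) (measure_ne_top _ _)
    have h5 : (P G).toReal ≤ C * (P G').toReal := by
      have := ENNReal.toReal_mono (ENNReal.mul_ne_top ENNReal.ofReal_ne_top (measure_ne_top _ _)) h1
      rwa [ENNReal.toReal_mul, ENNReal.toReal_ofReal hC.le] at this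
    have h6 : (P G).toReal ≤ 1 := by
      have := ENNReal.toReal_mono ENNReal.one_ne_top (prob_le_one (μ := P) (s := G))
      simpa using this
    have h7 : 0 ≤ (P G').toReal := ENNReal.toReal_nonneg
    have h8 : 0 ≤ (P G).toReal := ENNReal.toReal_nonneg
    refine (min_le_right _ _).trans ?_
    -- P(E) ≤ PG - PG' with PG ≤ C PG', PG ≤ 1
    rw [div_le_iff₀ (by positivity)]
    nlinarith
  · -- the good event is empty
    push Not at hz
    have : goodEvent X B α χ t = ∅ := by
      rw [Set.eq_empty_iff_forall_notMem]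
      intro ω hω
      apply hz2
      apply (hω t le_rfl).2
      refine ⟨0, ?_, fun i => by simpa using hz i⟩
      rw [passTime_zero]
      exact bot_le
    rw [this, measure_empty, ENNReal.toReal_zero, sub_zero]
    exact min_le_left _ _

/-- Elementary asymptotics. -/
lemma eventually_ratio {β χ : ℝ} (hβ : 1 ≤ β) (hχ : 1 < χ) :
    ∀ᶠ t : ℝ in atTop, 0 < (1 + t ^ (-χ)) * t ^ β ∧
      (1 + t ^ (-χ)) * t ^ β < (1 - (t + 1) ^ (-χ)) * (t + 1) ^ β := by
  have h1 : ∀ᶠ t : ℝ in atTop, 3 < t ^ (χ - 1) :=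
    (tendsto_rpow_atTop (by linarith : 0 < χ - 1)).eventually_gt_atTop 3
  filter_upwards [h1, eventually_gt_atTop 1] with t ht ht1
  have ht0 : 0 < t := by linarith
  have hpos : 0 < t ^ (-χ) := Real.rpow_pos_of_pos ht0 _
  refine ⟨by positivity, ?_⟩
  have h2 : (t + 1) ^ β = t ^ β * (1 + 1 / t) ^ β := by
    rw [← Real.mul_rpow ht0.le (by positivity)]
    congr 1
    field_simp
  have h3 : 1 + 1 / t ≤ (1 + 1 / t) ^ β := by
    calc 1 + 1 / t = (1 + 1 / t) ^ (1 : ℝ) := (Real.rpow_one _).symm
      _ ≤ _ := Real.rpow_le_rpow_of_exponent_le (by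
        have : 0 < 1 / t := by positivity
        linarith) hβ
  have h4 : (t + 1) ^ (-χ) ≤ t ^ (-χ) :=
    Real.rpow_le_rpow_of_nonpos ht0 (by linarith) (by linarith)
  have h5 : t ^ (-χ) * 3 < 1 / t := by
    have h6 : t ^ (χ - 1) * t ^ (-χ) = 1 / t := by
      rw [← Real.rpow_add ht0, show χ - 1 + -χ = -1 by ring, Real.rpow_neg_one, one_div]
    rw [← h6, mul_comm]
    exact mul_lt_mul_of_pos_right ht hpos
  have h7 : 1 / t < 1 := by rw [div_lt_one ht0]; exact ht1
  have h8 : t ^ (-χ) < 1 := by nlinarith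
  have htβ : 0 < t ^ β := Real.rpow_pos_of_pos ht0 _
  rw [h2]
  have h9 : 1 + t ^ (-χ) < (1 - (t + 1) ^ (-χ)) * (1 + 1 / t) ^ β := by
    calc 1 + t ^ (-χ) < (1 - t ^ (-χ)) * (1 + 1 / t) := by nlinarith
      _ ≤ (1 - (t + 1) ^ (-χ)) * (1 + 1 / t) ^ β := by
        apply mul_le_mul (by linarith) h3 (by positivity) (by linarith)
  calc (1 + t ^ (-χ)) * t ^ β < ((1 - (t + 1) ^ (-χ)) * (1 + 1 / t) ^ β) * t ^ β :=
        mul_lt_mul_of_pos_right h9 htβ
    _ = _ := by ring

/-- A bounded set with a nonzero point is not contained in a strictly smaller dilate of itself. -/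
lemma exists_point {B : Set (Sp d)} {R : ℝ} (hB : ∀ z ∈ B, ‖z‖ ≤ R) {z₀ : Sp d} (hz₀ : z₀ ∈ B)
    (hne : z₀ ≠ 0) {a b : ℝ} (ha : 0 < a) (hab : a < b) : ∃ z, z ∈ b • B ∧ z ∉ a • B := by
  by_contra hcon
  push Not at hcon
  have hstep : ∀ x ∈ B, (b / a) • x ∈ B := by
    intro x hx
    obtain ⟨y, hy, hyx⟩ := hcon (b • x) (Set.smul_mem_smul_set hx)
    have : (b / a) • x = y := by
      simp only at hyx
      rw [div_eq_inv_mul, mul_smul, ← hyx, smul_smul, inv_mul_cancel₀ ha.ne', one_smul]
    rw [this]; exact hy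
  have hall : ∀ n : ℕ, ((b / a) ^ n) • z₀ ∈ B := by
    intro n
    induction n with
    | zero => simpa using hz₀
    | succ n ih =>
      have := hstep _ ih
      rwa [smul_smul, ← pow_succ'] at this
  have hr : 1 < b / a := by rwa [one_lt_div ha]
  obtain ⟨n, hn⟩ := ((tendsto_pow_atTop_atTop_of_one_lt hr).eventually_gt_atTop (R / ‖z₀‖)).exists
  have h1 := hB _ (hall n)
  rw [norm_smul, Real.norm_of_nonneg (by positivity)] at h1
  have h2 : 0 < ‖z₀‖ := norm_pos_iff.mpr hne
  rw [div_lt_iff₀ h2] at hn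
  linarith

end Pool.Agent.X137.WRate
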