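import Pool.Agent.H631.EX.Final

set_option autoImplicit false

open Set Metric Filter Topology

namespace X137.EStar

open ExtStar

noncomputable section

/-- shrinking the radius in the two-sided ball condition -/
theorem BC_mono {d : ℕ} {Ω : Set (E d)} {r s : ℝ} (hsr : s ≤ r) (h : BC Ω r) :
    BC Ω s := by
  intro q hq
  obtain ⟨ν, h1, h2, h3, h4⟩ := h q hq
  have hsub : ∀ σ : ℝ, |σ| = 1 → ball (q + (σ * s) • ν) s ⊆ ball (q + (σ * r) • ν) r := by
    intro σ hσ z hz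
    rw [mem_ball] at hz ⊢
    have h5 : dist (q + (σ * s) • ν) (q + (σ * r) • ν) = r - s := by
      rw [dist_eq_norm]
      have h6 : q + (σ * s) • ν - (q + (σ * r) • ν) = (σ * (s - r)) • ν := by
        rw [mul_sub, sub_smul]; abel
      rw [h6, norm_smul, h2, mul_one, Real.norm_eq_abs, abs_mul, hσ, one_mul, abs_of_nonpos (by linarith)]
      ring
    have := dist_triangle z (q + (σ * s) • ν) (q + (σ * r) • ν)
    linarith
  refine ⟨ν, h1, h2, ?_, ?_⟩
  · have := hsub 1 (by norm_num)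
    rw [one_mul, one_mul] at this
    exact this.trans h3
  · have := hsub (-1) (by norm_num)
    have e1 : q + (-1 * s) • ν = q - s • ν := by rw [neg_one_mul, neg_smul, sub_eq_add_neg]
    have e2 : q + (-1 * r) • ν = q - r • ν := by rw [neg_one_mul, neg_smul, sub_eq_add_neg]
    rw [e1, e2] at this
    exact this.trans h4

theorem pbs_sol {d : ℕ} {f : ℝ → ℝ} (hR : React f) {Ω : Set (E d)} (hΩ : IsOpen Ω) {w : E d → ℝ}
    (hw : PBS f Ω w) : Sol f Ω w := by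
  obtain ⟨w1, w2, w3, w4, w5, w6⟩ := hw
  exact ⟨w1, w2, w3, fun z hz => ⟨w4 z hz, sol_le_one f hR Ω hΩ w w1 w2 w3 w4 w5 w6 z hz⟩, w6⟩

theorem star0 {d : ℕ} {Ω : Set (E d)} {x₀ : E d} (hne : Ω ≠ univ) (hstar : StarConvex ℝ x₀ Ωᶜ) :
    Star0 ((fun x => x + x₀) ⁻¹' Ω) := by
  have hx₀ : x₀ ∈ Ωᶜ := by
    obtain ⟨y, hy⟩ : (Ωᶜ).Nonempty := Set.nonempty_compl.mpr hne
    have := hstar hy (zero_le_one) (le_refl (0 : ℝ)) (by norm_num)
    simpa using this
  refine ⟨?_, ?_⟩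
  · change ¬ ((0 : E d) + x₀ ∈ Ω)
    rw [zero_add]
    exact hx₀
  · intro y hy a b ha hb hab
    have h1 : y + x₀ ∈ Ωᶜ := hy
    have h2 := hstar h1 ha hb hab
    change ¬ (a • (0 : E d) + b • y + x₀ ∈ Ω)
    have h3 : a • (0 : E d) + b • y + x₀ = a • x₀ + b • (y + x₀) := by
      have h4 : x₀ = (a + b) • x₀ := by rw [hab, one_smul]
      calc a • (0 : E d) + b • y + x₀ = b • y + x₀ := by rw [smul_zero, zero_add]
        _ = b • y + (a + b) • x₀ := by rw [← h4]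
        _ = a • x₀ + b • (y + x₀) := by rw [add_smul, smul_add]; abel
    rw [h3]
    exact h2

theorem key {d : ℕ} {f : ℝ → ℝ} (hR : React f) {Ω : Set (E d)} (hΩ : IsOpen Ω) {r : ℝ} (hr : 0 < r)
    (hBC : BC Ω r) (hne : Ω ≠ univ) {x₀ : E d} (hstar : StarConvex ℝ x₀ Ωᶜ)
    {u v : E d → ℝ} (hu : PBS f Ω u) (hv : PBS f Ω v) :
    ∀ x ∈ Ω, ∀ k : ℝ, 1 ≤ k → x₀ + k • (x - x₀) ∈ Ω ∧ u x ≤ v (x₀ + k • (x - x₀)) := by
  obtain ⟨L, c, ε, c₁, hRC⟩ := react_const f hR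
  have hmin : 0 < min r 1 := lt_min hr one_pos
  have hctx : Ctx f L c ε c₁ ((fun x => x + x₀) ⁻¹' Ω) (min r 1) :=
    ⟨hR, hRC, hΩ.preimage (continuous_id.add continuous_const), star0 hne hstar,
      BC_shift Ω x₀ _ (BC_mono (min_le_left _ _) hBC), hmin, min_le_right _ _⟩
  intro x hx k hk
  have h1 := dil_le f L c ε c₁ ((fun x => x + x₀) ⁻¹' Ω) _ hctx (fun x => u (x + x₀))
    (fun x => v (x + x₀)) (Sol_shift f Ω x₀ u (pbs_sol hR hΩ hu))
    (Sol_shift f Ω x₀ v (pbs_sol hR hΩ hv))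
    (x - x₀) (by change x - x₀ + x₀ ∈ Ω; rw [sub_add_cancel]; exact hx) k hk
  obtain ⟨h2, h3⟩ := h1
  have h2' : k • (x - x₀) + x₀ ∈ Ω := h2
  have h3' : u (x - x₀ + x₀) ≤ v (k • (x - x₀) + x₀) := h3
  rw [sub_add_cancel, add_comm (k • (x - x₀)) x₀] at h3'
  rw [add_comm (k • (x - x₀)) x₀] at h2'
  exact ⟨h2', h3'⟩

theorem exists_pbs' {d : ℕ} {f : ℝ → ℝ} (hR : React f) {Ω : Set (E d)} (hΩ : IsOpen Ω) {r : ℝ}
    (hr : 0 < r) (hBC : BC Ω r) {x₀ : E d} (hstar : StarConvex ℝ x₀ Ωᶜ) :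
    ∃ u : E d → ℝ, PBS f Ω u := by
  obtain ⟨L, c, ε, c₁, hRC⟩ := react_const f hR
  have hmin : 0 < min r 1 := lt_min hr one_pos
  by_cases hne : Ω = univ
  · subst hne
    refine ⟨fun _ => 1, contDiffOn_const, continuousOn_const, ?_, fun _ _ => one_pos,
      ⟨1, fun _ _ => by simp⟩, ?_⟩
    · intro x hx
      rw [frontier_univ] at hx
      exact absurd hx (notMem_empty x)
    · intro x _
      rw [lap_const, hR.2.2.1, neg_zero]
  · have hctx : Ctx f L c ε c₁ ((fun x => x + x₀) ⁻¹' Ω) (min r 1) :=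
      ⟨hR, hRC, hΩ.preimage (continuous_id.add continuous_const), star0 hne hstar,
        BC_shift Ω x₀ _ (BC_mono (min_le_left _ _) hBC), hmin, min_le_right _ _⟩
    obtain ⟨w, hw⟩ := exists_sol f L c ε c₁ _ _ hctx
    have h1 := Sol_shift f _ (-x₀) w hw
    have h2 : (fun x => x + -x₀) ⁻¹' ((fun x => x + x₀) ⁻¹' Ω) = Ω := by
      ext x
      simp
    rw [h2] at h1
    obtain ⟨g1, g2, g3, g4, g5⟩ := h1
    refine ⟨_, g1, g2, g3, fun x hx => (g4 x hx).1, ⟨1, fun x hx => ?_⟩, g5⟩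
    rw [abs_of_pos (g4 x hx).1]
    exact (g4 x hx).2

theorem uniq_univ {d : ℕ} {f : ℝ → ℝ} (hR : React f) {w : E d → ℝ} (hw : PBS f univ w) (x : E d) :
    w x = 1 := by
  have hS := pbs_sol hR isOpen_univ hw
  refine le_antisymm (hS.2.2.2.1 x (mem_univ _)).2 ?_
  refine le_of_forall_pos_lt_add fun e he => ?_
  have he' : 0 < min (e / 2) (1 / 2) := by positivity
  have he1 : min (e / 2) (1 / 2) < 1 := lt_of_le_of_lt (min_le_right _ _) (by norm_num)
  obtain ⟨R, hR0, hR1⟩ := near_one d f hR _ he' he1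
  have := hR1 univ w x isOpen_univ hS (subset_univ _)
  have h2 := min_le_left (e / 2) (1 / 2 : ℝ)
  linarith

/-- a positive bounded solution is `< 1` in `Ω` when `Ω` is not the whole space -/
theorem lt_one {d : ℕ} {f : ℝ → ℝ} (hR : React f) {Ω : Set (E d)} (hΩ : IsOpen Ω) (hne : Ω ≠ univ)
    {u : E d → ℝ} (hu : PBS f Ω u) : ∀ x ∈ Ω, u x < 1 := by
  have hS := pbs_sol hR hΩ hu
  obtain ⟨L, c, ε, c₁, hRC⟩ := react_const f hR
  have hQ := (sol_quasi f L c ε c₁ hRC Ω hΩ u hS).2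
  obtain ⟨C, hC, hH⟩ := harnack d L hRC.1.le
  intro x₁ hx₁
  by_contra hcon
  push Not at hcon
  have hx1 : u x₁ = 1 := le_antisymm (hS.2.2.2.1 x₁ hx₁).2 hcon
  set A : Set (E d) := {x | x ∈ closure Ω ∧ u x = 1} with hA
  have hclosed : IsClosed A := by
    have h1 : A = closure Ω ∩ u ⁻¹' {1} := by ext; rfl
    rw [h1]
    exact hu.2.1.preimage_isClosed_of_isClosed isClosed_closure isClosed_singleton
  have hAΩ : A ⊆ Ω := by
    intro x hx
    by_contra hxn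
    have h1 : x ∈ frontier Ω := by
      rw [frontier, hΩ.interior_eq]
      exact ⟨hx.1, hxn⟩
    have h2 := hu.2.2.1 x h1
    rw [hx.2] at h2
    norm_num at h2
  have hopen : IsOpen A := by
    rw [isOpen_iff_mem_nhds]
    intro y hy
    obtain ⟨ρ, hρ, hball⟩ := Metric.isOpen_iff.mp hΩ y (hAΩ hy)
    have hρ' : 0 < min ρ 1 := lt_min hρ one_pos
    have hsub : ball y (min ρ 1) ⊆ Ω := (ball_subset_ball (min_le_left _ _)).trans hball
    have hQ' : Quasi L (ball y (min ρ 1)) (fun x => 1 - u x) :=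
      ⟨hQ.1.mono hsub, fun x hx => hQ.2 x (hsub hx)⟩
    refine mem_of_superset (ball_mem_nhds y (show 0 < min ρ 1 / 4 by positivity)) fun x hx => ?_
    have hxΩ : x ∈ Ω := hsub (ball_subset_ball (by linarith) hx)
    have h1 := hH (fun x => 1 - u x) y x (min ρ 1) hρ' (min_le_right _ _) hQ' hx
    simp only [hy.2, sub_self, mul_zero] at h1
    exact ⟨subset_closure hxΩ, le_antisymm (hS.2.2.2.1 x hxΩ).2 (by linarith)⟩
  have huniv : A = univ := IsClopen.eq_univ ⟨hclosed, hopen⟩ ⟨x₁, subset_closure hx₁, hx1⟩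
  apply hne
  rw [huniv] at hAΩ
  exact univ_subset_iff.mp hAΩ

theorem strict {d : ℕ} {f : ℝ → ℝ} (hR : React f) {Ω : Set (E d)} (hΩ : IsOpen Ω) {r : ℝ} (hr : 0 < r)
    (hBC : BC Ω r) (hne : Ω ≠ univ) {x₀ : E d} (hstar : StarConvex ℝ x₀ Ωᶜ)
    {u : E d → ℝ} (hu : PBS f Ω u) :
    ∀ x ∈ Ω, ∀ k : ℝ, 1 < k → x₀ + k • (x - x₀) ∈ Ω ∧ u x < u (x₀ + k • (x - x₀)) := by
  intro x hx k hk
  have hK := key hR hΩ hr hBC hne hstar hu hu
  obtain ⟨hxk, hle⟩ := hK x hx k hk.le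
  refine ⟨hxk, lt_of_le_of_ne hle fun heq => ?_⟩
  set a : E d := x₀ - k • x₀ with ha
  have hdil : ∀ y : E d, k • y + a = x₀ + k • (y - x₀) := by
    intro y
    rw [ha, smul_sub]; abel
  set w : E d → ℝ := fun y => u (k • y + a) - u y with hw
  have hCu : ∀ y ∈ Ω, ContDiffAt ℝ 2 u y := fun y hy => hu.1.contDiffAt (hΩ.mem_nhds hy)
  have hCx : ContDiffAt ℝ 2 u x := hCu x hx
  have hCk : ContDiffAt ℝ 2 u (k • x + a) := hCu _ (by rw [hdil]; exact hxk)
  have hCs : ContDiffAt ℝ 2 (fun z : E d => u (z + a)) (k • x) := by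
    have h1 : ContDiffAt ℝ 2 (fun z : E d => z + a) (k • x) := contDiffAt_id.add contDiffAt_const
    exact ContDiffAt.comp (k • x) hCk h1
  have hCd : ContDiffAt ℝ 2 (fun y : E d => u (k • y + a)) x := by
    have h1 : ContDiffAt ℝ 2 (fun y : E d => k • y + a) x := by fun_prop
    exact ContDiffAt.comp x hCk h1
  have hmin : IsLocalMin w x := by
    have hwx : w x = 0 := by
      simp only [hw]
      rw [hdil, ← heq, sub_self]
    filter_upwards [hΩ.mem_nhds hx] with y hy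
    rw [hwx]
    simp only [hw]
    rw [hdil]
    linarith [(hK y hy k hk.le).2]
  have h0 := lap_min w x (hCd.sub hCx) hmin
  have h1 : lap w x = lap (fun y : E d => u (k • y + a)) x - lap u x :=
    lap_sub (fun y : E d => u (k • y + a)) u x hCd hCx
  have h2 : lap (fun y : E d => u (k • y + a)) x = k ^ 2 * lap u (k • x + a) := by
    have h3 := lap_scale k (fun z : E d => u (z + a)) x hCs
    rw [lap_shift a u (k • x)] at h3
    exact h3
  have h4 : -lap u (k • x + a) = f (u x) := by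
    rw [hu.2.2.2.2.2 _ (by rw [hdil]; exact hxk), hdil, ← heq]
  have h5 : -lap u x = f (u x) := hu.2.2.2.2.2 x hx
  have h6 : 0 < f (u x) := hR.2.2.2.2.2.1 (u x) (hu.2.2.2.1 x hx) (lt_one hR hΩ hne hu x hx)
  rw [h1, h2] at h0
  have h7 : k ^ 2 * lap u (k • x + a) - lap u x = -((k ^ 2 - 1) * f (u x)) := by
    have h8 : lap u (k • x + a) = -f (u x) := by linarith
    have h9 : lap u x = -f (u x) := by linarith
    rw [h8, h9]; ring
  rw [h7] at h0
  have h10 : 0 < (k ^ 2 - 1) * f (u x) := mul_pos (by nlinarith) h6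
  linarith

end

end X137.EStar
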