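import Pool.Agent.X276.SemiBase

set_option autoImplicit false

noncomputable section

namespace X137.NormQ

open Pool.Agent.X276.Semi Pool.Agent.X276.Semi.Tau

variable {D : Type} [CommRing D] [IsDomain D] [CharP D 2] (E : Tau D)
variable [UniqueFactorizationMonoid D] [IsNoetherianRing D] (pi : ℕ → D)
  (hpi : ∀ n, pi n ∈ E.Ds n) (hpi0 : ∀ n, pi n ≠ 0) (hpr : ∀ n, pi n = 1 ∨ Prime (pi n))
  (hall : ∀ p, Prime p → ∃ n, Associated p (pi n))

include hpi hpi0 hpr hall in
/-- height one primes are associated to `D / R` -/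
theorem assocD (P : Ideal (E.R pi)) (hP : P.IsPrime) (hP1 : P.height = 1) :
    ∃ y : D, ∀ r : E.R pi, r ∈ P ↔ (r : D) * y ∈ E.R pi := by
  have hnoeth := E.noetherian pi hpi hpr hall
  have hP0 : P ≠ ⊥ := Ideal.ne_bot_of_height_eq_one hP1
  have hQp := E.QQ_prime pi P hP
  have hQ0 : E.QQ pi P hP ≠ ⊥ := by
    obtain ⟨x, hx, hx0⟩ := Submodule.exists_mem_ne_zero_of_ne_bot hP0
    intro h
    have h1 := (E.mem_QQ_iff pi (hP := hP) x).2 hx
    rw [h, Ideal.mem_bot] at h1
    exact hx0 (Subtype.ext h1)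
  obtain ⟨p, hpQ, hp⟩ := hQp.exists_mem_prime_of_ne_bot hQ0
  obtain ⟨j, hj⟩ := hall p hp
  have hjp : Prime (pi j) := hj.prime hp
  have hjQ : pi j ∈ E.QQ pi P hP := by
    obtain ⟨u, hu⟩ := hj
    rw [← hu]
    exact Ideal.mul_mem_right _ _ hpQ
  have hmin : ∀ P' : Ideal (E.R pi), P'.IsPrime → P' ≤ P → P' ≠ ⊥ → P' = P := by
    intro P' hP' hle hne'
    by_contra hPP
    have hlt : P' < P := lt_of_le_of_ne hle hPP
    have h1 := Ideal.height_add_one_le_of_lt_of_isPrime hlt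
    rw [hP1] at h1
    have h2 : P'.height ≠ 0 := fun h => hne' (Ideal.height_eq_zero_iff_eq_bot.1 h)
    have h3 : (1 : ℕ∞) ≤ P'.height := Order.one_le_iff_ne_zero.2 h2
    have h4 : (1 : ℕ∞) + 1 ≤ 1 := (add_le_add_left h3 1).trans h1
    exact absurd h4 (by decide)
  have hspan : (Ideal.span {pi j}).IsPrime := (Ideal.span_singleton_prime hjp.ne_zero).2 hjp
  have hP2 : (Ideal.span {pi j}).comap (E.R pi).subtype = P := by
    apply hmin _ (hspan.comap _)
    · intro x hx
      rw [← E.mem_QQ_iff pi (hP := hP) x]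
      exact (Ideal.span_singleton_le_iff_mem _).2 hjQ hx
    · intro h
      have h1 : (⟨pi j ^ 2, E.sq_mem_R pi _⟩ : E.R pi) ∈
          (Ideal.span {pi j}).comap (E.R pi).subtype := by
        change pi j ^ 2 ∈ Ideal.span {pi j}
        exact Ideal.pow_mem_of_mem _ (Ideal.mem_span_singleton_self _) 2 (by norm_num)
      rw [h, Ideal.mem_bot] at h1
      exact pow_ne_zero 2 hjp.ne_zero (congrArg Subtype.val h1)
  have hQs : E.QQ pi P hP = Ideal.span {pi j} := by
    ext d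
    rw [E.mem_QQ, ← hP2]
    change d ^ 2 ∈ Ideal.span {pi j} ↔ _
    exact ⟨fun h => hspan.mem_of_pow_mem 2 h, fun h => Ideal.pow_mem_of_mem _ h 2 (by norm_num)⟩
  obtain ⟨s, hs, hs0, hst⟩ := E.exists_mul' pi hpi hpi0 (E.tau j)
  let s' : E.R pi := ⟨s, hs⟩
  let N : Submodule (E.R pi) D := LinearMap.range (Algebra.linearMap (E.R pi) D)
  have hN : ∀ x : D, x ∈ N ↔ x ∈ E.R pi := by
    intro x
    constructor
    · rintro ⟨c, rfl⟩
      exact c.2
    · intro h
      exact ⟨⟨x, h⟩, rfl⟩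
  have hcol : ∀ (r : E.R pi) (y : D), r ∈ N.colon {y} ↔ (r : D) * y ∈ E.R pi := by
    intro r y
    rw [Submodule.mem_colon_singleton, hN]
    rfl
  have hle : N.colon {E.tau j} ≤ P := by
    intro r hr
    rw [hcol] at hr
    by_contra hrP
    have h1 : (r : D) ^ 2 * E.tau j ∈ E.R pi := by
      have : (r : D) ^ 2 * E.tau j = r * (r * E.tau j) := by ring
      rw [this]
      exact mul_mem r.2 hr
    obtain ⟨m, hm⟩ := h1
    have h2 : (r : D) ^ 2 * E.tau j ∈ E.Ds (j + 1) :=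
      mul_mem (E.Ds_mono (Nat.zero_le _) (E.sq_mem _)) (E.tau_mem j)
    have h3 : (r : D) ^ 2 * E.tau j ∈ E.Rs pi (j + 1) :=
      E.Rs_inter pi hpi (le_max_left (j + 1) m) (E.Rs_mono pi (le_max_right (j + 1) m) hm) h2 hpi0
    have h4 : (r : D) ^ 2 ∈ Ideal.span {pi j} := by
      apply E.lemM pi hpi _ hspan j (Ideal.mem_span_singleton_self _) (E.del_principal (hpi j)) j
        le_rfl _ h3 _ (E.const_le pi _ (E.sq_mem _))
      rw [E.add_self'_of]
      exact zero_mem _
    apply hrP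
    rw [← E.mem_QQ_iff pi (hP := hP), hQs]
    exact hspan.mem_of_pow_mem 2 h4
  have hmem : P ∈ (N.colon {E.tau j}).minimalPrimes := by
    refine ⟨⟨hP, hle⟩, ?_⟩
    rintro P' ⟨hP', hle'⟩ hP'P
    rw [hmin P' hP' hP'P]
    intro h
    have h1 : s' ∈ N.colon {E.tau j} := (hcol s' _).2 hst
    have h2 := hle' h1
    rw [h, Ideal.mem_bot] at h2
    exact hs0 (congrArg Subtype.val h2)
  obtain ⟨y, hy⟩ := Submodule.exists_eq_colon_of_mem_minimalPrimes hmem
  refine ⟨y, fun r => ?_⟩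
  rw [hy, hcol]

include hpi hpi0 in
theorem isFrac : IsFractionRing (E.R pi) (FractionRing D) := by
  have hinj : Function.Injective (algebraMap (E.R pi) (FractionRing D)) := by
    rw [IsScalarTower.algebraMap_eq (E.R pi) D (FractionRing D)]
    exact (IsFractionRing.injective D (FractionRing D)).comp Subtype.val_injective
  refine IsFractionRing.of_field (E.R pi) (FractionRing D) fun z => ?_
  obtain ⟨a, b, hb, rfl⟩ := IsFractionRing.div_surjective (A := D) z
  have hb0 : b ≠ 0 := nonZeroDivisors.ne_zero hb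
  obtain ⟨r, hr, hr0, hra⟩ := E.exists_mul' pi hpi hpi0 a
  obtain ⟨s, hs, hs0, hsb⟩ := E.exists_mul' pi hpi hpi0 b
  refine ⟨⟨s * (r * a), mul_mem hs hra⟩, ⟨r * (s * b), mul_mem hr hsb⟩, ?_⟩
  have hm : ∀ x : D, x ≠ 0 → algebraMap D (FractionRing D) x ≠ 0 := fun x hx => by
    rw [Ne, IsFractionRing.to_map_eq_zero_iff]
    exact hx
  have e1 : algebraMap (E.R pi) (FractionRing D) ⟨s * (r * a), mul_mem hs hra⟩ =
      algebraMap D (FractionRing D) (s * (r * a)) := rfl
  have e2 : algebraMap (E.R pi) (FractionRing D) ⟨r * (s * b), mul_mem hr hsb⟩ =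
      algebraMap D (FractionRing D) (r * (s * b)) := rfl
  rw [e1, e2]
  simp only [map_mul]
  have h1 := hm r hr0
  have h2 := hm s hs0
  have h3 := hm b hb0
  field_simp

include hpi hpi0 in
theorem isInt : IsIntegralClosure D (E.R pi) (FractionRing D) := by
  refine ⟨IsFractionRing.injective D (FractionRing D), fun {x} => ⟨fun hx => ?_, ?_⟩⟩
  · have h1 : IsIntegral D x := hx.tower_top
    exact IsIntegrallyClosed.isIntegral_iff.1 h1
  · rintro ⟨d, rfl⟩
    apply IsIntegral.of_pow (n := 2) (by norm_num)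
    have : algebraMap D (FractionRing D) d ^ 2 =
        algebraMap (E.R pi) (FractionRing D) ⟨d ^ 2, E.sq_mem_R pi d⟩ := by
      rw [← map_pow]; rfl
    rw [this]
    exact isIntegral_algebraMap

theorem main (d : ℕ) : ∃ (L : Type) (_ : Field L) (R : Subring (MvPolynomial (Fin d) L)),
    IsNoetherianRing R ∧ ringKrullDim R = d ∧
    IsFractionRing R (FractionRing (MvPolynomial (Fin d) L)) ∧
    IsIntegralClosure (MvPolynomial (Fin d) L) R (FractionRing (MvPolynomial (Fin d) L)) ∧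
    (∀ f : MvPolynomial (Fin d) L, f ^ 2 ∈ R) ∧
    ∀ P : Ideal R, P.IsPrime → P.height = 1 → ∃ y : MvPolynomial (Fin d) L, ∀ r : R,
      r ∈ P ↔ (r : MvPolynomial (Fin d) L) * y ∈ R := by
  obtain ⟨pi, hpi, hpi0, hpr, hne, hall⟩ := (tauD d).exists_pi
  refine ⟨L0, inferInstance, (tauD d).R pi, (tauD d).noetherian pi hpi hpr hall, ?_,
    isFrac (tauD d) pi hpi hpi0, isInt (tauD d) pi hpi hpi0, fun f => (tauD d).sq_mem_R pi f,
    assocD (tauD d) pi hpi hpi0 hpr hall⟩
  rw [(tauD d).krullDim_eq pi, MvPolynomial.ringKrullDim_of_isNoetherianRing,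
    ringKrullDim_eq_zero_of_field]
  simp

end X137.NormQ
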